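import Pool.Agent.Lib.MP_4a0cc8_ntL.Defs

set_option autoImplicit false
set_option linter.unusedSectionVars false
set_option linter.unusedVariables false

namespace Pool.Agent.Lib.FL60

open WithZero Pool.Agent.Lib.FM60

private lemma cusp_k_dbl {k : Type*} [Field k] {x y x' y' : k} (hx : x ≠ 0) (hy : y ≠ 0)
    (h1 : y ^ 2 = x ^ 3) (h2 : 4 * x ^ 3 * x' = x ^ 4)
    (h3 : 2 * y * (y' + y) = 3 * x ^ 2 * (x - x')) : x' * y = 2 * x * y' := by
  have h4 : 4 * x' = x := by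
    have h5 : x ^ 3 * (4 * x' - x) = 0 := by linear_combination h2
    rcases mul_eq_zero.1 h5 with h | h
    · exact absurd h (pow_ne_zero 3 hx)
    · exact sub_eq_zero.1 h
  have h6 : 8 * y' = y := by
    have h7 : y * (8 * y' - y) = 0 := by
      linear_combination 4 * h3 - 9 * h1 - 3 * x ^ 2 * h4
    rcases mul_eq_zero.1 h7 with h | h
    · exact absurd h hy
    · exact sub_eq_zero.1 h
  rw [← h6, ← h4]
  ring

private lemma cusp_k_add {k : Type*} [Field k] {x1 y1 x2 y2 x3 y3 : k} (hx1 : x1 ≠ 0)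
    (hx2 : x2 ≠ 0) (hy1 : y1 ≠ 0) (hy2 : y2 ≠ 0) (h12 : x1 - x2 ≠ 0) (h1 : y1 ^ 2 = x1 ^ 3)
    (h2 : y2 ^ 2 = x2 ^ 3) (h3 : (x1 - x2) ^ 2 * (x3 + x1 + x2) = (y1 - y2) ^ 2)
    (h4 : (x1 - x2) * (y3 + y1) = (y1 - y2) * (x1 - x3)) :
    x3 * (y1 * y2) = y3 * (x1 * y2 + x2 * y1) := by
  obtain ⟨s, hs⟩ : ∃ s, s = y1 / x1 := ⟨_, rfl⟩
  obtain ⟨r, hr⟩ : ∃ r, r = y2 / x2 := ⟨_, rfl⟩
  have e1 : y1 = s * x1 := by rw [hs]; field_simp
  have e2 : y2 = r * x2 := by rw [hr]; field_simp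
  have f1 : x1 = s ^ 2 := by
    have h5 : x1 ^ 2 * (s ^ 2 - x1) = 0 := by
      rw [e1] at h1
      linear_combination h1
    rcases mul_eq_zero.1 h5 with h | h
    · exact absurd h (pow_ne_zero 2 hx1)
    · exact (sub_eq_zero.1 h).symm
  have f2 : x2 = r ^ 2 := by
    have h5 : x2 ^ 2 * (r ^ 2 - x2) = 0 := by
      rw [e2] at h2
      linear_combination h2
    rcases mul_eq_zero.1 h5 with h | h
    · exact absurd h (pow_ne_zero 2 hx2)
    · exact (sub_eq_zero.1 h).symm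
  rw [f1] at e1
  rw [f2] at e2
  rw [e1, e2, f1, f2] at h3 h4
  rw [f1, f2] at h12
  have g1 : s - r ≠ 0 := by
    intro h
    apply h12
    linear_combination (s + r) * h
  have g2 : s + r ≠ 0 := by
    intro h
    apply h12
    linear_combination (s - r) * h
  have k1 : (s + r) ^ 2 * x3 = s ^ 2 * r ^ 2 := by
    apply mul_left_cancel₀ (pow_ne_zero 2 g1)
    linear_combination h3
  have k2 : (s + r) * y3 = s ^ 2 * r ^ 2 - (s ^ 2 + s * r + r ^ 2) * x3 := by
    apply mul_left_cancel₀ g1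
    linear_combination h4
  have k3 : (s + r) ^ 3 * y3 = s ^ 3 * r ^ 3 := by
    linear_combination (s + r) ^ 2 * k2 - (s ^ 2 + s * r + r ^ 2) * k1
  rw [e1, e2, f1, f2]
  apply mul_left_cancel₀ (pow_ne_zero 2 g2)
  linear_combination s ^ 3 * r ^ 3 * k1 - s ^ 2 * r ^ 2 * k3

private lemma cusp_unit {L : Type*} [Field L] (v : Valuation L ℤᵐ⁰) (x : v.valuationSubring) :
    IsLocalRing.residue v.valuationSubring x = 0 ↔ v (x : L) < 1 := by
  have hx : v (x : L) ≤ 1 := (v.mem_valuationSubring_iff _).1 x.2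
  rw [IsLocalRing.residue_eq_zero_iff, IsLocalRing.mem_maximalIdeal, mem_nonunits_iff]
  constructor
  · intro h
    refine lt_of_le_of_ne hx fun h1 => h ?_
    have hx0 : (x : L) ≠ 0 := by
      intro h0
      rw [h0, map_zero] at h1
      exact zero_ne_one h1
    have h2 : (x : L)⁻¹ ∈ v.valuationSubring := by
      rw [v.mem_valuationSubring_iff, map_inv₀, h1, inv_one]
    refine IsUnit.of_mul_eq_one (⟨(x : L)⁻¹, h2⟩ : v.valuationSubring) ?_
    apply Subtype.ext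
    exact mul_inv_cancel₀ hx0
  · intro h h1
    obtain ⟨y, hy⟩ := h1.exists_right_inv
    have h2 : v (x : L) * v (y : L) = 1 := by
      rw [← map_mul, ← map_one v]
      congr 1
      exact congrArg Subtype.val hy
    have hy1 : v (y : L) ≤ 1 := (v.mem_valuationSubring_iff _).1 y.2
    have h3 : v (x : L) * v (y : L) < 1 := by
      calc v (x : L) * v (y : L) ≤ v (x : L) * 1 := by gcongr
        _ = v (x : L) := mul_one _
        _ < 1 := h
    exact absurd h2 h3.ne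

/-- JOB L09 (Cusp). If `v A < 1`, `v B < 1` and all nonzero points of the group reduce to
nonsingular affine points of the cuspidal cubic `y² = x³`, then `x/y` is additive modulo the maximal
ideal.

PROOF. For `P ≠ 0`: `v (X P) = 1`, so `v (Y P)² = v (X³ + A X + B) = 1`, `v (Y P) = 1`, and
`v (zc D P) = 1`. `P = 0` or `Q = 0`: trivial. `Q = -P`: `zc_neg`. Now `P, Q ≠ 0`, `P + Q ≠ 0`.
(a) `P = Q`. Modulo the maximal ideal (write `x, y` for the residues of `X P, Y P`, `x', y'` for those of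
`X (P+P), Y (P+P)`; all are units): `y² = x³` (`D.eqn`), `D.dbl'`: `4 y² x' = x⁴`, i.e. `4 x' = x`, and
`YAdd.dbl`: `2 y (y' + y) = 3 x² (x - x')`; so `4 · 2 y (y' + y) = 3x² · 3x = 9 y²`, `8 y' = y`. Hence
`x'/y' = 2 x/y`.
(b) `P ≠ Q`, so `P ≠ ±Q`, `X P ≠ X Q` (`D.eq_of_X`). First `v (X P - X Q) = 1`: by `D.add` and `D.sub`
`(X P - X Q)² (X (P ± Q) + X P + X Q) = (Y P ∓ Y Q)²`, where `X (P ± Q)` is integral; if
`v (X P - X Q) < 1`, then `v (Y P - Y Q) < 1` and `v (Y P + Y Q) < 1`, so `v (2 Y P) < 1`, a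
contradiction. Now in the residue field (or with congruences): `y₁² = x₁³`, `y₂² = x₂³`,
`(x₁-x₂)² (x₃ + x₁ + x₂) = (y₁-y₂)²`, `(x₁ - x₂)(y₃ + y₁) = (y₁-y₂)(x₁ - x₃)`, with
`x₁, x₂, x₃, y₁, y₂, y₃, x₁ - x₂` all nonzero. Put `t_i = x_i/y_i` (`i = 1, 2`): `x_i = 1/t_i²`,
`y_i = 1/t_i³`, `t₁ ≠ ±t₂`, `(y₁-y₂)/(x₁-x₂) = (t₁²+t₁t₂+t₂²)/(t₁t₂(t₁+t₂))`, hence
`x₃ = 1/(t₁+t₂)²`, `y₃ = 1/(t₁+t₂)³`, `x₃/y₃ = t₁ + t₂`.

HOW. One can map everything to the residue field `k = IsLocalRing.ResidueField v.valuationSubring`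
(the elements `X P, Y P, A, B` are in `v.valuationSubring`; `v x < 1` iff the residue is `0`) and
prove the two identities there as lemmas on a field `k` with `2 ≠ 0`, `3 ≠ 0`. -/
theorem cusp_add {L : Type*} [Field L] {v : Valuation L ℤᵐ⁰} {A B : L} (hv2 : v 2 = 1)
    (hv3 : v 3 = 1) (hA : v A < 1) (hB : v B < 1) {V : Type*} [AddCommGroup V]
    (D : TorsData L A B V) (hY : YAdd D) (hunit : ∀ P : V, P ≠ 0 → v (D.X P) = 1) (P Q : V) :
    v (zc D (P + Q) - zc D P - zc D Q) < 1 := by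
  -- basic facts
  have hYP : ∀ R : V, R ≠ 0 → v (D.Y R) = 1 := by
    intro R hR
    have h1 := D.eqn hR
    have h2 : v (D.X R ^ 3) = 1 := by rw [map_pow, hunit R hR, one_pow]
    have h3 : v (A * D.X R + B) < 1 := by
      refine (v.map_add _ _).trans_lt (max_lt ?_ hB)
      rw [map_mul, hunit R hR, mul_one]
      exact hA
    have h4 : v (D.Y R ^ 2) = 1 := by
      rw [h1, add_assoc, Valuation.map_add_eq_of_lt_left v (by rw [h2]; exact h3), h2]
    rw [map_pow] at h4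
    exact (pow_eq_one_iff_of_nonneg zero_le two_ne_zero).1 h4
  have hzc : ∀ R : V, v (zc D R) ≤ 1 := by
    intro R
    by_cases hR : R = 0
    · rw [hR, zc_zero, map_zero]
      exact zero_le
    · rw [zc_of_ne D hR, map_div₀, hunit R hR, hYP R hR, div_one]
  have h0 : v (0 : L) < 1 := by
    rw [map_zero]
    exact zero_lt_one
  by_cases hP : P = 0
  · rw [hP, zero_add, zc_zero, sub_zero, sub_self]
    exact h0
  by_cases hQ : Q = 0
  · rw [hQ, add_zero, zc_zero, sub_zero, sub_self]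
    exact h0
  by_cases hPQ : P + Q = 0
  · have h1 : Q = -P := by
      rw [eq_neg_iff_add_eq_zero, add_comm]
      exact hPQ
    rw [hPQ, h1, zc_zero, zc_neg, zero_sub, sub_neg_eq_add, neg_add_cancel]
    exact h0
  -- residues
  obtain ⟨ρ, hρ⟩ : ∃ ρ : v.valuationSubring →+* IsLocalRing.ResidueField v.valuationSubring,
      ρ = IsLocalRing.residue v.valuationSubring := ⟨_, rfl⟩
  have hρ0 : ∀ x : v.valuationSubring, ρ x = 0 ↔ v (x : L) < 1 := by
    intro x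
    rw [hρ]
    exact cusp_unit v x
  have hρ1 : ∀ x : v.valuationSubring, v (x : L) = 1 → ρ x ≠ 0 := by
    intro x hx h
    exact absurd hx ((hρ0 x).1 h).ne
  have hmem : ∀ x : L, v x ≤ 1 → x ∈ v.valuationSubring := fun x hx =>
    (v.mem_valuationSubring_iff _).2 hx
  obtain ⟨a, ha⟩ : ∃ a : v.valuationSubring, (a : L) = A := ⟨⟨A, hmem A hA.le⟩, rfl⟩
  obtain ⟨b, hb⟩ : ∃ b : v.valuationSubring, (b : L) = B := ⟨⟨B, hmem B hB.le⟩, rfl⟩
  obtain ⟨x1, hx1⟩ : ∃ x : v.valuationSubring, (x : L) = D.X P := ⟨⟨_, hmem _ (hunit P hP).le⟩, rfl⟩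
  obtain ⟨x2, hx2⟩ : ∃ x : v.valuationSubring, (x : L) = D.X Q := ⟨⟨_, hmem _ (hunit Q hQ).le⟩, rfl⟩
  obtain ⟨x3, hx3⟩ : ∃ x : v.valuationSubring, (x : L) = D.X (P + Q) :=
    ⟨⟨_, hmem _ (hunit _ hPQ).le⟩, rfl⟩
  obtain ⟨y1, hy1⟩ : ∃ x : v.valuationSubring, (x : L) = D.Y P := ⟨⟨_, hmem _ (hYP P hP).le⟩, rfl⟩
  obtain ⟨y2, hy2⟩ : ∃ x : v.valuationSubring, (x : L) = D.Y Q := ⟨⟨_, hmem _ (hYP Q hQ).le⟩, rfl⟩
  obtain ⟨y3, hy3⟩ : ∃ x : v.valuationSubring, (x : L) = D.Y (P + Q) :=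
    ⟨⟨_, hmem _ (hYP _ hPQ).le⟩, rfl⟩
  have ra : ρ a = 0 := (hρ0 a).2 (by rw [ha]; exact hA)
  have rb : ρ b = 0 := (hρ0 b).2 (by rw [hb]; exact hB)
  have rx1 : ρ x1 ≠ 0 := hρ1 x1 (by rw [hx1]; exact hunit P hP)
  have rx2 : ρ x2 ≠ 0 := hρ1 x2 (by rw [hx2]; exact hunit Q hQ)
  have ry1 : ρ y1 ≠ 0 := hρ1 y1 (by rw [hy1]; exact hYP P hP)
  have ry2 : ρ y2 ≠ 0 := hρ1 y2 (by rw [hy2]; exact hYP Q hQ)
  have ry3 : ρ y3 ≠ 0 := hρ1 y3 (by rw [hy3]; exact hYP _ hPQ)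
  have r2 : ρ 2 ≠ 0 := hρ1 2 (by
    have : ((2 : v.valuationSubring) : L) = 2 := rfl
    rw [this]
    exact hv2)
  -- the equations of the curve
  have c1 : ρ y1 ^ 2 = ρ x1 ^ 3 := by
    have h1 : y1 ^ 2 = x1 ^ 3 + a * x1 + b := by
      apply Subtype.ext
      push_cast
      rw [hx1, hy1, ha, hb]
      exact D.eqn hP
    have h2 := congrArg ρ h1
    rw [map_pow, map_add, map_add, map_mul, map_pow, ra, rb, zero_mul, add_zero, add_zero] at h2
    exact h2
  have c2 : ρ y2 ^ 2 = ρ x2 ^ 3 := by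
    have h1 : y2 ^ 2 = x2 ^ 3 + a * x2 + b := by
      apply Subtype.ext
      push_cast
      rw [hx2, hy2, ha, hb]
      exact D.eqn hQ
    have h2 := congrArg ρ h1
    rw [map_pow, map_add, map_add, map_mul, map_pow, ra, rb, zero_mul, add_zero, add_zero] at h2
    exact h2
  -- it is enough to prove the identity of the residues
  have hfin : ρ x3 * (ρ y1 * ρ y2) = ρ y3 * (ρ x1 * ρ y2 + ρ x2 * ρ y1) →
      v (zc D (P + Q) - zc D P - zc D Q) < 1 := by
    intro h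
    rw [zc_of_ne D hPQ, zc_of_ne D hP, zc_of_ne D hQ, ← hx1, ← hx2, ← hx3, ← hy1, ← hy2, ← hy3]
    have n1 : (y1 : L) ≠ 0 := by
      intro h'
      have h'' := hYP P hP
      rw [← hy1, h', map_zero] at h''
      exact zero_ne_one h''
    have n2 : (y2 : L) ≠ 0 := by
      intro h'
      have h'' := hYP Q hQ
      rw [← hy2, h', map_zero] at h''
      exact zero_ne_one h''
    have n3 : (y3 : L) ≠ 0 := by
      intro h'
      have h'' := hYP _ hPQ
      rw [← hy3, h', map_zero] at h''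
      exact zero_ne_one h''
    have e1 : (x3 : L) / y3 - x1 / y1 - x2 / y2 =
        ((x3 * (y1 * y2) - y3 * (x1 * y2 + x2 * y1) : v.valuationSubring) : L) /
          (y1 * y2 * y3) := by
      push_cast
      field_simp
      ring
    rw [e1, map_div₀, map_mul, map_mul, hy1, hy2, hy3, hYP P hP, hYP Q hQ, hYP _ hPQ, mul_one,
      mul_one, div_one, ← hρ0, map_sub, map_mul, map_mul, map_mul, map_add, map_mul, map_mul, h,
      sub_self]
  by_cases hPQ' : P = Q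
  · subst hPQ'
    have hxe : x2 = x1 := Subtype.ext (by rw [hx1, hx2])
    have hye : y2 = y1 := Subtype.ext (by rw [hy1, hy2])
    have d1 : 4 * (x1 ^ 3 + a * x1 + b) * x3 = x1 ^ 4 - 2 * a * x1 ^ 2 - 8 * b * x1 + a ^ 2 := by
      apply Subtype.ext
      push_cast
      rw [hx1, hx3, ha, hb]
      exact D.dbl' hP hPQ
    have d2 : 2 * y1 * (y3 + y1) = (3 * x1 ^ 2 + a) * (x1 - x3) := by
      apply Subtype.ext
      push_cast
      rw [hx1, hx3, hy1, hy3, ha]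
      exact hY.dbl hP hPQ
    have d3 := congrArg ρ d1
    have d4 := congrArg ρ d2
    simp only [map_mul, map_add, map_sub, map_pow, ra, rb, map_ofNat, mul_zero, zero_mul, add_zero,
      sub_zero, ne_eq, OfNat.ofNat_ne_zero, not_false_eq_true, zero_pow] at d3 d4
    have d5 := cusp_k_dbl rx1 ry1 c1 d3 d4
    apply hfin
    rw [hxe, hye]
    linear_combination ρ y1 * d5
  · have hX : D.X P ≠ D.X Q := by
      intro h
      rcases D.eq_of_X hP hQ h with h1 | h1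
      · exact hPQ' h1
      · apply hPQ
        rw [h1, neg_add_cancel]
    have hPmQ : P - Q ≠ 0 := sub_ne_zero.2 hPQ'
    obtain ⟨x4, hx4⟩ : ∃ x : v.valuationSubring, (x : L) = D.X (P - Q) :=
      ⟨⟨_, hmem _ (hunit _ hPmQ).le⟩, rfl⟩
    have s1 : (x1 - x2) ^ 2 * (x3 + x1 + x2) = (y1 - y2) ^ 2 := by
      apply Subtype.ext
      push_cast
      rw [hx1, hx2, hx3, hy1, hy2]
      exact D.add hP hQ hX
    have s2 : (x1 - x2) ^ 2 * (x4 + x1 + x2) = (y1 + y2) ^ 2 := by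
      apply Subtype.ext
      push_cast
      rw [hx1, hx2, hx4, hy1, hy2]
      exact D.sub hP hQ hX
    have s3 : (x1 - x2) * (y3 + y1) = (y1 - y2) * (x1 - x3) := by
      apply Subtype.ext
      push_cast
      rw [hx1, hx2, hx3, hy1, hy2, hy3]
      exact hY.add hP hQ hX
    have t1 := congrArg ρ s1
    have t2 := congrArg ρ s2
    have t3 := congrArg ρ s3
    simp only [map_mul, map_add, map_sub, map_pow] at t1 t2 t3
    have h12 : ρ x1 - ρ x2 ≠ 0 := by
      intro h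
      rw [h, zero_pow two_ne_zero, zero_mul] at t1 t2
      have u1 := pow_eq_zero_iff (two_ne_zero) |>.1 t1.symm
      have u2 := pow_eq_zero_iff (two_ne_zero) |>.1 t2.symm
      have u3 : ρ 2 * ρ y1 = 0 := by
        rw [map_ofNat]
        linear_combination u1 + u2
      rcases mul_eq_zero.1 u3 with h' | h'
      · exact r2 h'
      · exact ry1 h'
    exact hfin (cusp_k_add rx1 rx2 ry1 ry2 h12 c1 c2 t1 t3)

end Pool.Agent.Lib.FL60
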