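import Mathlib

set_option autoImplicit false
set_option linter.unusedVariables false

namespace Pool.Agent.Lib.FL60

/-- JOB L05 (Euclid), first part. A function `β` on a finite abelian group which behaves like the
distance to `2eℤ`.

PROOF. Let `m > 0` be the smallest nonzero value, `β P₁ = m` (`V` is finite).
(1) For every `P` there is `n : ℤ` with `P + n • P₁ ∈ C`, and `m ∣ β P`: strong induction on `β P`. If
`β P < m`, then `β P = 0`. If `β P ≥ m`, then by `hstar P P₁` one of `P + P₁`, `P - P₁` has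
`β = |β P - m| = β P - m`; apply the induction hypothesis to it.
(2) `m ∣ 2e`: first `β (n • P₁) = n m` for all `n : ℕ` with `n m ≤ e`, by induction: `hstar (n • P₁) P₁`
says that `{β ((n+1) • P₁), β ((n-1) • P₁)}` is `{(n-1) m, min ((n+1)m) (2e - (n+1)m)}`, the minimum is
`(n+1) m` as `(n+1) m ≤ e`, and `β ((n-1) • P₁) = (n-1) m`. Let `n = e / m ≥ 1`, so
`n m ≤ e < (n+1) m`. `hstar (n • P₁) P₁`: the pair is `{(n-1) m, 2e - (n+1)m}`, and
`β ((n-1) • P₁) = (n-1) m`; in both cases `β ((n+1) • P₁) = 2e - (n+1) m`, which is divisible by `m` by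
(1). So `m ∣ 2e`; `N := 2e/m`, `0 < N`.
(3) `β (n • P₁) = min (n m) ((N-n) m)` for `0 ≤ n ≤ N`, by (two-step) induction with
`hstar (n • P₁) P₁`: with `f n = min (n m) ((N - n) m)` one has
`{|f n - m|, min (f n + m) (2e - (f n + m))} = {f (n-1), f (n+1)}` for `0 < n < N`, and
`β ((n-1) • P₁) = f (n-1)`, so `β ((n+1) • P₁) = f (n+1)` in both cases.
So `n • P₁ ∉ C` for `0 < n < N` and `N • P₁ ∈ C`; if `j • P₁ ∈ C`, then `(j % N) • P₁ ∈ C`, so
`N ∣ j`.
(4) `Nat.card V ≤ N * Nat.card C`: by (1) and `N • P₁ ∈ C` the map `Fin N × C → V`,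
`(n, c) ↦ c - n • P₁` is surjective. -/
theorem euclid {V : Type*} [AddCommGroup V] [Finite V] {e : ℕ} (he : 0 < e) (β : V → ℤ)
    (h0 : β 0 = 0) (hnn : ∀ P, 0 ≤ β P) (hle : ∀ P, β P ≤ e)
    (hstar : ∀ P Q, (β (P + Q) = |β P - β Q| ∧
        β (P - Q) = min (β P + β Q) (2 * e - (β P + β Q))) ∨
      (β (P - Q) = |β P - β Q| ∧ β (P + Q) = min (β P + β Q) (2 * e - (β P + β Q))))
    (C : AddSubgroup V) (hC : ∀ P, P ∈ C ↔ β P = 0) (hne : ∃ P, β P ≠ 0) :
    ∃ (P₁ : V) (N : ℕ), β P₁ * N = 2 * e ∧ 0 < N ∧ Nat.card V ≤ N * Nat.card C ∧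
      ∀ j : ℕ, j • P₁ ∈ C → N ∣ j := by
  classical
  obtain ⟨P₁, hP₁, hmin⟩ : ∃ P₁ : V, β P₁ ≠ 0 ∧ ∀ P, β P ≠ 0 → β P₁ ≤ β P := by
    obtain ⟨P₁, h1, h2⟩ := Set.exists_min_image {P : V | β P ≠ 0} β (Set.toFinite _) hne
    exact ⟨P₁, h1, fun P hP => h2 P hP⟩
  have hs : ∀ P Q, (β (P + Q) = max (β P - β Q) (-(β P - β Q)) ∧
        β (P - Q) = min (β P + β Q) (2 * e - (β P + β Q))) ∨
      (β (P - Q) = max (β P - β Q) (-(β P - β Q)) ∧
        β (P + Q) = min (β P + β Q) (2 * e - (β P + β Q))) := by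
    intro P Q
    have h := hstar P Q
    rwa [abs_eq_max_neg] at h
  obtain ⟨m, hm⟩ : ∃ m : ℤ, β P₁ = m := ⟨_, rfl⟩
  have hm0 : 0 < m := by
    have h1 := hnn P₁
    omega
  have hme : m ≤ e := by
    have h1 := hle P₁
    omega
  -- step 1
  have step1 : ∀ (b : ℕ) (P : V), β P = b → (∃ n : ℤ, P + n • P₁ ∈ C) ∧ m ∣ β P := by
    intro b
    induction b using Nat.strong_induction_on with
    | _ b ih =>
      intro P hP
      by_cases h1 : β P < m
      · have h2 : β P = 0 := by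
          by_contra h3
          have h4 := hmin P h3
          omega
        refine ⟨⟨0, ?_⟩, ?_⟩
        · rw [zero_smul, add_zero, hC]
          exact h2
        · rw [h2]
          exact dvd_zero m
      · rw [not_lt] at h1
        have key : β (P + P₁) = β P - m ∨ β (P - P₁) = β P - m := by
          have h2 := hs P P₁
          rw [hm] at h2
          omega
        have hb : (b : ℤ) - m = ((b - m.toNat : ℕ) : ℤ) := by omega
        have hlt : b - m.toNat < b := by omega
        rcases key with h2 | h2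
        · obtain ⟨⟨n, hn⟩, hd⟩ := ih (b - m.toNat) hlt (P + P₁) (by rw [h2, hP, hb])
          refine ⟨⟨n + 1, ?_⟩, ?_⟩
          · rw [add_smul, one_smul, add_comm (n • P₁) P₁, ← add_assoc]
            exact hn
          · rw [h2] at hd
            have h3 := dvd_add hd (dvd_refl m)
            rwa [sub_add_cancel] at h3
        · obtain ⟨⟨n, hn⟩, hd⟩ := ih (b - m.toNat) hlt (P - P₁) (by rw [h2, hP, hb])
          refine ⟨⟨n - 1, ?_⟩, ?_⟩
          · have h3 : P + (n - 1) • P₁ = P - P₁ + n • P₁ := by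
              rw [sub_smul, one_smul]
              abel
            rw [h3]
            exact hn
          · rw [h2] at hd
            have h3 := dvd_add hd (dvd_refl m)
            rwa [sub_add_cancel] at h3
  have step1' : ∀ P : V, (∃ n : ℤ, P + n • P₁ ∈ C) ∧ m ∣ β P := by
    intro P
    refine step1 (β P).toNat P ?_
    have h1 := hnn P
    omega
  -- the two-step relation
  have hrel : ∀ n : ℕ, (β ((n + 2) • P₁) = max (β ((n + 1) • P₁) - m) (-(β ((n + 1) • P₁) - m)) ∧
        β (n • P₁) = min (β ((n + 1) • P₁) + m) (2 * e - (β ((n + 1) • P₁) + m))) ∨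
      (β (n • P₁) = max (β ((n + 1) • P₁) - m) (-(β ((n + 1) • P₁) - m)) ∧
        β ((n + 2) • P₁) = min (β ((n + 1) • P₁) + m) (2 * e - (β ((n + 1) • P₁) + m))) := by
    intro n
    have h := hs ((n + 1) • P₁) P₁
    have e1 : (n + 1) • P₁ + P₁ = (n + 2) • P₁ := by
      rw [← succ_nsmul]
    have e2 : (n + 1) • P₁ - P₁ = n • P₁ := by
      rw [succ_nsmul, add_sub_cancel_right]
    rw [e1, e2, hm] at h
    exact h
  -- step 2
  have step2 : ∀ n : ℕ, ((n : ℤ) + 1) * m ≤ e →
      β (n • P₁) = n * m ∧ β ((n + 1) • P₁) = (n + 1) * m := by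
    intro n
    induction n with
    | zero =>
      intro _
      refine ⟨?_, ?_⟩
      · rw [zero_smul, h0]
        simp
      · rw [zero_add, one_smul, hm]
        simp
    | succ n ih =>
      intro h1
      push_cast at h1 ⊢
      obtain ⟨x, hx⟩ : ∃ x : ℤ, (n : ℤ) * m = x := ⟨_, rfl⟩
      have e1 : ((n : ℤ) + 1) * m = x + m := by rw [← hx]; ring
      have e2 : ((n : ℤ) + 1 + 1) * m = x + m + m := by rw [← hx]; ring
      have hx0 : 0 ≤ x := by rw [← hx]; positivity
      rw [e2] at h1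
      rw [e1, e2]
      obtain ⟨h2, h3⟩ := ih (by rw [e1]; omega)
      rw [hx] at h2
      rw [e1] at h3
      have h4 := hrel n
      rw [h2, h3] at h4
      refine ⟨h3, ?_⟩
      have e3 : n + 1 + 1 = n + 2 := rfl
      rw [e3]
      omega
  have hdvd : m ∣ 2 * (e : ℤ) := by
    obtain ⟨k, hk⟩ : ∃ k : ℕ, ((e : ℤ) / m) = (k : ℤ) + 1 := by
      have h1 : 1 ≤ (e : ℤ) / m := Int.le_ediv_of_mul_le hm0 (by rwa [one_mul])
      refine ⟨((e : ℤ) / m - 1).toNat, ?_⟩
      omega
    have h2 : ((k : ℤ) + 1) * m ≤ e := by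
      rw [← hk]
      exact Int.ediv_mul_le _ hm0.ne'
    have h3 : (e : ℤ) < ((k : ℤ) + 1 + 1) * m := by
      rw [← hk]
      exact Int.lt_ediv_add_one_mul_self _ hm0
    obtain ⟨h4, h5⟩ := step2 k h2
    have h6 := hrel k
    obtain ⟨x, hx⟩ : ∃ x : ℤ, (k : ℤ) * m = x := ⟨_, rfl⟩
    have e1 : ((k : ℤ) + 1) * m = x + m := by rw [← hx]; ring
    have e2 : ((k : ℤ) + 1 + 1) * m = x + m + m := by rw [← hx]; ring
    have hx0 : 0 ≤ x := by rw [← hx]; positivity
    rw [e1] at h2 h5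
    rw [e2] at h3
    rw [hx] at h4
    rw [h4, h5] at h6
    have h7 : β ((k + 2) • P₁) = 2 * e - (x + m + m) := by omega
    have h8 := (step1' ((k + 2) • P₁)).2
    rw [h7, ← e2] at h8
    exact (dvd_sub_left (dvd_mul_left m _)).1 h8
  obtain ⟨M, hM⟩ := hdvd
  have hM0 : 0 < M := by
    by_contra h1
    rw [not_lt] at h1
    have h2 : m * M ≤ 0 := mul_nonpos_of_nonneg_of_nonpos hm0.le h1
    omega
  obtain ⟨N, rfl⟩ : ∃ N : ℕ, M = N := ⟨M.toNat, by omega⟩
  have hN0 : 0 < N := by omega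
  -- step 3
  have step3 : ∀ n : ℕ, n + 1 ≤ N →
      β (n • P₁) = min (n * m) (2 * e - n * m) ∧
        β ((n + 1) • P₁) = min ((n + 1) * m) (2 * e - (n + 1) * m) := by
    intro n
    induction n with
    | zero =>
      intro _
      refine ⟨?_, ?_⟩
      · rw [zero_smul, h0]
        simp
      · rw [zero_add, one_smul, hm]
        simp only [Nat.cast_zero, zero_add, one_mul]
        omega
    | succ n ih =>
      intro h1
      push_cast
      obtain ⟨x, hx⟩ : ∃ x : ℤ, (n : ℤ) * m = x := ⟨_, rfl⟩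
      have e1 : ((n : ℤ) + 1) * m = x + m := by rw [← hx]; ring
      have e2 : ((n : ℤ) + 1 + 1) * m = x + m + m := by rw [← hx]; ring
      have hx0 : 0 ≤ x := by rw [← hx]; positivity
      have hx1 : x + m + m ≤ 2 * e := by
        rw [← e2, hM, mul_comm]
        refine mul_le_mul_of_nonneg_left ?_ hm0.le
        omega
      rw [e1, e2]
      obtain ⟨h2, h3⟩ := ih (by omega)
      rw [hx] at h2
      rw [e1] at h3
      have h4 := hrel n
      rw [h2, h3] at h4
      refine ⟨h3, ?_⟩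
      have e3 : n + 1 + 1 = n + 2 := rfl
      rw [e3]
      omega
  have hNC : N • P₁ ∈ C := by
    rw [hC]
    obtain ⟨k, rfl⟩ : ∃ k, N = k + 1 := ⟨N - 1, by omega⟩
    rw [(step3 k le_rfl).2]
    push_cast at hM
    rw [mul_comm, ← hM]
    omega
  have hNC' : ∀ i : ℤ, (i * N) • P₁ ∈ C := by
    intro i
    rw [mul_smul, natCast_zsmul]
    exact C.zsmul_mem hNC i
  refine ⟨P₁, N, ?_, hN0, ?_, ?_⟩
  · rw [hm, hM]
  · have hsurj : Function.Surjective (fun q : Fin N × C => (q.2 : V) - (q.1 : ℕ) • P₁) := by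
      intro P
      obtain ⟨n, hn⟩ := (step1' P).1
      have hN' : (0 : ℤ) < N := by omega
      have h1 : P + (n % N) • P₁ ∈ C := by
        have h2 : P + (n % N) • P₁ = P + n • P₁ - (n / N * N) • P₁ := by
          have h3 : n % N = n - n / N * N := by
            have h4 := Int.emod_add_mul_ediv n N
            rw [mul_comm] at h4
            omega
          rw [h3, sub_smul]
          abel
        rw [h2]
        exact C.sub_mem hn (hNC' _)
      have h5 := Int.emod_nonneg n hN'.ne'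
      have h6 := Int.emod_lt_of_pos n hN'
      obtain ⟨r, hr⟩ : ∃ r : ℕ, n % N = (r : ℤ) := ⟨(n % N).toNat, by omega⟩
      rw [hr, natCast_zsmul] at h1
      refine ⟨(⟨r, by omega⟩, ⟨P + r • P₁, h1⟩), ?_⟩
      simp only [add_sub_cancel_right]
    have h1 := Nat.card_le_card_of_surjective _ hsurj
    rwa [Nat.card_prod, Nat.card_eq_fintype_card (α := Fin N), Fintype.card_fin] at h1
  · intro j hj
    have h1 : (j % N) • P₁ ∈ C := by
      have h2 : (j % N) • P₁ = j • P₁ - ((j / N : ℕ) : ℤ) • (N • P₁) := by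
        have h3 := Nat.mod_add_div j N
        have h4 : j • P₁ = (j % N) • P₁ + (N * (j / N)) • P₁ := by
          rw [← add_nsmul, h3]
        rw [natCast_zsmul, ← mul_nsmul, h4, add_sub_cancel_right]
      rw [h2]
      exact C.sub_mem hj (C.zsmul_mem hNC _)
    rw [hC] at h1
    have h4 := Nat.mod_lt j hN0
    by_contra h5
    have h6 : 0 < j % N := by
      rw [Nat.pos_iff_ne_zero]
      intro h7
      exact h5 (Nat.dvd_of_mod_eq_zero h7)
    obtain ⟨r, hr⟩ : ∃ r, j % N = r := ⟨_, rfl⟩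
    rw [hr] at h1 h4 h6
    rw [(step3 r h4).1] at h1
    have h8 : (0 : ℤ) < r * m := by positivity
    have h9 : (r : ℤ) * m < 2 * e := by
      rw [hM, mul_comm]
      refine mul_lt_mul_of_pos_left ?_ hm0
      omega
    omega

end Pool.Agent.Lib.FL60
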