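import Pool.Agent.Lib.FM60.Act
import Pool.Agent.Lib.FMK60.ActK

set_option autoImplicit false
set_option linter.unusedSectionVars false

namespace Pool.Agent.Lib.FL60

open WithZero Pool.Agent.Lib.FM60 Pool.Agent.Lib.FMK60

/-- The addition formulas for the ordinates. -/
structure YAdd {L : Type*} [Field L] {A B : L} {V : Type*} [AddCommGroup V]
    (D : TorsData L A B V) : Prop where
  add : ∀ {P Q : V}, P ≠ 0 → Q ≠ 0 → D.X P ≠ D.X Q →
    (D.X P - D.X Q) * (D.Y (P + Q) + D.Y P) = (D.Y P - D.Y Q) * (D.X P - D.X (P + Q))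
  dbl : ∀ {P : V}, P ≠ 0 → P + P ≠ 0 →
    2 * D.Y P * (D.Y (P + P) + D.Y P) = (3 * D.X P ^ 2 + A) * (D.X P - D.X (P + P))

/-- Restriction to a subgroup. -/
def res {L : Type*} [Field L] {A B : L} {V : Type*} [AddCommGroup V] (D : TorsData L A B V)
    (H : AddSubgroup V) : TorsData L A B H where
  X P := D.X P
  Y P := D.Y P
  eqn := fun {P} hP => D.eqn (fun h => hP (Subtype.ext h))
  X_neg P := D.X_neg P
  Y_neg P := D.Y_neg P
  eq_of_X := fun {P Q} hP hQ h => by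
    rcases D.eq_of_X (fun h => hP (Subtype.ext h)) (fun h => hQ (Subtype.ext h)) h with h1 | h1
    · exact Or.inl (Subtype.ext h1)
    · exact Or.inr (Subtype.ext h1)
  sub := fun {P Q} hP hQ h => D.sub (fun h => hP (Subtype.ext h)) (fun h => hQ (Subtype.ext h)) h
  dbl := fun {P} hP hPP => D.dbl (fun h => hP (Subtype.ext h)) (fun h => hPP (Subtype.ext h))

lemma YAdd.res {L : Type*} [Field L] {A B : L} {V : Type*} [AddCommGroup V]
    {D : TorsData L A B V} (h : YAdd D) (H : AddSubgroup V) : YAdd (res D H) where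
  add := fun {P Q} hP hQ hne =>
    h.add (fun h => hP (Subtype.ext h)) (fun h => hQ (Subtype.ext h)) hne
  dbl := fun {P} hP hPP => h.dbl (fun h => hP (Subtype.ext h)) (fun h => hPP (Subtype.ext h))

/-- The curve `y² = x³ + u⁴Ax + u⁶B`: abscissas are multiplied by `u²`, ordinates by `u³`. -/
def scl {L : Type*} [Field L] {A B : L} {V : Type*} [AddCommGroup V] (D : TorsData L A B V)
    {u : L} (hu : u ≠ 0) : TorsData L (u ^ 4 * A) (u ^ 6 * B) V where
  X P := u ^ 2 * D.X P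
  Y P := u ^ 3 * D.Y P
  eqn := fun {P} hP => by
    have h := D.eqn hP
    linear_combination u ^ 6 * h
  X_neg P := by rw [D.X_neg]
  Y_neg P := by rw [D.Y_neg]; ring
  eq_of_X := fun {P Q} hP hQ h => D.eq_of_X hP hQ (mul_left_cancel₀ (pow_ne_zero 2 hu) h)
  sub := fun {P Q} hP hQ h => by
    have h1 := D.sub hP hQ (fun h0 => h (by rw [h0]))
    linear_combination u ^ 6 * h1
  dbl := fun {P} hP hPP => by
    have h1 := D.dbl hP hPP
    linear_combination u ^ 8 * h1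

lemma YAdd.scl {L : Type*} [Field L] {A B : L} {V : Type*} [AddCommGroup V]
    {D : TorsData L A B V} (h : YAdd D) {u : L} (hu : u ≠ 0) : YAdd (scl D hu) where
  add := fun {P Q} hP hQ hne => by
    have h1 := h.add hP hQ (fun h0 => hne (by
      change u ^ 2 * D.X P = u ^ 2 * D.X Q
      rw [h0]))
    change (u ^ 2 * D.X P - u ^ 2 * D.X Q) * (u ^ 3 * D.Y (P + Q) + u ^ 3 * D.Y P) =
      (u ^ 3 * D.Y P - u ^ 3 * D.Y Q) * (u ^ 2 * D.X P - u ^ 2 * D.X (P + Q))
    linear_combination u ^ 5 * h1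
  dbl := fun {P} hP hPP => by
    have h1 := h.dbl hP hPP
    change 2 * (u ^ 3 * D.Y P) * (u ^ 3 * D.Y (P + P) + u ^ 3 * D.Y P) =
      (3 * (u ^ 2 * D.X P) ^ 2 + u ^ 4 * A) * (u ^ 2 * D.X P - u ^ 2 * D.X (P + P))
    linear_combination u ^ 6 * h1

open Classical in
/-- The parameter `x/y` at infinity (`0` at the origin). -/
noncomputable def zc {L : Type*} [Field L] {A B : L} {V : Type*} [AddCommGroup V]
    (D : TorsData L A B V) (P : V) : L := if P = 0 then 0 else D.X P / D.Y P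

@[simp] lemma zc_zero {L : Type*} [Field L] {A B : L} {V : Type*} [AddCommGroup V]
    (D : TorsData L A B V) : zc D 0 = 0 := by simp [zc]

lemma zc_of_ne {L : Type*} [Field L] {A B : L} {V : Type*} [AddCommGroup V]
    (D : TorsData L A B V) {P : V} (h : P ≠ 0) : zc D P = D.X P / D.Y P := by simp [zc, h]

lemma zc_neg {L : Type*} [Field L] {A B : L} {V : Type*} [AddCommGroup V]
    (D : TorsData L A B V) (P : V) : zc D (-P) = -zc D P := by
  by_cases h : P = 0
  · simp [h]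
  · rw [zc_of_ne D h, zc_of_ne D (neg_ne_zero.mpr h), D.X_neg, D.Y_neg, div_neg]

lemma zc_act {F L : Type*} [Field F] [Field L] [Algebra F L] {A B : L} {V : Type*}
    [AddCommGroup V] {D : TorsData L A B V} {ρ : (L ≃ₐ[F] L) → V ≃+ V} (hρ : PreActK D ρ)
    (σ : L ≃ₐ[F] L) (P : V) : zc D (ρ σ P) = σ (zc D P) := by
  by_cases h : P = 0
  · simp [h]
  · rw [zc_of_ne D h, zc_of_ne D (by simpa using h), map_div₀, hρ.X, hρ.Y]

lemma zc_scl {L : Type*} [Field L] {A B : L} {V : Type*} [AddCommGroup V]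
    (D : TorsData L A B V) {u : L} (hu : u ≠ 0) (P : V) : zc (scl D hu) P = u⁻¹ * zc D P := by
  by_cases h : P = 0
  · simp [h]
  · rw [zc_of_ne D h, zc_of_ne _ h]
    change u ^ 2 * D.X P / (u ^ 3 * D.Y P) = _
    by_cases hY : D.Y P = 0
    · simp [hY]
    · field_simp

lemma zc_res {L : Type*} [Field L] {A B : L} {V : Type*} [AddCommGroup V]
    (D : TorsData L A B V) (H : AddSubgroup V) (P : H) : zc (res D H) P = zc D (P : V) := by
  by_cases h : P = 0
  · simp [h]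
  · rw [zc_of_ne _ h, zc_of_ne D (fun h0 => h (Subtype.ext h0))]
    rfl

/-- Twice the height of a point above the node, truncated: `min (2 w) e`, where `y = exp (-w)`. -/
noncomputable def bet (e : ℕ) (y : ℤᵐ⁰) : ℤ := -log (max (y ^ 2) (exp (-(e : ℤ))))

lemma bet_exp {e i : ℕ} (h : 2 * i ≤ e) : bet e (exp (-(i : ℤ))) = 2 * i := by
  have h1 : (exp (-(i : ℤ)) : ℤᵐ⁰) ^ 2 = exp (-(2 * i : ℤ)) := by
    rw [← exp_nsmul]; congr 1; simp
  rw [bet, h1, max_eq_left, log_exp]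
  · ring
  · rw [exp_le_exp]; omega

lemma bet_of_sq_le {e : ℕ} {y : ℤᵐ⁰} (h : y ^ 2 ≤ exp (-(e : ℤ))) : bet e y = e := by
  rw [bet, max_eq_right h, log_exp, neg_neg]

lemma bet_one {e : ℕ} : bet e 1 = 0 := by
  have := bet_exp (e := e) (i := 0) (by omega)
  simpa using this

/-- The two possibilities for an integral element. -/
lemma bet_cases {e : ℕ} {y : ℤᵐ⁰} (h : y ≤ 1) :
    (∃ i : ℕ, y = exp (-(i : ℤ)) ∧ 2 * i < e ∧ bet e y = 2 * i) ∨
      (y ^ 2 ≤ exp (-(e : ℤ)) ∧ bet e y = e) := by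
  by_cases h1 : y ^ 2 ≤ exp (-(e : ℤ))
  · exact Or.inr ⟨h1, bet_of_sq_le h1⟩
  · left
    rw [not_le] at h1
    have hy : y ≠ 0 := by
      rintro rfl
      simp at h1
    obtain ⟨m, hm⟩ : ∃ m : ℤ, y = exp m := ⟨log y, (exp_log hy).symm⟩
    have hm0 : m ≤ 0 := by
      rw [hm, ← exp_zero, exp_le_exp] at h; exact h
    have h2 : -(e : ℤ) < 2 * m := by
      rw [hm, ← exp_nsmul, exp_lt_exp] at h1
      simpa using h1
    obtain ⟨i, hi⟩ := Int.eq_ofNat_of_zero_le (show 0 ≤ -m by omega)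
    have hm' : m = -(i : ℤ) := by omega
    refine ⟨i, by rw [hm, hm'], by omega, ?_⟩
    rw [hm, hm']
    exact bet_exp (by omega)

lemma bet_nonneg {e : ℕ} {y : ℤᵐ⁰} (h : y ≤ 1) : 0 ≤ bet e y := by
  rcases bet_cases (e := e) h with ⟨i, -, -, hi⟩ | ⟨-, hi⟩ <;> rw [hi] <;> positivity

lemma bet_le {e : ℕ} {y : ℤᵐ⁰} (h : y ≤ 1) : bet e y ≤ e := by
  rcases bet_cases (e := e) h with ⟨i, -, h1, hi⟩ | ⟨-, hi⟩ <;> rw [hi] <;> omega

lemma bet_eq_zero_iff {e : ℕ} (he : 0 < e) {y : ℤᵐ⁰} (h : y ≤ 1) : bet e y = 0 ↔ y = 1 := by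
  constructor
  · intro h0
    rcases bet_cases (e := e) h with ⟨i, h2, h1, hi⟩ | ⟨-, hi⟩
    · have : i = 0 := by omega
      rw [h2, this]; simp
    · omega
  · rintro rfl
    exact bet_one

end Pool.Agent.Lib.FL60
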