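import Pool.Agent.Lib.FMK60.LinkGenK
import Pool.Agent.Lib.MP_4a0cc8_ntL.Defs

set_option autoImplicit false
set_option linter.unusedSectionVars false
set_option linter.unusedVariables false

namespace Pool.Agent.Lib.FL60

open Polynomial WeierstrassCurve Pool.Agent.Lib.EC60 WithZero NumberField Pool.Agent.Lib.FM60
open Pool.Agent.Lib.FMK60 IsDedekindDomain

variable {K : Type*} [Field K] [NumberField K]
variable {Ω : Type*} [Field Ω] [DecidableEq Ω] [CharZero Ω] [Algebra K Ω] [IsAlgClosed Ω]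

/-- JOB L13 (Faith), first part. An automorphism of the `n`-division field acting trivially on the
`n`-torsion is trivial.

PROOF. This is `hfaith` in the proof of `link_genK` (Lib/FMK60/LinkGenK.lean) with one curve:
`σ.liftNormal Ω` acts trivially on the `n`-torsion, `fixes_divField`. -/
theorem faith [IsGalois K Ω] {A B : 𝓞 K} {n : ℕ} (L : IntermediateField K Ω) [IsGalois K L]
    (hL : L ≤ divField Ω (curK A B) n)
    (ρ : (L ≃ₐ[K] L) → Vp Ω A B n ≃+ Vp Ω A B n)
    (hρ : ∀ (τ : Ω ≃ₐ[K] Ω) (σ : L ≃ₐ[K] L), (∀ x : L, τ (x : Ω) = (σ x : Ω)) →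
        ∀ P : Vp Ω A B n, (ρ σ P).1 = act τ P.1)
    (σ : L ≃ₐ[K] L) (hσ : ∀ P, ρ σ P = P) : σ = 1 := by
  have hτ : ∀ x : L, (σ.liftNormal Ω : Ω ≃ₐ[K] Ω) (x : Ω) = (σ x : Ω) :=
    fun x => σ.liftNormal_commutes Ω x
  have e1 := fixes_divField (W := curK A B) (p := n) (σ.liftNormal Ω : Ω ≃ₐ[K] Ω)
    (fun P hP => by
      have := hρ _ σ hτ ⟨P, mem_Vp hP⟩
      rw [hσ] at this
      exact this.symm)
  have e3 : L ≤ IntermediateField.fixedField (Subgroup.zpowers
      (σ.liftNormal Ω : Ω ≃ₐ[K] Ω)) := hL.trans e1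
  apply AlgEquiv.ext
  intro x
  have e4 := e3 x.2
  rw [IntermediateField.mem_fixedField_iff] at e4
  have e5 := e4 _ (Subgroup.mem_zpowers _)
  rw [hτ] at e5
  exact Subtype.ext e5

/-- JOB L13 (Faith), second part. Congruent curves have the same division field. (See
`Congruent.divField_le` and `Congruent.symm` in Lib/FM60/Congr.lean.) -/
theorem divField_eq [IsGalois K Ω] {A B A₀ B₀ : 𝓞 K} {n : ℕ}
    (H : Congruent Ω n (curK A B) (curK A₀ B₀)) :
    divField Ω (curK A B) n = divField Ω (curK A₀ B₀) n :=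
  le_antisymm (H.divField_le dvd_rfl) (H.symm.divField_le dvd_rfl)

/-- JOB L13 (Faith), third part. The order of the `n`-torsion and of its `m`-torsion, `m ∣ n`.

PROOF. `Nat.card (Vp Ω A B n) = n²`: as `Vp_card` (Lib/FMK60/CurveDataK.lean), from `card_torsion`
(Lib/FM60) which holds for all `n ≥ 1`. The elements of `Vp Ω A B n` killed by `m` are in bijection
with `Vp Ω A B m`. -/
theorem card_Vp {A B : 𝓞 K} (hΔ : 4 * A ^ 3 + 27 * B ^ 2 ≠ 0) {n m : ℕ} (hn : 1 ≤ n)
    (hm : 1 ≤ m) (hmn : m ∣ n) :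
    Nat.card (Vp Ω A B n) = n ^ 2 ∧ Nat.card {x : Vp Ω A B n // m • x = 0} = m ^ 2 := by
  have key : ∀ k : ℕ, 1 ≤ k → Nat.card (Vp Ω A B k) = k ^ 2 := by
    intro k hk
    rw [← card_torsion (W := (curK A B).baseChange Ω) (baseChange_disc (curK_disc hΔ)) hk]
    apply Nat.card_congr
    refine Equiv.subtypeEquivRight (fun x => ?_)
    rw [Submodule.mem_torsionBy_iff, natCast_zsmul]
  refine ⟨key n hn, ?_⟩
  rw [← key m hm]
  refine Nat.card_congr
    { toFun := fun x => ⟨x.1.1, mem_Vp (congrArg Subtype.val x.2)⟩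
      invFun := fun x => ⟨⟨x.1, mem_Vp (by
        obtain ⟨k, rfl⟩ := hmn
        rw [mul_comm, mul_smul, Vp_smul_val x, smul_zero])⟩, Subtype.ext (Vp_smul_val x)⟩
      left_inv := fun x => rfl
      right_inv := fun x => rfl }

end Pool.Agent.Lib.FL60
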