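import Pool.Agent.Lib.FM60.Act
import Pool.Agent.Lib.MP_4a0cc8_ntL.Defs

set_option autoImplicit false
set_option linter.unusedSectionVars false
set_option linter.unusedVariables false

namespace Pool.Agent.Lib.FL60

open WithZero Pool.Agent.Lib.FM60

/-- JOB L11 (IntTwo), first part. Torsion points of 2-power order are integral at odd places.

PROOF. Induction on `k`. Suppose `1 < v (X P)`. Then `v (Y P)² = v (X P)³` (the equation, `v A ≤ 1`,
`v B ≤ 1`; it is `GT.val_Y_big` for `D.toGT`, or directly `v (X³ + (AX + B)) = v (X³)`), so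
`Y P ≠ 0`. If `P + P = 0`, then `P = -P`, `Y P = - Y P`, `2 Y P = 0`, contradiction (`v 2 = 1`). So
`P + P ≠ 0`, `2 ^ (k-1) • (P + P) = 0` (so `k ≥ 1`, and `k = 0` means `P = 0`), and
`D.dbl'`: `4 (X³ + A X + B) X(2P) = X⁴ - 2AX² - 8BX + A²` gives `v (X P)³ v (X (2P)) = v (X P)⁴`, i.e.
`v (X (2P)) = v (X P) > 1`, contradiction to the induction hypothesis for `P + P`. -/
theorem int_two {L : Type*} [Field L] {v : Valuation L ℤᵐ⁰} {A B : L} (hv2 : v 2 = 1)
    (hA : v A ≤ 1) (hB : v B ≤ 1) {V : Type*} [AddCommGroup V] (D : TorsData L A B V)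
    (k : ℕ) (P : V) (hP : P ≠ 0) (hk : 2 ^ k • P = 0) : v (D.X P) ≤ 1 := by
  induction k generalizing P with
  | zero => exact absurd (by simpa using hk) hP
  | succ k ih =>
    by_contra hcon
    rw [not_le] at hcon
    have hn : ∀ n : ℕ, v (n : L) ≤ 1 := fun n => natCast_mem v.integer n
    have hn2 : v (2 : L) ≤ 1 := hv2.le
    have hv4 : v (4 : L) = 1 := by
      rw [show (4 : L) = 2 * 2 by norm_num, map_mul, hv2, one_mul]
    have hv8 : v (8 : L) = 1 := by
      rw [show (8 : L) = 4 * 2 by norm_num, map_mul, hv2, hv4, one_mul]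
    have h20 : (2 : L) ≠ 0 := by
      intro h0
      rw [h0, map_zero] at hv2
      exact zero_ne_one hv2
    have hpos : 0 < v (D.X P) := lt_trans zero_lt_one hcon
    have p1 : ∀ n : ℕ, 1 < n → v (D.X P) < v (D.X P) ^ n := by
      intro n hn
      calc v (D.X P) = v (D.X P) ^ 1 := (pow_one _).symm
        _ < v (D.X P) ^ n := pow_lt_pow_right₀ hcon hn
    have hAx : v (A * D.X P) < v (D.X P) ^ 3 := by
      rw [map_mul]
      calc v A * v (D.X P) ≤ 1 * v (D.X P) := mul_le_mul' hA le_rfl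
        _ = v (D.X P) := one_mul _
        _ < v (D.X P) ^ 3 := p1 3 (by norm_num)
    have hB3 : v B < v (D.X P) ^ 3 :=
      lt_of_le_of_lt hB (lt_trans hcon (p1 3 (by norm_num)))
    have h3 : v (D.X P ^ 3 + (A * D.X P + B)) = v (D.X P) ^ 3 := by
      rw [Valuation.map_add_eq_of_lt_left _ (by rw [map_pow]; exact GT.lt_add v hAx hB3), map_pow]
    have hY0 : D.Y P ≠ 0 := by
      intro h0
      have h1 := D.eqn hP
      rw [h0, zero_pow two_ne_zero, add_assoc] at h1
      rw [← h1, map_zero] at h3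
      exact (pow_pos hpos 3).ne h3
    have hPP : P + P ≠ 0 := by
      intro h0
      have h1 : P = -P := eq_neg_of_add_eq_zero_left h0
      have h2 : D.Y P = -D.Y P := by
        conv_lhs => rw [h1]
        exact D.Y_neg P
      have h4 : 2 * D.Y P = 0 := by linear_combination h2
      exact hY0 ((mul_eq_zero.mp h4).resolve_left h20)
    have hk' : 2 ^ k • (P + P) = 0 := by
      rw [← two_nsmul, smul_smul, ← pow_succ]
      exact hk
    have hle := ih (P + P) hPP hk'
    have hd := D.dbl' hP hPP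
    have e1 : D.X P ^ 4 - 2 * A * D.X P ^ 2 - 8 * B * D.X P + A ^ 2 =
        D.X P ^ 4 + ((-2 * A) * D.X P ^ 2 + ((-8 * B) * D.X P + A ^ 2)) := by ring
    have hr : v (D.X P ^ 4 + ((-2 * A) * D.X P ^ 2 + ((-8 * B) * D.X P + A ^ 2))) =
        v (D.X P) ^ 4 := by
      rw [Valuation.map_add_eq_of_lt_left, map_pow]
      rw [map_pow]
      refine GT.lt_add v ?_ (GT.lt_add v ?_ ?_)
      · rw [map_mul, map_mul, Valuation.map_neg, map_pow, hv2, one_mul]
        calc v A * v (D.X P) ^ 2 ≤ 1 * v (D.X P) ^ 2 := mul_le_mul' hA le_rfl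
          _ = v (D.X P) ^ 2 := one_mul _
          _ < v (D.X P) ^ 4 := pow_lt_pow_right₀ hcon (by norm_num)
      · rw [map_mul, map_mul, Valuation.map_neg, hv8, one_mul]
        calc v B * v (D.X P) ≤ 1 * v (D.X P) := mul_le_mul' hB le_rfl
          _ = v (D.X P) := one_mul _
          _ < v (D.X P) ^ 4 := p1 4 (by norm_num)
      · rw [map_pow]
        calc v A ^ 2 ≤ 1 := pow_le_one' hA 2
          _ < v (D.X P) := hcon
          _ < v (D.X P) ^ 4 := p1 4 (by norm_num)
    have h5 := congrArg v hd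
    rw [e1, hr, map_mul, map_mul, hv4, one_mul, add_assoc, h3] at h5
    have h6 : v (D.X P) ^ 3 * v (D.X (P + P)) < v (D.X P) ^ 4 := by
      calc v (D.X P) ^ 3 * v (D.X (P + P)) ≤ v (D.X P) ^ 3 * 1 := mul_le_mul' le_rfl hle
        _ = v (D.X P) ^ 3 := mul_one _
        _ < v (D.X P) ^ 4 := pow_lt_pow_right₀ hcon (by norm_num)
    exact h6.ne h5

/-- `sing_of_ne` without the hypothesis that there is no 2-torsion. -/
lemma intTwo_sing {L : Type*} [Field L] {v : Valuation L ℤᵐ⁰} (hv2 : v 2 = 1) {A B : L}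
    (hA : v A ≤ 1) (hB : v B ≤ 1) {V : Type*} [AddCommGroup V] (D : TorsData L A B V)
    (hint : ∀ P : V, P ≠ 0 → v (D.X P) ≤ 1)
    {P P' : V} (hP : P ≠ 0) (hP' : P' ≠ 0) (hne : P' ≠ P) (hX : v (D.X P' - D.X P) < 1)
    (hY : v (D.Y P' - D.Y P) < 1) :
    v (D.X P ^ 3 + A * D.X P + B) < 1 ∧ v (3 * D.X P ^ 2 + A) < 1 := by
  have hv4 : v 4 = 1 := by
    rw [show (4 : L) = 2 * 2 by norm_num, map_mul, hv2, one_mul]
  have hA' : A ∈ v.integer := hA
  have hB' : B ∈ v.integer := hB
  have hnat : ∀ n : ℕ, ((n : L)) ∈ v.integer := fun n => natCast_mem _ n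
  have h2' := hnat 2
  have h4' := hnat 4
  have h8' := hnat 8
  push_cast at h2' h4' h8'
  have hx₁' : D.X P ∈ v.integer := hint P hP
  have hx₂' : D.X P' ∈ v.integer := hint P' hP'
  by_cases hXX : D.X P = D.X P'
  · rcases D.eq_of_X hP hP' hXX with h0 | h0
    · exact absurd h0.symm hne
    have hP'' : P' = -P := by rw [h0, neg_neg]
    have hPP : P + P ≠ 0 := by
      intro h00
      apply hne
      rw [hP'']
      exact (eq_neg_of_add_eq_zero_left h00).symm
    rw [hP'', D.Y_neg] at hY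
    have h1 : v (2 * D.Y P) < 1 := by
      rw [← Valuation.map_neg]
      have e : -(2 * D.Y P) = -D.Y P - D.Y P := by ring
      rw [e]; exact hY
    have h2 := lt_of_mul v hv2 h1
    have k1 : v (D.X P ^ 3 + A * D.X P + B) < 1 := by
      rw [← D.eqn hP, pow_two]
      exact lt_mul v h2.le h2
    refine ⟨k1, ?_⟩
    have hz0 : D.X (P + P) ∈ v.integer := hint _ hPP
    have e := D.dbl' hP hPP
    apply lt_of_sq
    have e' : (3 * D.X P ^ 2 + A) ^ 2 =
        (8 * D.X P + 4 * D.X (P + P)) * (D.X P ^ 3 + A * D.X P + B) := by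
      linear_combination -e
    rw [e']
    apply lt_mul _ _ k1
    change _ ∈ v.integer
    apply_rules [add_mem, sub_mem, mul_mem, pow_mem, neg_mem]
  · have hs : P - P' ≠ 0 := by
      intro h0
      rw [sub_eq_zero] at h0
      exact hXX (by rw [h0])
    have ha : P + P' ≠ 0 := by
      intro h0
      rw [add_eq_zero_iff_eq_neg] at h0
      exact hXX (by rw [h0, D.X_neg])
    have e₁ := D.sum hP hP' hXX
    have e₂ := D.prod hP hP' hXX
    have hz0 : D.X (P + P') ∈ v.integer := hint _ ha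
    have hz0' : D.X (P - P') ∈ v.integer := hint _ hs
    have h : v (D.X P - D.X P') < 1 := by rw [Valuation.map_sub_swap]; exact hX
    set x₁ := D.X P
    set x₂ := D.X P'
    set z := D.X (P + P')
    set z' := D.X (P - P')
    have k1 : v (x₁ ^ 3 + A * x₁ + B) < 1 := by
      apply lt_of_mul v hv4
      have e : 4 * (x₁ ^ 3 + A * x₁ + B) =
          ((x₁ - x₂) * (z + z') + 2 * (A + x₁ ^ 2) + 2 * x₁ * (x₁ + x₂)) * (x₁ - x₂) := by
        linear_combination -e₁
      rw [e]
      apply lt_mul _ _ h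
      change _ ∈ v.integer
      apply_rules [add_mem, sub_mem, mul_mem, pow_mem, neg_mem]
    refine ⟨k1, ?_⟩
    apply lt_of_sq
    have e : (3 * x₁ ^ 2 + A) ^ 2 = 8 * x₁ * (x₁ ^ 3 + A * x₁ + B) +
        ((x₁ - x₂) * (z * z') - x₁ * (2 * A - x₁ ^ 2 - x₁ * x₂) - 4 * B) * (x₁ - x₂) := by
      linear_combination -e₂
    rw [e]
    apply FM60.lt_add
    · apply lt_mul _ _ k1
      change _ ∈ v.integer
      apply_rules [add_mem, sub_mem, mul_mem, pow_mem, neg_mem]
    · apply lt_mul _ _ h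
      change _ ∈ v.integer
      apply_rules [add_mem, sub_mem, mul_mem, pow_mem, neg_mem]

/-- JOB L11 (IntTwo), second part. Good reduction and integral torsion: an automorphism in the
inertia group acts trivially. (This is `good_tame` of Lib/FM60/GoodTame.lean without the hypothesis
that there is no 2-torsion. In its auxiliary lemma `sing_of_ne` of Lib/FM60/Tame.lean the hypothesis
`hodd` is used only in the case `X P = X P'`, `P' = -P ≠ P`, where `P + P ≠ 0` is clear.)

PROOF. Suppose `P' = u P ≠ P`; `P ≠ 0`, `P' ≠ 0`; `v (X P' - X P) < 1`, `v (Y P' - Y P) < 1` (`hσ`;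
`v (Y P) ≤ 1` by the equation, `le_of_sq`). If `X P = X P'`, then `P' = -P` (`D.eq_of_X`),
`P + P ≠ 0`, `v (2 Y P) < 1`, and as in `sing_of_ne` `v (X³ + AX + B) < 1`, `v (3X² + A) < 1`. If
`X P ≠ X P'`, copy the second half of the proof of `sing_of_ne`. Then `disc_lt` gives
`v (4A³ + 27B²) < 1`, a contradiction. -/
theorem good_tame' {L : Type*} [Field L] {v : Valuation L ℤᵐ⁰} (hv2 : v 2 = 1) {A B : L}
    (hA : v A ≤ 1) (hB : v B ≤ 1) (hΔ : v (4 * A ^ 3 + 27 * B ^ 2) = 1)
    {V : Type*} [AddCommGroup V] (D : TorsData L A B V)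
    (hint : ∀ P : V, P ≠ 0 → v (D.X P) ≤ 1)
    (σ : L → L) (hσ : ∀ x, v x ≤ 1 → v (σ x - x) < 1) (u : V ≃+ V)
    (hX : ∀ P, D.X (u P) = σ (D.X P)) (hY : ∀ P, D.Y (u P) = σ (D.Y P)) (P : V) : u P = P := by
  by_cases hP : P = 0
  · rw [hP, map_zero]
  by_contra hne
  have hYint : v (D.Y P) ≤ 1 := by
    apply le_of_sq
    rw [D.eqn hP]
    have h3 := hint P hP
    apply GT.le_add
    · apply GT.le_add
      · rw [map_pow]; exact pow_le_one' h3 3
      · rw [map_mul]; exact mul_le_one' hA h3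
    · exact hB
  obtain ⟨k1, k2⟩ := intTwo_sing hv2 hA hB D hint hP (by simpa using hP) hne
    (by rw [hX]; exact hσ _ (hint P hP)) (by rw [hY]; exact hσ _ hYint)
  have := disc_lt v hA hB (hint P hP) k1 k2
  rw [hΔ] at this
  exact lt_irrefl _ this

end Pool.Agent.Lib.FL60
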