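import Pool.Agent.Lib.FM60.Nodal
import Pool.Agent.Lib.FM60.Eval
import Pool.Agent.Lib.MP_4a0cc8_ntL.Defs

set_option autoImplicit false
set_option linter.unusedSectionVars false
set_option linter.unusedVariables false

namespace Pool.Agent.Lib.FL60

open WithZero Polynomial Pool.Agent.Lib.FM60

/-- JOB L08 (Near), first part. For odd `p` some `p`-torsion point is near the node.

PROOF. This is in `node_tame_gen` (Lib/FMK60/TameK.lean, the part (some point is near the node)):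
`val_eval_node` gives `v (eval x₀ (preΨ' p)) = δ ^ ((p²-1)/8) < 1`, with `δ = v (4A³+27B²)`, and
`hprod` writes the left side as `∏_{x ∈ S} v (x₀ - x)` (`v p = 1`). If all factors were `≥ 1` the
product would be `≥ 1`. (`v x₀ = 1`, `v (x₀³ + A x₀ + B) = δ`, `v (3 x₀² + A) = δ` as there, from
`node_f`, `node_f'` of Lib/FM60/Nodal.lean; `(p² - 1)/8 ≥ 1` as `p ≥ 3`.) -/
theorem near_odd {L : Type*} [Field L] {v : Valuation L ℤᵐ⁰} {A B : L} {p : ℕ}
    (hp : p.Prime) (hp2 : p ≠ 2) (hv2 : v 2 = 1) (hv3 : v 3 = 1) (hvp : v (p : L) = 1)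
    (hvA : v A = 1) (hvB : v B = 1) (hD : v (4 * A ^ 3 + 27 * B ^ 2) < 1)
    (hD0 : 4 * A ^ 3 + 27 * B ^ 2 ≠ 0) {S : Finset L}
    (hprod : (⟨0, 0, 0, A, B⟩ : WeierstrassCurve L).preΨ' p =
      C (p : L) * ∏ x ∈ S, (X - C x)) :
    ∃ x ∈ S, v (x - (-3 * B / (2 * A))) < 1 := by
  have hv4 : v 4 = 1 := by
    rw [show (4 : L) = 2 * 2 by norm_num, map_mul, hv2, one_mul]
  have hv8 : v 8 = 1 := by
    rw [show (8 : L) = 4 * 2 by norm_num, map_mul, hv2, hv4, one_mul]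
  have h2 : (2 : L) ≠ 0 := by intro h; rw [h, map_zero] at hv2; exact zero_ne_one hv2
  have hA0 : A ≠ 0 := by intro h; rw [h, map_zero] at hvA; exact zero_ne_one hvA
  set x₀ : L := -3 * B / (2 * A) with hx₀
  have hvx₀ : v x₀ = 1 := by
    rw [hx₀, map_div₀, map_mul, map_mul, Valuation.map_neg, hv3, hvB, hv2, hvA]
    simp
  have hF : v (x₀ ^ 3 + A * x₀ + B) = v (4 * A ^ 3 + 27 * B ^ 2) := by
    rw [hx₀, node_f hA0 h2, map_div₀, map_mul, map_mul, Valuation.map_neg, hvB, hv8,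
      map_pow, hvA]
    simp
  have hG : v (3 * x₀ ^ 2 + A) = v (4 * A ^ 3 + 27 * B ^ 2) := by
    rw [hx₀, node_f' hA0 h2, map_div₀, map_mul, hv4, map_pow, hvA]
    simp
  have hpos : 0 < v (4 * A ^ 3 + 27 * B ^ 2) := by
    rw [zero_lt_iff]
    exact (Valuation.ne_zero_iff v).mpr hD0
  have hev := val_eval_node v (hp.odd_of_ne_two hp2) hv2 hv3 hvx₀ hD hpos hF hG.le
  rw [hprod, eval_mul, eval_C, eval_prod, map_mul, hvp, one_mul, map_prod] at hev
  by_contra hcon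
  push Not at hcon
  have h1 : (1 : ℤᵐ⁰) ≤ ∏ x ∈ S, v (eval x₀ (X - C x)) := by
    apply Finset.one_le_prod'
    intro x hx
    simp only [eval_sub, eval_X, eval_C]
    rw [Valuation.map_sub_swap]
    exact hcon x hx
  have hp3 : 3 ≤ p := by
    have := hp.two_le
    omega
  have h3 : v (4 * A ^ 3 + 27 * B ^ 2) ^ ((p ^ 2 - 1) / 8) < 1 := by
    apply pow_lt_one₀ zero_le hD
    have h3 : 1 ≤ (p ^ 2 - 1) / 8 := by
      rw [Nat.le_div_iff_mul_le (by norm_num)]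
      have : 3 ^ 2 ≤ p ^ 2 := Nat.pow_le_pow_left hp3 2
      omega
    omega
  rw [hev] at h1
  exact absurd h3 (not_lt.mpr h1)

/-- The roots of the cubic are integral. -/
private lemma near_int {L : Type*} [Field L] {v : Valuation L ℤᵐ⁰} {A B e : L}
    (hvA : v A = 1) (hvB : v B = 1) (he : 0 = e ^ 3 + A * e + B) : v e ≤ 1 := by
  by_contra hlt
  rw [not_le] at hlt
  have h1 : e ^ 3 = -(A * e + B) := by linear_combination -he
  have h2 : v (e ^ 3) ≤ v e := by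
    rw [h1, Valuation.map_neg]
    refine (v.map_add _ _).trans (max_le ?_ ?_)
    · rw [map_mul, hvA, one_mul]
    · rw [hvB]; exact hlt.le
  rw [map_pow] at h2
  have h3 : v e < v e ^ 3 := by
    have h4 : v e ^ 1 < v e ^ 3 := pow_lt_pow_right₀ hlt (by norm_num)
    rwa [pow_one] at h4
  exact absurd h2 (not_le.mpr h3)

private lemma near_aux {L : Type*} [Field L] {v : Valuation L ℤᵐ⁰} {A B e e' : L}
    (hv2 : v 2 = 1) (hvA : v A = 1) (he : v e ≤ 1) (hA : A = -(e ^ 2 + e * e' + e' ^ 2))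
    (hB : B = -e ^ 3 - A * e) (hd : v (e - e') < 1) : v (e - (-3 * B / (2 * A))) < 1 := by
  have h2 : (2 : L) ≠ 0 := by intro h; rw [h, map_zero] at hv2; exact zero_ne_one hv2
  have hA0 : A ≠ 0 := by intro h; rw [h, map_zero] at hvA; exact zero_ne_one hvA
  have h1 : e - (-3 * B / (2 * A)) = (2 * A * e + 3 * B) / (2 * A) := by
    field_simp
    ring
  have h3 : 2 * A * e + 3 * B = (-(3 * e ^ 2) + e * (e - e')) * (e - e') := by
    rw [hB, hA]
    ring
  have h4 : v (2 * A) = 1 := by rw [map_mul, hv2, hvA, one_mul]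
  rw [h1, h3, map_div₀, h4, div_one]
  apply lt_mul v _ hd
  have h3' : ((3 : ℕ) : L) ∈ v.integer := natCast_mem _ 3
  push_cast at h3'
  have he' : e ∈ v.integer := he
  have hd' : e - e' ∈ v.integer := hd.le
  change _ ∈ v.integer
  exact add_mem (neg_mem (mul_mem h3' (pow_mem he' 2))) (mul_mem he' hd')

/-- JOB L08 (Near), second part. For `p = 2` some point of order `2` is near the node.

PROOF. The three points `P₁, P₂, P₃ ≠ 0` with `P + P = 0` have `Y P = 0` (`D.Y_neg`, `-P = P`,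
`v 2 = 1` so `2 ≠ 0`), hence `e_i = X P_i` are roots of `x³ + A x + B` (`D.eqn`), and they are
distinct (`D.eq_of_X`, `-P = P`). So `e₁ + e₂ + e₃ = 0`, `A = e₁e₂ + e₁e₃ + e₂e₃`,
`B = - e₁e₂e₃` (subtract the equations for two roots and divide by the difference; no polynomials are
needed), `v (e_i) ≤ 1` (`e³ = -Ae - B`), and
`4A³ + 27B² = - ((e₁-e₂)(e₁-e₃)(e₂-e₃))²`. So some `v (e_i - e_j) < 1`, say `i = 1, j = 2`. Put
`r = e₁`: `e₂ = r + d`, `v d < 1`, `e₃ = -2r - d`, `A = -3r² + d·(integral)`,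
`B = 2r³ + d·(integral)`, so `2A r + 3B = d·(integral)`, i.e.
`v (r - (-3B/(2A))) = v ((2Ar + 3B)/(2A)) < 1` (`v A = v 2 = 1`). -/
theorem near_two {L : Type*} [Field L] {v : Valuation L ℤᵐ⁰} {A B : L}
    (hv2 : v 2 = 1) (hv3 : v 3 = 1) (hvA : v A = 1) (hvB : v B = 1)
    (hD : v (4 * A ^ 3 + 27 * B ^ 2) < 1) {V : Type*} [AddCommGroup V]
    (hV2 : Nat.card {x : V // 2 • x = 0} = 4) (D : TorsData L A B V) :
    ∃ P : V, P ≠ 0 ∧ 2 • P = 0 ∧ v (D.X P - (-3 * B / (2 * A))) < 1 := by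
  have h2 : (2 : L) ≠ 0 := by intro h; rw [h, map_zero] at hv2; exact zero_ne_one hv2
  have hcard : ({x : V | 2 • x = 0} \ {0}).ncard = 3 := by
    have h1 : ({x : V | 2 • x = 0}).ncard = 4 := by
      rw [← Nat.card_coe_set_eq]
      exact hV2
    rw [Set.ncard_sdiff_singleton_of_mem (by simp), h1]
  obtain ⟨P₁, P₂, P₃, h12, h13, h23, hT⟩ := Set.ncard_eq_three.mp hcard
  have hm : ∀ P, P ∈ ({P₁, P₂, P₃} : Set V) → P ≠ 0 ∧ 2 • P = 0 := by
    intro P hP
    rw [← hT] at hP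
    exact ⟨hP.2, hP.1⟩
  obtain ⟨h1n, h1t⟩ := hm P₁ (by simp)
  obtain ⟨h2n, h2t⟩ := hm P₂ (by simp)
  obtain ⟨h3n, h3t⟩ := hm P₃ (by simp)
  have hneg : ∀ P : V, 2 • P = 0 → -P = P := by
    intro P hP
    rw [two_nsmul] at hP
    exact (eq_neg_of_add_eq_zero_left hP).symm
  have hroot : ∀ P : V, P ≠ 0 → 2 • P = 0 → 0 = D.X P ^ 3 + A * D.X P + B := by
    intro P hP hP2
    have h3 := D.Y_neg P
    rw [hneg P hP2] at h3
    have h4 : D.Y P = 0 := by
      have h5 : 2 * D.Y P = 0 := by linear_combination h3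
      exact (mul_eq_zero.mp h5).resolve_left h2
    have h6 := D.eqn hP
    rw [h4] at h6
    linear_combination h6
  have hne : ∀ P Q : V, P ≠ 0 → Q ≠ 0 → 2 • Q = 0 → P ≠ Q → D.X P ≠ D.X Q := by
    intro P Q hP hQ hQ2 hPQ h
    rcases D.eq_of_X hP hQ h with h3 | h3
    · exact hPQ h3
    · rw [hneg Q hQ2] at h3
      exact hPQ h3
  have r1 := hroot P₁ h1n h1t
  have r2 := hroot P₂ h2n h2t
  have r3 := hroot P₃ h3n h3t
  have n12 := hne P₁ P₂ h1n h2n h2t h12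
  have n13 := hne P₁ P₃ h1n h3n h3t h13
  have n23 := hne P₂ P₃ h2n h3n h3t h23
  have i1 := near_int hvA hvB r1
  have i2 := near_int hvA hvB r2
  have i3 := near_int hvA hvB r3
  have hAe : ∀ e e' : L, 0 = e ^ 3 + A * e + B → 0 = e' ^ 3 + A * e' + B → e ≠ e' →
      A = -(e ^ 2 + e * e' + e' ^ 2) := by
    intro e e' h h' hee
    have h3 : (e - e') * (A + (e ^ 2 + e * e' + e' ^ 2)) = 0 := by linear_combination h' - h
    have h4 := (mul_eq_zero.mp h3).resolve_left (sub_ne_zero.mpr hee)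
    linear_combination h4
  have hBe : ∀ e : L, 0 = e ^ 3 + A * e + B → B = -e ^ 3 - A * e := by
    intro e h
    linear_combination -h
  have a12 := hAe _ _ r1 r2 n12
  have a13 := hAe _ _ r1 r3 n13
  have a23 := hAe _ _ r2 r3 n23
  have hsum : D.X P₁ + D.X P₂ + D.X P₃ = 0 := by
    have h3 : (D.X P₂ - D.X P₃) * (D.X P₁ + D.X P₂ + D.X P₃) = 0 := by
      linear_combination a12 - a13
    exact (mul_eq_zero.mp h3).resolve_left (sub_ne_zero.mpr n23)
  have hdisc : 4 * A ^ 3 + 27 * B ^ 2 =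
      -((D.X P₁ - D.X P₂) * (D.X P₁ - D.X P₃) * (D.X P₂ - D.X P₃)) ^ 2 := by
    have e3 : D.X P₃ = -D.X P₁ - D.X P₂ := by linear_combination hsum
    have key : ∀ a b c A B : L, A = -(a ^ 2 + a * b + b ^ 2) → B = -a ^ 3 - A * a →
        c = -a - b → 4 * A ^ 3 + 27 * B ^ 2 = -((a - b) * (a - c) * (b - c)) ^ 2 := by
      intro a b c A B h1 h2 h3
      rw [h2, h1, h3]
      ring
    exact key _ _ _ _ _ a12 (hBe _ r1) e3
  rw [hdisc, Valuation.map_neg] at hD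
  have hD' := lt_of_sq v hD
  by_cases c12 : v (D.X P₁ - D.X P₂) < 1
  · exact ⟨P₁, h1n, h1t, near_aux hv2 hvA i1 a12 (hBe _ r1) c12⟩
  by_cases c13 : v (D.X P₁ - D.X P₃) < 1
  · exact ⟨P₁, h1n, h1t, near_aux hv2 hvA i1 a13 (hBe _ r1) c13⟩
  by_cases c23 : v (D.X P₂ - D.X P₃) < 1
  · exact ⟨P₂, h2n, h2t, near_aux hv2 hvA i2 a23 (hBe _ r2) c23⟩
  exfalso
  rw [not_lt] at c12 c13 c23
  rw [map_mul, map_mul] at hD'
  exact absurd hD' (not_lt.mpr (one_le_mul (one_le_mul c12 c13) c23))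

end Pool.Agent.Lib.FL60
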