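import Pool.Agent.Lib.MP_4a0cc8_ntL.Defs

section

set_option autoImplicit false
set_option linter.unusedSectionVars false
set_option linter.unusedVariables false

namespace Pool.Agent.Lib.FL60

open WithZero Pool.Agent.Lib.FM60

private lemma starA_mul_le {L : Type*} [Field L] {v : Valuation L ℤᵐ⁰} {x y : L} {p q : ℤ}
    (hx : v x ≤ exp p) (hy : v y ≤ exp q) : v (x * y) ≤ exp (p + q) := by
  rw [map_mul, exp_add]
  exact mul_le_mul' hx hy

private lemma starA_mul {L : Type*} [Field L] {v : Valuation L ℤᵐ⁰} {x y : L} {p q : ℤ}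
    (hx : v x = exp p) (hy : v y = exp q) : v (x * y) = exp (p + q) := by
  rw [map_mul, exp_add, hx, hy]

private lemma starA_add_le {L : Type*} [Field L] {v : Valuation L ℤᵐ⁰} {x y : L} {p q r : ℤ}
    (hx : v x ≤ exp p) (hy : v y ≤ exp q) (hp : p ≤ r) (hq : q ≤ r) : v (x + y) ≤ exp r :=
  (v.map_add _ _).trans (max_le (hx.trans (exp_le_exp.mpr hp)) (hy.trans (exp_le_exp.mpr hq)))

private lemma starA_div {g : ℤᵐ⁰} {p q : ℤ} (h : exp p * g = exp q) : g = exp (q - p) := by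
  have h1 : exp p * g = exp p * exp (q - p) := by
    rw [h, ← exp_add]; congr 1; ring
  exact mul_left_cancel₀ exp_ne_zero h1

private lemma starA_div_le {g : ℤᵐ⁰} {p q : ℤ} (h : exp p * g ≤ exp q) : g ≤ exp (q - p) := by
  have h1 : exp p * g ≤ exp p * exp (q - p) := by
    refine h.trans (le_of_eq ?_)
    rw [← exp_add]; congr 1; ring
  exact (mul_le_mul_iff_right₀ exp_pos).mp h1

/-- the case `0 < i`, under the assumption `v t < v s` -/
private lemma starA_aux {L : Type*} [Field L] {v : Valuation L ℤᵐ⁰} {e : ℕ} {s t : L} {i j : ℕ}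
    (hij : i < j) (hj : 2 * j < e) (hst : v t < v s)
    (h1 : v (s + t) = exp (-((j : ℤ) - i)))
    (hlt : 2 * (i + j) < e → v (s * t) = exp (-(2 * (j : ℤ))))
    (hgt : e < 2 * (i + j) → v (s * t) = exp (-((e : ℤ) - 2 * i)))
    (heq : e = 2 * (i + j) → v (s * t) ≤ exp (-((e : ℤ) - 2 * i))) :
    bet e (v s) = 2 * ((j : ℤ) - i) ∧ bet e (v t) = min (2 * (i + j)) (2 * e - 2 * (i + j)) := by
  have hs : v s = exp (-((j : ℤ) - i)) := by
    rw [← h1, Valuation.map_add_eq_of_lt_left _ hst]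
  constructor
  · have h2 : (-((j : ℤ) - i)) = -((j - i : ℕ) : ℤ) := by omega
    rw [hs, h2, bet_exp (by omega)]
    omega
  · rcases lt_trichotomy (2 * (i + j)) e with h | h | h
    · have h2 := hlt h
      rw [map_mul, hs] at h2
      have h3 := starA_div h2
      have h4 : -(2 * (j : ℤ)) - -((j : ℤ) - i) = -((i + j : ℕ) : ℤ) := by push_cast; ring
      rw [h3, h4, bet_exp (by omega)]
      push_cast
      rw [min_eq_left (by omega)]
    · have h2 := heq h.symm
      rw [map_mul, hs] at h2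
      have h3 := starA_div_le h2
      have h4 : v t ^ 2 ≤ exp (-(e : ℤ)) := by
        calc v t ^ 2 ≤ (exp (-((e : ℤ) - 2 * i) - -((j : ℤ) - i))) ^ 2 :=
              pow_le_pow_left₀ zero_le h3 2
          _ = exp (-(e : ℤ)) := by
              rw [← exp_nsmul]; congr 1
              simp only [nsmul_eq_mul]
              push_cast
              omega
      rw [bet_of_sq_le h4, min_eq_left (by omega)]
      omega
    · have h2 := hgt h
      rw [map_mul, hs] at h2
      have h3 := starA_div h2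
      have h4 : -((e : ℤ) - 2 * i) - -((j : ℤ) - i) = -((e - (i + j) : ℕ) : ℤ) := by
        omega
      rw [h3, h4, bet_exp (by omega), min_eq_right (by omega)]
      omega

/-- JOB L01 (StarA). Two points at different heights, the lower one (height `j`) below `e/2`.
Here `w x` is the additive valuation: `v x = exp (-(w x))`, and `w 0 = ∞`.

PROOF. `v (z₁ - z₂) = exp (-i)` (`i < j`). `NodeH` gives `v 2 = v 3 = v a = 1` (`h.two`, `h.three`,
`h.ha`), `v 4 = 1` (`NodeH.four`), `v b ≤ exp (-e)`, `v c = exp (-e)`.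
(1) From `hprod`: `v ((z₁ z₂ - b)²) = exp (-2(i+j))` because `i + j < e` (as `i < j`, `2j < e`) so
`v b < v (z₁ z₂)`; `v (4 c (z₁ + z₂ + a)) ≤ exp (-e)`; if `i > 0`, then `v (z₁ + z₂ + a) = 1` and the
second term has valuation exactly `exp (-e)`.
CASE `i = 0`: `v (z₁ - z₂) = 1`, `2 (i + j) = 2 j < e`, so `v (s t) = exp (-2j)`. From `hsum` every term
on the right has `v ≤ exp (-j)` (`z₁ z₂ (z₁ + z₂)`, `2 a z₁ z₂`: at most `exp (-j)`; `b`, `c`:
at most `exp (-e)`), so `v (s + t) ≤ exp (-j)`. By `GT.root_le` (in Lib/FM60/GT.lean, with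
`μ = exp (-j)`) `v s ≤ exp (-j)`, and `v t ≤ exp (-j)` (symmetric), and the product of the two is
`exp (-2j)`, so `v s = v t = exp (-j)`. Both `bet` are `2 j = 2 (j - 0) = min (2j) (2e - 2j)`.
CASE `i > 0`: in `hsum` the term `2 a z₁ z₂` (times 2) has valuation exactly `exp (-(i+j))`, the terms
`z₁ z₂ (z₁ + z₂)` (`≤ exp (-(2i+j))`), `b (z₁ + z₂)` (`≤ exp (-(e+i))`) and `2 c` (`exp (-e)`,
`i + j < e`) are smaller, so `v (s + t) = exp (-(j - i))`. The product: `v (s t) = exp (-(2j))` if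
`2(i+j) < e`, `v (s t) = exp (-(e - 2i))` if `2(i+j) > e`, `v (s t) ≤ exp (-(e-2i))` if
`2(i+j) = e`. In all cases `v (s t) < exp (-2(j-i))` (`2j > 2j - 2i`, `e - 2i > 2j - 2i`). If
`v s = v t`, then `v (s + t) ≤ v s` gives `v (s t) ≥ exp (-2(j-i))`, contradiction. So `v s ≠ v t`,
the larger one is `v (s + t) = exp (-(j-i))` (`Valuation.map_add_eq_of_lt_left` and `_right`), and the
other one is `v (s t) exp (j - i)`: it is `exp (-(i+j))` if `2(i+j) < e`, `exp (-(e-i-j))` if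
`2 (i + j) > e`, and `≤ exp (-e/2)` (its square is `≤ exp (-e)`) if `2 (i+j) = e`. Translate with
`bet_exp`, `bet_of_sq_le`. Set up WLOG by an auxiliary lemma with `v t < v s`. -/
theorem star_low {L : Type*} [Field L] {v : Valuation L ℤᵐ⁰} {a b c : L} {e : ℕ}
    (h : NodeH v a b c (exp (-(e : ℤ)))) {z₁ z₂ s t : L} {i j : ℕ} (hij : i < j)
    (hj : 2 * j < e) (h1 : v z₁ = exp (-(i : ℤ))) (h2 : v z₂ = exp (-(j : ℤ)))
    (hs : v s ≤ 1) (ht : v t ≤ 1)
    (hsum : (z₁ - z₂) ^ 2 * (s + t) =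
      2 * (z₁ * z₂ * (z₁ + z₂) + 2 * a * z₁ * z₂ + b * (z₁ + z₂) + 2 * c))
    (hprod : (z₁ - z₂) ^ 2 * (s * t) = (z₁ * z₂ - b) ^ 2 - 4 * c * (z₁ + z₂ + a)) :
    (bet e (v s) = 2 * ((j : ℤ) - i) ∧ bet e (v t) = min (2 * (i + j)) (2 * e - 2 * (i + j))) ∨
    (bet e (v t) = 2 * ((j : ℤ) - i) ∧ bet e (v s) = min (2 * (i + j)) (2 * e - 2 * (i + j))) := by
  have hI : (i : ℤ) < j := by exact_mod_cast hij
  have hJ : 2 * (j : ℤ) < e := by exact_mod_cast hj
  have hI0 : (0 : ℤ) ≤ i := Int.natCast_nonneg i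
  have hz21 : v z₂ < v z₁ := by rw [h1, h2, exp_lt_exp]; omega
  have hd : v (z₁ - z₂) = exp (-(i : ℤ)) := by
    rw [Valuation.map_sub_eq_of_lt_left _ hz21, h1]
  have hd2 : v ((z₁ - z₂) ^ 2) = exp (-(2 * i : ℤ)) := by
    rw [pow_two, starA_mul hd hd]; congr 1; ring
  have hsuml : v (z₁ + z₂) ≤ exp (-(i : ℤ)) := by
    rw [Valuation.map_add_eq_of_lt_left _ hz21, h1]
  have h12 : v (z₁ * z₂) = exp (-(i : ℤ) + -(j : ℤ)) := starA_mul h1 h2
  have hb := h.hb
  have hc := h.hc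
  have h2' : v (2 : L) = exp 0 := by rw [h.two, exp_zero]
  have h4' : v (4 : L) = exp 0 := by rw [h.four, exp_zero]
  have ha' : v a = exp 0 := by rw [h.ha, exp_zero]
  -- the four terms of `hsum`
  have t1 : v (z₁ * z₂ * (z₁ + z₂)) ≤ exp (-(i : ℤ) + -(j : ℤ) + -(i : ℤ)) :=
    starA_mul_le h12.le hsuml
  have t2 : v (2 * a * z₁ * z₂) = exp (-(i : ℤ) + -(j : ℤ)) := by
    have h3 := starA_mul (starA_mul (starA_mul h2' ha') h1) h2
    rw [h3]; congr 1; ring
  have t3 : v (b * (z₁ + z₂)) ≤ exp (-(e : ℤ) + -(i : ℤ)) := starA_mul_le hb hsuml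
  have t4 : v (2 * c) = exp (-(e : ℤ)) := by
    rw [starA_mul h2' hc]; congr 1; ring
  -- the terms of `hprod`
  have p1 : v ((z₁ * z₂ - b) ^ 2) = exp (-(2 * i + 2 * j : ℤ)) := by
    have h3 : v (z₁ * z₂ - b) = exp (-(i : ℤ) + -(j : ℤ)) := by
      rw [Valuation.map_sub_eq_of_lt_left, h12]
      rw [h12]
      exact hb.trans_lt (exp_lt_exp.mpr (by omega))
    rw [pow_two, starA_mul h3 h3]; congr 1; ring
  have hzle : v (z₁ + z₂ + a) ≤ exp 0 :=
    starA_add_le hsuml ha'.le (by omega) le_rfl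
  have p2 : v (4 * c * (z₁ + z₂ + a)) ≤ exp (-(e : ℤ)) := by
    have h3 := starA_mul_le (starA_mul h4' hc).le hzle
    refine h3.trans (exp_le_exp.mpr ?_)
    omega
  rcases Nat.eq_zero_or_pos i with hi0 | hi0
  · -- the case `i = 0`
    subst hi0
    have q1 : v ((z₁ * z₂ - b) ^ 2 - 4 * c * (z₁ + z₂ + a)) = exp (-(2 * j : ℤ)) := by
      rw [Valuation.map_sub_eq_of_lt_left, p1]
      · congr 1; push_cast; ring
      · rw [p1]
        refine p2.trans_lt (exp_lt_exp.mpr ?_)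
        push_cast; omega
    have q2 : v (s * t) = exp (-(j : ℤ)) ^ 2 := by
      have h3 := congrArg v hprod
      rw [map_mul, hd2, q1] at h3
      rw [starA_div h3, ← exp_nsmul]
      congr 1
      simp only [nsmul_eq_mul]
      push_cast
      ring
    have q3 : v (s + t) ≤ exp (-(j : ℤ)) := by
      have h3 := congrArg v hsum
      have h4 : v (2 * (z₁ * z₂ * (z₁ + z₂) + 2 * a * z₁ * z₂ + b * (z₁ + z₂) + 2 * c)) ≤
          exp (0 + -(j : ℤ)) := by
        refine starA_mul_le h2'.le ?_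
        refine starA_add_le (starA_add_le (r := -(j : ℤ)) (starA_add_le (r := -(j : ℤ)) t1 t2.le
          ?_ ?_) t3 ?_ ?_) t4.le ?_ ?_
        all_goals push_cast
        all_goals omega
      rw [← h3, map_mul, hd2] at h4
      have h5 := starA_div_le h4
      refine h5.trans (exp_le_exp.mpr ?_)
      push_cast; omega
    have q4 : v s ≤ exp (-(j : ℤ)) := GT.root_le v q3 q2.le
    have q5 : v t ≤ exp (-(j : ℤ)) := GT.root_le v (by rwa [add_comm]) (by rw [mul_comm]; exact q2.le)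
    rw [map_mul] at q2
    have q6 : v s = exp (-(j : ℤ)) := by
      refine le_antisymm q4 (not_lt.mp fun hlt => ?_)
      have h3 : v s * v t < exp (-(j : ℤ)) ^ 2 := by
        rw [pow_two]
        exact (mul_le_mul' le_rfl q5).trans_lt (mul_lt_mul_of_pos_right hlt exp_pos)
      exact absurd q2 h3.ne
    have q7 : v t = exp (-(j : ℤ)) := by
      rw [q6, pow_two] at q2
      exact mul_left_cancel₀ exp_ne_zero q2
    left
    rw [q6, q7, bet_exp (by omega), min_eq_left (by push_cast; omega)]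
    push_cast
    constructor <;> ring
  · -- the case `0 < i`
    have hI1 : (0 : ℤ) < i := by exact_mod_cast hi0
    have hz1 : v (z₁ + z₂ + a) = exp 0 := by
      rw [Valuation.map_add_eq_of_lt_right, ha']
      rw [ha']
      exact hsuml.trans_lt (exp_lt_exp.mpr (by omega))
    have p3 : v (4 * c * (z₁ + z₂ + a)) = exp (-(e : ℤ)) := by
      rw [starA_mul (starA_mul h4' hc) hz1]
      congr 1; ring
    have q1 : v (s + t) = exp (-((j : ℤ) - i)) := by
      have h3 := congrArg v hsum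
      have h4 : v (z₁ * z₂ * (z₁ + z₂) + 2 * a * z₁ * z₂ + b * (z₁ + z₂) + 2 * c) =
          exp (-(i : ℤ) + -(j : ℤ)) := by
        have e1 : z₁ * z₂ * (z₁ + z₂) + 2 * a * z₁ * z₂ + b * (z₁ + z₂) + 2 * c =
            2 * a * z₁ * z₂ + (z₁ * z₂ * (z₁ + z₂) + b * (z₁ + z₂) + 2 * c) := by ring
        rw [e1, Valuation.map_add_eq_of_lt_left, t2]
        rw [t2]
        have h5 : v (z₁ * z₂ * (z₁ + z₂) + b * (z₁ + z₂) + 2 * c) ≤
            exp (-(i : ℤ) + -(j : ℤ) - 1) :=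
          starA_add_le (starA_add_le (r := -(i : ℤ) + -(j : ℤ) - 1) t1 t3 (by omega) (by omega))
            t4.le le_rfl (by omega)
        exact h5.trans_lt (exp_lt_exp.mpr (by omega))
      rw [map_mul, map_mul, hd2, h4, h2', ← exp_add] at h3
      rw [starA_div h3]
      congr 1; ring
    have hst : v ((z₁ - z₂) ^ 2) * v (s * t) =
        v ((z₁ * z₂ - b) ^ 2 - 4 * c * (z₁ + z₂ + a)) := by rw [← map_mul, hprod]
    rw [hd2] at hst
    have clt : 2 * (i + j) < e → v (s * t) = exp (-(2 * (j : ℤ))) := by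
      intro hlt
      rw [Valuation.map_sub_eq_of_lt_left, p1] at hst
      · rw [starA_div hst]; congr 1; ring
      · rw [p1, p3]
        exact exp_lt_exp.mpr (by omega)
    have cgt : e < 2 * (i + j) → v (s * t) = exp (-((e : ℤ) - 2 * i)) := by
      intro hlt
      rw [Valuation.map_sub_eq_of_lt_right, p3] at hst
      · rw [starA_div hst]; congr 1; ring
      · rw [p1, p3]
        exact exp_lt_exp.mpr (by omega)
    have ceq : e = 2 * (i + j) → v (s * t) ≤ exp (-((e : ℤ) - 2 * i)) := by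
      intro heq
      have h3 : v ((z₁ * z₂ - b) ^ 2 - 4 * c * (z₁ + z₂ + a)) ≤ exp (-(e : ℤ)) := by
        refine (v.map_sub _ _).trans (max_le ?_ p3.le)
        rw [p1]
        exact exp_le_exp.mpr (by omega)
      rw [← hst] at h3
      refine (starA_div_le h3).trans (exp_le_exp.mpr ?_)
      omega
    have hsmall : v (s * t) < exp (-((j : ℤ) - i)) ^ 2 := by
      have e1 : (exp (-((j : ℤ) - i)) : ℤᵐ⁰) ^ 2 = exp (-(2 * ((j : ℤ) - i))) := by
        rw [← exp_nsmul]; congr 1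
        simp only [nsmul_eq_mul]
        push_cast
        ring
      rw [e1]
      rcases lt_trichotomy (2 * (i + j)) e with h3 | h3 | h3
      · rw [clt h3]; exact exp_lt_exp.mpr (by omega)
      · exact (ceq h3.symm).trans_lt (exp_lt_exp.mpr (by omega))
      · rw [cgt h3]; exact exp_lt_exp.mpr (by omega)
    rcases lt_trichotomy (v s) (v t) with h3 | h3 | h3
    · right
      have q1' : v (t + s) = exp (-((j : ℤ) - i)) := by rw [add_comm]; exact q1
      exact starA_aux hij hj h3 q1' (fun h => by rw [mul_comm]; exact clt h)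
        (fun h => by rw [mul_comm]; exact cgt h) (fun h => by rw [mul_comm]; exact ceq h)
    · exfalso
      have h4 : exp (-((j : ℤ) - i)) ≤ v s := by
        rw [← q1]
        refine (v.map_add _ _).trans (max_le le_rfl h3.ge)
      have h5 : exp (-((j : ℤ) - i)) ^ 2 ≤ v (s * t) := by
        rw [map_mul, ← h3, ← pow_two]
        exact pow_le_pow_left₀ zero_le h4 2
      exact absurd hsmall (not_lt.mpr h5)
    · left
      exact starA_aux hij hj h3 q1 clt cgt ceq

end Pool.Agent.Lib.FL60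
end

section

set_option autoImplicit false
set_option linter.unusedSectionVars false
set_option linter.unusedVariables false

namespace Pool.Agent.Lib.FL60

open WithZero Pool.Agent.Lib.FM60

private lemma starB_root {L : Type*} [Field L] {v : Valuation L ℤᵐ⁰} {s t : L} {J : ℤᵐ⁰}
    (h1 : v (s + t) ^ 2 ≤ J) (h2 : v (s * t) ≤ J) : v s ^ 2 ≤ J := by
  by_contra h
  rw [not_le] at h
  have e : s ^ 2 = (s + t) * s - s * t := by ring
  have h4 : v (s + t) < v s := lt_of_pow_lt_pow_left₀ 2 zero_le (h1.trans_lt h)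
  have hs0 : 0 < v s := lt_of_le_of_lt zero_le h4
  have h3 : v (s ^ 2) < v s ^ 2 := by
    rw [e]
    refine (v.map_sub _ _).trans_lt (max_lt ?_ (h2.trans_lt h))
    rw [map_mul, pow_two]
    exact mul_lt_mul_of_pos_right h4 hs0
  rw [map_pow] at h3
  exact lt_irrefl _ h3

private lemma starB_eq {J x y : ℤᵐ⁰} (hJ : 0 < J) (hx : x ^ 2 ≤ J) (hy : y ^ 2 ≤ J) (hxy : x * y = J) :
    x ^ 2 = J := by
  refine le_antisymm hx ?_
  by_contra h
  rw [not_le] at h
  have h1 : J * J = x ^ 2 * y ^ 2 := by rw [← hxy, ← mul_pow, pow_two]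
  have h2 : x ^ 2 * y ^ 2 < J * J :=
    (mul_le_mul' le_rfl hy).trans_lt (mul_lt_mul_of_pos_right h hJ)
  rw [← h1] at h2
  exact lt_irrefl _ h2

/-- JOB L02 (StarB), first part. One point below height `e/2`, the other one at height `≥ e/2`.

PROOF. `v z₂ < v z₁ = exp (-i)`, because `v z₂ ^ 2 ≤ exp (-e) < exp (-2i)`. So
`v (z₁ - z₂) = exp (-i)`. From `hsum`: all terms on the right have `v x ^ 2 ≤ exp (-(e + 2i))`
(`v (z₁ z₂)² ≤ exp (-2i-e)`, the others even smaller since `v b, v c ≤ exp (-e)`, `2i < e`), so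
`v (s + t) ^ 2 ≤ exp (-(e - 2i))`. From `hprod`: `v (z₁ z₂ - b)² ≤ max (exp (-2i-e), exp (-2e))`,
`v (4c(z₁ + z₂ + a)) ≤ exp (-e)`, so `v (s t) ≤ exp (-(e - 2i))`. Then `v s ^ 2 ≤ exp (-(e - 2i))` and
the same for `t` (the argument of `GT.root_le`: `s² = (s+t)s - st`; if `v s ^ 2 > exp (-(e-2i))`
then `v (s+t) < v s`, hence `v ((s+t)s) < v s ^ 2` and `v (s t) < v s ^ 2`, contradiction).
If `i = 0` this says that both `bet` are `e`. If `i > 0`: `v (z₁ + z₂ + a) = 1`,
`v ((z₁z₂ - b)²) < exp (-e)`, so `v (s t) = exp (-(e-2i))` exactly, and with the two inequalities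
`v s ^ 2 = v t ^ 2 = exp (-(e - 2i))`: so `e` is even, `v s = v t = exp (-(e/2 - i))`,
`bet = 2 (e/2 - i) = e - 2i`. -/
theorem star_mixed {L : Type*} [Field L] {v : Valuation L ℤᵐ⁰} {a b c : L} {e : ℕ}
    (h : NodeH v a b c (exp (-(e : ℤ)))) {z₁ z₂ s t : L} {i : ℕ}
    (hi : 2 * i < e) (h1 : v z₁ = exp (-(i : ℤ))) (h2 : v z₂ ^ 2 ≤ exp (-(e : ℤ)))
    (hs : v s ≤ 1) (ht : v t ≤ 1)
    (hsum : (z₁ - z₂) ^ 2 * (s + t) =
      2 * (z₁ * z₂ * (z₁ + z₂) + 2 * a * z₁ * z₂ + b * (z₁ + z₂) + 2 * c))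
    (hprod : (z₁ - z₂) ^ 2 * (s * t) = (z₁ * z₂ - b) ^ 2 - 4 * c * (z₁ + z₂ + a)) :
    bet e (v s) = e - 2 * i ∧ bet e (v t) = e - 2 * i := by
  set E : ℤᵐ⁰ := exp (-(e : ℤ)) with hE
  set I : ℤᵐ⁰ := exp (-(i : ℤ)) with hI
  set J : ℤᵐ⁰ := exp (-((e : ℤ) - 2 * i)) with hJ
  have hE0 : 0 < E := h.pos
  have hI0 : 0 < I := exp_pos
  have hJ0 : 0 < J := exp_pos
  have hI1 : I ≤ 1 := by
    rw [hI, ← exp_zero, exp_le_exp]; omega
  have hIJ : I ^ 2 * J = E := by
    rw [hI, hJ, hE, ← exp_nsmul, ← exp_add]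
    congr 1
    simp
    ring
  have hEI : E < I ^ 2 := by
    rw [hI, hE, ← exp_nsmul, exp_lt_exp]
    simp
    omega
  have hEI' : E ≤ I := by
    rw [hI, hE, exp_le_exp]; omega
  have hz : v z₂ < I := lt_of_pow_lt_pow_left₀ 2 zero_le (h2.trans_lt hEI)
  have hsub : v (z₁ - z₂) = I := by
    rw [Valuation.map_sub_eq_of_lt_left _ (by rw [h1]; exact hz), h1]
  have hadd : v (z₁ + z₂) = I := by
    rw [Valuation.map_add_eq_of_lt_left _ (by rw [h1]; exact hz), h1]
  have hμ : (max (I * v z₂) E) ^ 2 ≤ I ^ 2 * E := by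
    rcases le_total (I * v z₂) E with h3 | h3
    · rw [max_eq_right h3, pow_two]
      exact mul_le_mul' hEI.le le_rfl
    · rw [max_eq_left h3, mul_pow]
      exact mul_le_mul' le_rfl h2
  have hz12 : v (z₁ * z₂) = I * v z₂ := by rw [map_mul, h1]
  -- the sum
  have hS : v (s + t) ^ 2 ≤ J := by
    have h3 : v (2 * (z₁ * z₂ * (z₁ + z₂) + 2 * a * z₁ * z₂ + b * (z₁ + z₂) + 2 * c)) ≤
        max (I * v z₂) E := by
      rw [map_mul, h.two, one_mul]
      refine v.map_add_le (v.map_add_le (v.map_add_le ?_ ?_) ?_) ?_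
      · rw [map_mul, hz12, hadd]
        exact le_max_of_le_left (mul_le_of_le_one_right' hI1)
      · have e1 : 2 * a * z₁ * z₂ = 2 * a * (z₁ * z₂) := by ring
        rw [e1, map_mul, map_mul, h.two, h.ha, hz12, one_mul, one_mul]
        exact le_max_left _ _
      · rw [map_mul, hadd]
        exact le_max_of_le_right ((mul_le_mul' h.hb hI1).trans (mul_one _).le)
      · rw [map_mul, h.two, h.hc, one_mul]
        exact le_max_right _ _
    rw [← hsum, map_mul, map_pow, hsub] at h3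
    have h4 : (I ^ 2 * v (s + t)) ^ 2 ≤ I ^ 2 * E := (pow_le_pow_left₀ zero_le h3 2).trans hμ
    have h5 : I ^ 4 * v (s + t) ^ 2 ≤ I ^ 4 * J := by
      calc I ^ 4 * v (s + t) ^ 2 = (I ^ 2 * v (s + t)) ^ 2 := by rw [mul_pow, ← pow_mul]
        _ ≤ I ^ 2 * E := h4
        _ = I ^ 4 * J := by rw [← hIJ, ← mul_assoc, ← pow_add]
    exact le_of_mul_le_mul_left h5 (pow_pos hI0 4)
  have hq : v ((z₁ * z₂ - b) ^ 2) ≤ I ^ 2 * E := by
    rw [map_pow]
    refine (pow_le_pow_left₀ zero_le ?_ 2).trans hμ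
    refine (v.map_sub _ _).trans (max_le_max ?_ h.hb)
    rw [hz12]
  have hI2 : I ^ 2 ≤ 1 := pow_le_one₀ zero_le hI1
  have hP : v (s * t) ≤ J := by
    have h3 : v ((z₁ * z₂ - b) ^ 2 - 4 * c * (z₁ + z₂ + a)) ≤ E := by
      refine (v.map_sub _ _).trans (max_le (hq.trans ?_) ?_)
      · exact (mul_le_mul' hI2 le_rfl).trans (one_mul _).le
      · rw [map_mul, map_mul, h.four, one_mul, h.hc]
        refine (mul_le_mul' le_rfl (v.map_add_le ?_ h.ha.le)).trans (mul_one _).le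
        rw [hadd]
        exact hI1
    rw [← hprod, map_mul, map_pow, hsub, ← hIJ] at h3
    exact le_of_mul_le_mul_left h3 (pow_pos hI0 2)
  have hs2 : v s ^ 2 ≤ J := starB_root hS hP
  have ht2 : v t ^ 2 ≤ J := starB_root (by rw [add_comm]; exact hS) (by rw [mul_comm]; exact hP)
  have hEJ : E ≤ J := by
    rw [← hIJ]
    exact (mul_le_mul' hI2 le_rfl).trans (one_mul _).le
  rcases Nat.eq_zero_or_pos i with hi0 | hi0
  · have hJE : J = E := by rw [hJ, hE, hi0]; simp
    rw [hJE] at hs2 ht2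
    rw [bet_of_sq_le hs2, bet_of_sq_le ht2, hi0]
    simp
  · have hI1' : I < 1 := by
      rw [hI, ← exp_zero, exp_lt_exp]; omega
    have hP' : v (s * t) = J := by
      have h4 : v (4 * c * (z₁ + z₂ + a)) = E := by
        have h5 : v (z₁ + z₂ + a) = 1 := by
          rw [Valuation.map_add_eq_of_lt_right _ (by rw [hadd, h.ha]; exact hI1'), h.ha]
        rw [map_mul, map_mul, h.four, one_mul, h.hc, h5, mul_one]
      have h6 : v ((z₁ * z₂ - b) ^ 2) < v (4 * c * (z₁ + z₂ + a)) := by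
        rw [h4]
        refine hq.trans_lt ?_
        have h7 : I ^ 2 < 1 := pow_lt_one₀ zero_le hI1' two_ne_zero
        calc I ^ 2 * E < 1 * E := mul_lt_mul_of_pos_right h7 hE0
          _ = E := one_mul _
      have h3 : v ((z₁ * z₂ - b) ^ 2 - 4 * c * (z₁ + z₂ + a)) = E := by
        rw [Valuation.map_sub_eq_of_lt_right _ h6, h4]
      rw [← hprod, map_mul, map_pow, hsub, ← hIJ] at h3
      exact mul_left_cancel₀ (pow_pos hI0 2).ne' h3
    rw [map_mul] at hP'
    have e1 := starB_eq hJ0 hs2 ht2 hP'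
    have e2 := starB_eq hJ0 ht2 hs2 (by rw [mul_comm]; exact hP')
    have key : ∀ y : ℤᵐ⁰, y ^ 2 = J → bet e y = e - 2 * i := by
      intro y hy
      rw [bet, hy, max_eq_left hEJ, hJ, log_exp]
      ring
    exact ⟨key _ e1, key _ e2⟩

/-- JOB L02 (StarB), second part. Both points at height `≥ e/2`.

PROOF. `v (z₁ z₂) ≤ exp (-e)`, so `v ((z₁z₂ - b)²) ≤ exp (-2e) < exp (-e)`, and
`v (4 c (z₁+z₂+a)) = exp (-e)` (`v z₁, v z₂ < 1`, `v a = 1`). So `v (z₁-z₂)² v s v t = exp (-e)`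
with `v (z₁ - z₂)² ≤ exp (-e)` and `v s, v t ≤ 1`: `v s = v t = 1`, `bet = 0` (`bet_one`). -/
theorem star_deep {L : Type*} [Field L] {v : Valuation L ℤᵐ⁰} {a b c : L} {e : ℕ}
    (h : NodeH v a b c (exp (-(e : ℤ)))) {z₁ z₂ s t : L}
    (h1 : v z₁ ^ 2 ≤ exp (-(e : ℤ))) (h2 : v z₂ ^ 2 ≤ exp (-(e : ℤ)))
    (hs : v s ≤ 1) (ht : v t ≤ 1)
    (hprod : (z₁ - z₂) ^ 2 * (s * t) = (z₁ * z₂ - b) ^ 2 - 4 * c * (z₁ + z₂ + a)) :
    bet e (v s) = 0 ∧ bet e (v t) = 0 := by
  set E : ℤᵐ⁰ := exp (-(e : ℤ)) with hE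
  have hE0 : 0 < E := h.pos
  have hE1 : E < 1 := h.lt
  have hz1 : v z₁ < 1 := lt_of_pow_lt_pow_left₀ 2 zero_le (by rw [one_pow]; exact h1.trans_lt hE1)
  have hz2 : v z₂ < 1 := lt_of_pow_lt_pow_left₀ 2 zero_le (by rw [one_pow]; exact h2.trans_lt hE1)
  have h12 : v (z₁ * z₂) ≤ E := by
    refine le_of_pow_le_pow_left₀ two_ne_zero zero_le ?_
    rw [map_mul, mul_pow, pow_two E]
    exact mul_le_mul' h1 h2
  have hq : v ((z₁ * z₂ - b) ^ 2) < E := by
    rw [map_pow]
    have h3 : v (z₁ * z₂ - b) ≤ E := (v.map_sub _ _).trans (max_le h12 h.hb)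
    calc v (z₁ * z₂ - b) ^ 2 ≤ E ^ 2 := pow_le_pow_left₀ zero_le h3 2
      _ = E * E := pow_two E
      _ < 1 * E := mul_lt_mul_of_pos_right hE1 hE0
      _ = E := one_mul _
  have h4 : v (4 * c * (z₁ + z₂ + a)) = E := by
    have h5 : v (z₁ + z₂ + a) = 1 := by
      rw [Valuation.map_add_eq_of_lt_right _ (by
        rw [h.ha]; exact v.map_add_lt hz1 hz2), h.ha]
    rw [map_mul, map_mul, h.four, one_mul, h.hc, h5, mul_one]
  have h3 : v ((z₁ * z₂ - b) ^ 2 - 4 * c * (z₁ + z₂ + a)) = E := by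
    rw [Valuation.map_sub_eq_of_lt_right _ (by rw [h4]; exact hq), h4]
  rw [← hprod, map_mul, map_pow, map_mul] at h3
  have h6 : v (z₁ - z₂) ^ 2 ≤ E := by
    have h7 := v.map_sub z₁ z₂
    rcases le_total (v z₁) (v z₂) with h8 | h8
    · rw [max_eq_right h8] at h7
      exact (pow_le_pow_left₀ zero_le h7 2).trans h2
    · rw [max_eq_left h8] at h7
      exact (pow_le_pow_left₀ zero_le h7 2).trans h1
  have h9 : 1 ≤ v s * v t := by
    by_contra h10
    rw [not_le] at h10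
    have h11 : v (z₁ - z₂) ^ 2 * (v s * v t) < E := by
      calc v (z₁ - z₂) ^ 2 * (v s * v t) ≤ E * (v s * v t) := mul_le_mul' h6 le_rfl
        _ < E * 1 := mul_lt_mul_of_pos_left h10 hE0
        _ = E := mul_one _
    rw [h3] at h11
    exact lt_irrefl _ h11
  have hs1 : v s = 1 := le_antisymm hs (h9.trans ((mul_le_mul' le_rfl ht).trans (mul_one _).le))
  have ht1 : v t = 1 := le_antisymm ht (h9.trans ((mul_le_mul' hs le_rfl).trans (one_mul _).le))
  rw [hs1, ht1]
  exact ⟨bet_one, bet_one⟩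

end Pool.Agent.Lib.FL60
end

section

set_option autoImplicit false
set_option linter.unusedSectionVars false
set_option linter.unusedVariables false

namespace Pool.Agent.Lib.FL60

open WithZero Pool.Agent.Lib.FM60

section StarCAux

variable {L : Type*} [Field L] {v : Valuation L ℤᵐ⁰}

private lemma starC_me {x y : L} {m n k : ℤ} (h1 : v x = exp m) (h2 : v y = exp n)
    (h : m + n = k) : v (x * y) = exp k := by
  rw [map_mul, h1, h2, ← exp_add, h]

private lemma starC_ml {x y : L} {m n k : ℤ} (h1 : v x ≤ exp m) (h2 : v y ≤ exp n)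
    (h : m + n ≤ k) : v (x * y) ≤ exp k := by
  rw [map_mul]
  refine (mul_le_mul' h1 h2).trans ?_
  rw [← exp_add, exp_le_exp]
  exact h

private lemma starC_al {x y : L} {k : ℤ} (h1 : v x ≤ exp k) (h2 : v y ≤ exp k) :
    v (x + y) ≤ exp k := (v.map_add _ _).trans (max_le h1 h2)

private lemma starC_ae {x y : L} {m n : ℤ} (h1 : v x = exp m) (h2 : v y ≤ exp n) (h : n < m) :
    v (x + y) = exp m := by
  rw [Valuation.map_add_eq_of_lt_left, h1]
  rw [h1]
  exact h2.trans_lt (exp_lt_exp.2 h)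

private lemma starC_sn {x : L} {m : ℤ} (h1 : v x = exp m) : v (-x) = exp m := by
  rw [Valuation.map_neg, h1]

private lemma starC_snl {x : L} {m : ℤ} (h1 : v x ≤ exp m) : v (-x) ≤ exp m := by
  rw [Valuation.map_neg]; exact h1

private lemma starC_mono {x : L} {m n : ℤ} (h1 : v x ≤ exp m) (h : m ≤ n) : v x ≤ exp n :=
  h1.trans (exp_le_exp.2 h)

private lemma starC_log {x : L} (hx : v x ≠ 0) : ∃ m : ℤ, v x = exp m :=
  ⟨log (v x), (exp_log hx).symm⟩

/-- The common part: the value from the quotient. -/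
private lemma starC_key {e i : ℕ} (hi : 2 * i < e) {X Y q w : L}
    (hX : v X = exp (-(4 * i : ℤ))) (hY : v Y = exp (-(e : ℤ))) (hq : v q = exp (-(2 * i : ℤ)))
    (h : q * w = X - Y) : bet e (v w) = min (4 * i) (2 * e - 4 * i) := by
  have hqw : v q * v w = v (X - Y) := by rw [← map_mul, h]
  rcases lt_trichotomy (4 * i) e with h4 | h4 | h4
  · have h5 : v (X - Y) = exp (-(4 * i : ℤ)) := by
      rw [sub_eq_add_neg]
      exact starC_ae hX (starC_snl hY.le) (by omega)
    have hw : v w ≠ 0 := by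
      intro h0
      rw [h0, mul_zero, h5] at hqw
      exact exp_ne_zero hqw.symm
    obtain ⟨m, hm⟩ := starC_log hw
    rw [hq, hm, h5, ← exp_add, exp_inj] at hqw
    have hm' : m = -((2 * i : ℕ) : ℤ) := by push_cast; omega
    rw [hm, hm', bet_exp (by omega), min_eq_left (by omega)]
    push_cast
    ring
  · have h5 : v (X - Y) ≤ exp (-(4 * i : ℤ)) := by
      rw [sub_eq_add_neg]
      refine starC_al hX.le (starC_snl (starC_mono hY.le (by omega)))
    have h6 : v w ^ 2 ≤ exp (-(e : ℤ)) := by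
      by_cases hw : v w = 0
      · rw [hw]; simp
      · obtain ⟨m, hm⟩ := starC_log hw
        rw [← hqw, hq, hm, ← exp_add, exp_le_exp] at h5
        rw [hm, ← exp_nsmul, exp_le_exp]
        simp only [nsmul_eq_mul, Nat.cast_ofNat]
        omega
    rw [bet_of_sq_le h6, min_eq_left (by omega)]
    omega
  · have h5 : v (X - Y) = exp (-(e : ℤ)) := by
      rw [show X - Y = -Y + X by ring]
      exact starC_ae (starC_sn hY) hX.le (by omega)
    have hw : v w ≠ 0 := by
      intro h0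
      rw [h0, mul_zero, h5] at hqw
      exact exp_ne_zero hqw.symm
    obtain ⟨m, hm⟩ := starC_log hw
    rw [hq, hm, h5, ← exp_add, exp_inj] at hqw
    have hm' : m = -((e - 2 * i : ℕ) : ℤ) := by omega
    rw [hm, hm', bet_exp (by omega), min_eq_right (by omega)]
    omega

end StarCAux

/-- JOB L03 (StarC), first part. Two points at the same height `i`, `0 < i < e/2`.

PROOF. In `hsum` the term `2 a z₁ z₂` (times 2; `v 2 = v 4 = v a = 1`, `NodeH.four`) has valuation
exactly `exp (-2i)`, the other terms are smaller (`z₁ z₂ (z₁+z₂)`: `≤ exp (-3i)`; `b (z₁+z₂)`: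
`≤ exp (-(e+i))`; `2c`: `exp (-e)`, `2i < e`), so `v (z₁-z₂)² v (s+t) = exp (-2i)`. As
`v (z₁ - z₂) ≤ exp (-i)` and `v (s + t) ≤ 1`, we get `v (z₁ - z₂) = exp (-i)` and `v (s + t) = 1`.
So one of `v s, v t` is `1` (otherwise `v (s+t) < 1`), say `v s = 1` (`bet = 0`). From `hprod`:
`v ((z₁z₂ - b)²) = exp (-4i)` (`v b ≤ exp (-e) < exp (-2i)`), `v (4c(z₁+z₂+a)) = exp (-e)`
(`v (z₁ + z₂ + a) = 1`), so `v t = v (s t)` is `exp (-2i)` if `4i < e`, `exp (-(e-2i))` if `4i > e`,
and `≤ exp (-2i)` if `4 i = e`: `bet e (v t) = min (4i) (2e - 4i)` by `bet_exp` and `bet_of_sq_le`. -/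
theorem star_same {L : Type*} [Field L] {v : Valuation L ℤᵐ⁰} {a b c : L} {e : ℕ}
    (h : NodeH v a b c (exp (-(e : ℤ)))) {z₁ z₂ s t : L} {i : ℕ} (hi0 : 0 < i)
    (hi : 2 * i < e) (h1 : v z₁ = exp (-(i : ℤ))) (h2 : v z₂ = exp (-(i : ℤ)))
    (hs : v s ≤ 1) (ht : v t ≤ 1)
    (hsum : (z₁ - z₂) ^ 2 * (s + t) =
      2 * (z₁ * z₂ * (z₁ + z₂) + 2 * a * z₁ * z₂ + b * (z₁ + z₂) + 2 * c))
    (hprod : (z₁ - z₂) ^ 2 * (s * t) = (z₁ * z₂ - b) ^ 2 - 4 * c * (z₁ + z₂ + a)) :
    (bet e (v s) = 0 ∧ bet e (v t) = min (4 * i) (2 * e - 4 * i)) ∨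
    (bet e (v t) = 0 ∧ bet e (v s) = min (4 * i) (2 * e - 4 * i)) := by
  have hv0 : ∀ x : L, v x = 1 → v x = exp (0 : ℤ) := fun x hx => by rw [hx, exp_zero]
  have htwo := hv0 _ h.two
  have hfour := hv0 _ h.four
  have ha := hv0 _ h.ha
  have hi1 : 1 ≤ i := hi0
  -- the sum
  have e1 : v (2 * a * z₁ * z₂) = exp (-(2 * i : ℤ)) :=
    starC_me (starC_me (starC_me htwo ha (k := 0) (by omega)) h1 (k := -(i : ℤ)) (by omega)) h2
      (by omega)
  have hz12 : v (z₁ + z₂) ≤ exp (-(i : ℤ)) := starC_al h1.le h2.le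
  have e2 : v (z₁ * z₂ * (z₁ + z₂) + b * (z₁ + z₂) + 2 * c) ≤ exp (-(2 * i : ℤ) - 1) := by
    refine starC_al (starC_al ?_ ?_) ?_
    · exact starC_ml (starC_ml h1.le h2.le le_rfl) hz12 (by omega)
    · exact starC_ml h.hb hz12 (by omega)
    · exact starC_ml htwo.le h.hc.le (by omega)
  have e3 : v ((z₁ - z₂) ^ 2 * (s + t)) = exp (-(2 * i : ℤ)) := by
    rw [hsum]
    refine starC_me htwo ?_ (m := 0) (n := -(2 * i : ℤ)) (by omega)
    rw [show z₁ * z₂ * (z₁ + z₂) + 2 * a * z₁ * z₂ + b * (z₁ + z₂) + 2 * c =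
      2 * a * z₁ * z₂ + (z₁ * z₂ * (z₁ + z₂) + b * (z₁ + z₂) + 2 * c) by ring]
    exact starC_ae e1 e2 (by omega)
  have hd : v (z₁ - z₂) ≤ exp (-(i : ℤ)) := by
    rw [sub_eq_add_neg]
    exact starC_al h1.le (starC_snl h2.le)
  have hst : v (s + t) ≤ exp (0 : ℤ) := by
    rw [exp_zero]
    exact (v.map_add _ _).trans (max_le hs ht)
  rw [map_mul, map_pow] at e3
  have hd0 : v (z₁ - z₂) ≠ 0 := by
    intro h0
    rw [h0, zero_pow two_ne_zero, zero_mul] at e3
    exact exp_ne_zero e3.symm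
  have hst0 : v (s + t) ≠ 0 := by
    intro h0
    rw [h0, mul_zero] at e3
    exact exp_ne_zero e3.symm
  obtain ⟨m, hm⟩ := starC_log hd0
  obtain ⟨n, hn⟩ := starC_log hst0
  rw [hm, exp_le_exp] at hd
  rw [hn, exp_le_exp] at hst
  rw [hm, hn, ← exp_nsmul, ← exp_add, exp_inj, nsmul_eq_mul, Nat.cast_ofNat] at e3
  have hm' : m = -(i : ℤ) := by omega
  have hn' : n = 0 := by omega
  have hq : v ((z₁ - z₂) ^ 2) = exp (-(2 * i : ℤ)) := by
    rw [map_pow, hm, ← exp_nsmul, exp_inj, nsmul_eq_mul, Nat.cast_ofNat]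
    omega
  have hst1 : v (s + t) = 1 := by rw [hn, hn', exp_zero]
  -- the product
  have f1 : v ((z₁ * z₂ - b) ^ 2) = exp (-(4 * i : ℤ)) := by
    have f0 : v (z₁ * z₂ - b) = exp (-(2 * i : ℤ)) := by
      rw [sub_eq_add_neg]
      exact starC_ae (starC_me h1 h2 (by omega)) (starC_snl h.hb) (by omega)
    rw [pow_two]
    exact starC_me f0 f0 (by omega)
  have f2 : v (4 * c * (z₁ + z₂ + a)) = exp (-(e : ℤ)) := by
    refine starC_me (starC_me hfour h.hc (k := -(e : ℤ)) (by omega)) (n := 0) ?_ (by omega)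
    rw [add_comm]
    exact starC_ae ha hz12 (by omega)
  have f3 : bet e (v (s * t)) = min (4 * i) (2 * e - 4 * i) := starC_key hi f1 f2 hq hprod
  by_cases hs1 : v s = 1
  · left
    rw [map_mul, hs1, one_mul] at f3
    exact ⟨by rw [hs1]; exact bet_one, f3⟩
  · by_cases ht1 : v t = 1
    · right
      rw [map_mul, ht1, mul_one] at f3
      exact ⟨by rw [ht1]; exact bet_one, f3⟩
    · exfalso
      have h5 := (v.map_add s t).trans_lt
        (max_lt (lt_of_le_of_ne hs hs1) (lt_of_le_of_ne ht ht1))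
      exact h5.ne hst1

/-- JOB L03 (StarC), second part. Duplication of a point of height `i`, `0 < i < e/2`
(`y` is the ordinate of the point, `t` the abscissa of its double).

PROOF. `y² = z² (z + a) + (b z + c)` has valuation exactly `exp (-2i)` (`v (z + a) = 1`,
`v (b z + c) ≤ exp (-e) < exp (-2i)`). The numerator `z⁴ - 2bz² - 8cz + b² - 4ac`: `v (z⁴) = exp (-4i)`,
`v (4 a c) = exp (-e)`, all the others are `< exp (-e)`. So `v t` is `exp (-(min (4i) e) + 2i)` if
`4 i ≠ e`, and `≤ exp (-2i)` if `4 i = e`. -/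
theorem star_dbl {L : Type*} [Field L] {v : Valuation L ℤᵐ⁰} {a b c : L} {e : ℕ}
    (h : NodeH v a b c (exp (-(e : ℤ)))) {z y t : L} {i : ℕ} (hi0 : 0 < i)
    (hi : 2 * i < e) (h1 : v z = exp (-(i : ℤ)))
    (hy : y ^ 2 = z ^ 3 + a * z ^ 2 + b * z + c)
    (hd : 4 * y ^ 2 * t = z ^ 4 - 2 * b * z ^ 2 - 8 * c * z + b ^ 2 - 4 * a * c) :
    y ≠ 0 ∧ bet e (v t) = min (4 * i) (2 * e - 4 * i) := by
  have hv0 : ∀ x : L, v x = 1 → v x = exp (0 : ℤ) := fun x hx => by rw [hx, exp_zero]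
  have htwo := hv0 _ h.two
  have hfour := hv0 _ h.four
  have ha := hv0 _ h.ha
  have height : v (8 : L) = exp (0 : ℤ) := by
    rw [show (8 : L) = 2 * 4 by norm_num]
    exact starC_me htwo hfour (by omega)
  have hza : v (z + a) = exp (0 : ℤ) := by
    rw [add_comm]
    exact starC_ae ha h1.le (by omega)
  have hz2 : v (z * z) = exp (-(2 * i : ℤ)) := starC_me h1 h1 (by omega)
  have hy2 : v (y ^ 2) = exp (-(2 * i : ℤ)) := by
    rw [hy, show z ^ 3 + a * z ^ 2 + b * z + c = (z * z) * (z + a) + (b * z + c) by ring]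
    refine starC_ae (starC_me hz2 hza (by omega)) (n := -(e : ℤ)) ?_ (by omega)
    exact starC_al (starC_ml h.hb h1.le (by omega)) h.hc.le
  have hy0 : y ≠ 0 := by
    rintro rfl
    rw [map_pow, map_zero] at hy2
    exact exp_ne_zero (hy2.symm.trans (by simp))
  have hX : v ((z * z) * (z * z)) = exp (-(4 * i : ℤ)) := starC_me hz2 hz2 (by omega)
  have hY : v (4 * a * c + (2 * b * (z * z) + 8 * c * z + -(b * b))) = exp (-(e : ℤ)) := by
    refine starC_ae (starC_me (starC_me hfour ha (k := 0) (by omega)) h.hc (by omega))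
      (n := -(e : ℤ) - 1) ?_ (by omega)
    refine starC_al (starC_al ?_ ?_) (starC_snl ?_)
    · exact starC_ml (starC_ml htwo.le h.hb le_rfl) hz2.le (by omega)
    · exact starC_ml (starC_ml height.le h.hc.le le_rfl) h1.le (by omega)
    · exact starC_ml h.hb h.hb (by omega)
  refine ⟨hy0, starC_key hi hX hY (q := 4 * y ^ 2) (starC_me hfour hy2 (by omega)) ?_⟩
  rw [hd]
  ring

/-- JOB L03 (StarC), third part. Duplication of a point of height `≥ e/2`.

PROOF. `v (y²) ≤ exp (-e)` (`y² = z² (z + a) + b z + c`). The numerator has valuation exactly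
`exp (-e)` (the term `4 a c`; `v (z⁴) ≤ exp (-2e)` and so on). So `v t ≥ 1`, and `v t = 1`. -/
theorem star_dbl_deep {L : Type*} [Field L] {v : Valuation L ℤᵐ⁰} {a b c : L} {e : ℕ}
    (h : NodeH v a b c (exp (-(e : ℤ)))) {z y t : L}
    (h1 : v z ^ 2 ≤ exp (-(e : ℤ))) (ht : v t ≤ 1)
    (hy : y ^ 2 = z ^ 3 + a * z ^ 2 + b * z + c)
    (hd : 4 * y ^ 2 * t = z ^ 4 - 2 * b * z ^ 2 - 8 * c * z + b ^ 2 - 4 * a * c) :
    bet e (v t) = 0 := by
  have hv0 : ∀ x : L, v x = 1 → v x = exp (0 : ℤ) := fun x hx => by rw [hx, exp_zero]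
  have htwo := hv0 _ h.two
  have hfour := hv0 _ h.four
  have ha := hv0 _ h.ha
  have height : v (8 : L) = exp (0 : ℤ) := by
    rw [show (8 : L) = 2 * 4 by norm_num]
    exact starC_me htwo hfour (by omega)
  have he : (0 : ℤ) < e := by
    have := h.lt
    rw [← exp_zero, exp_lt_exp] at this
    omega
  have hz1 : v z ≤ exp (-1 : ℤ) := by
    by_cases hz : v z = 0
    · rw [hz]; exact zero_le
    · obtain ⟨m, hm⟩ := starC_log hz
      rw [hm, ← exp_nsmul, exp_le_exp, nsmul_eq_mul, Nat.cast_ofNat] at h1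
      rw [hm, exp_le_exp]
      omega
  have hz2 : v (z * z) ≤ exp (-(e : ℤ)) := by
    rw [map_mul, ← pow_two]; exact h1
  have hza : v (z + a) ≤ exp (0 : ℤ) := starC_al (starC_mono hz1 (by omega)) ha.le
  have hy2 : v (y ^ 2) ≤ exp (-(e : ℤ)) := by
    rw [hy, show z ^ 3 + a * z ^ 2 + b * z + c = (z * z) * (z + a) + (b * z + c) by ring]
    refine starC_al (starC_ml hz2 hza (by omega)) (starC_al ?_ h.hc.le)
    exact starC_ml h.hb hz1 (by omega)
  have hN : v (4 * y ^ 2 * t) = exp (-(e : ℤ)) := by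
    rw [hd, show z ^ 4 - 2 * b * z ^ 2 - 8 * c * z + b ^ 2 - 4 * a * c =
      -(4 * a * c) + ((z * z) * (z * z) + -(2 * b * (z * z)) + -(8 * c * z) + b * b) by ring]
    refine starC_ae (starC_sn (starC_me (starC_me hfour ha (k := 0) (by omega)) h.hc (by omega)))
      (n := -(e : ℤ) - 1) ?_ (by omega)
    refine starC_al (starC_al (starC_al ?_ (starC_snl ?_)) (starC_snl ?_)) ?_
    · exact starC_ml hz2 hz2 (by omega)
    · exact starC_ml (starC_ml htwo.le h.hb le_rfl) hz2 (by omega)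
    · exact starC_ml (starC_ml height.le h.hc.le le_rfl) hz1 (by omega)
    · exact starC_ml h.hb h.hb (by omega)
  have h4y : v (4 * y ^ 2) ≤ exp (-(e : ℤ)) := starC_ml hfour.le hy2 (by omega)
  rw [map_mul] at hN
  have hy0 : v (4 * y ^ 2) ≠ 0 := by
    intro h0
    rw [h0, zero_mul] at hN
    exact exp_ne_zero hN.symm
  have ht0 : v t ≠ 0 := by
    intro h0
    rw [h0, mul_zero] at hN
    exact exp_ne_zero hN.symm
  obtain ⟨m, hm⟩ := starC_log hy0
  obtain ⟨n, hn⟩ := starC_log ht0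
  rw [← exp_zero, hn, exp_le_exp] at ht
  rw [hm, exp_le_exp] at h4y
  rw [hm, hn, ← exp_add, exp_inj] at hN
  have hn' : n = 0 := by omega
  rw [hn, hn', exp_zero]
  exact bet_one

end Pool.Agent.Lib.FL60
end

section

set_option autoImplicit false
set_option linter.unusedSectionVars false
set_option linter.unusedVariables false

namespace Pool.Agent.Lib.FL60

open WithZero Pool.Agent.Lib.FM60

open Classical in
/-- The height of a point. -/
noncomputable def hgt {L : Type*} [Field L] {a b c : L} {V : Type*} [AddCommGroup V]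
    (E : GT L a b c V) (v : Valuation L ℤᵐ⁰) (e : ℕ) (P : V) : ℤ :=
  if P = 0 then 0 else bet e (v (E.X P))

lemma star_hgt_zero {L : Type*} [Field L] {a b c : L} {V : Type*} [AddCommGroup V]
    (E : GT L a b c V) (v : Valuation L ℤᵐ⁰) (e : ℕ) : hgt E v e 0 = 0 := by
  simp [hgt]

lemma star_hgt_of_ne {L : Type*} [Field L] {a b c : L} {V : Type*} [AddCommGroup V]
    (E : GT L a b c V) (v : Valuation L ℤᵐ⁰) (e : ℕ) {P : V} (hP : P ≠ 0) :
    hgt E v e P = bet e (v (E.X P)) := by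
  simp [hgt, hP]

lemma star_hgt_neg {L : Type*} [Field L] {a b c : L} {V : Type*} [AddCommGroup V]
    (E : GT L a b c V) (v : Valuation L ℤᵐ⁰) (e : ℕ) (P : V) :
    hgt E v e (-P) = hgt E v e P := by
  by_cases hP : P = 0
  · simp [hP]
  · rw [star_hgt_of_ne E v e hP, star_hgt_of_ne E v e (neg_ne_zero.mpr hP), E.X_neg]

lemma star_hgt_bounds {L : Type*} [Field L] {v : Valuation L ℤᵐ⁰} {a b c : L} {e : ℕ}
    {V : Type*} [AddCommGroup V] (E : GT L a b c V)
    (hint : ∀ P : V, P ≠ 0 → v (E.X P) ≤ 1) (P : V) :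
    0 ≤ hgt E v e P ∧ hgt E v e P ≤ e := by
  by_cases hP : P = 0
  · rw [hP, star_hgt_zero]
    exact ⟨le_rfl, by positivity⟩
  · rw [star_hgt_of_ne E v e hP]
    exact ⟨bet_nonneg (hint P hP), bet_le (hint P hP)⟩

lemma star_hgt_away {L : Type*} [Field L] {v : Valuation L ℤᵐ⁰} {a b c : L} {e : ℕ}
    (h : NodeH v a b c (exp (-(e : ℤ)))) {V : Type*} [AddCommGroup V] (E : GT L a b c V)
    (hint : ∀ P : V, P ≠ 0 → v (E.X P) ≤ 1) {P : V} (hP : P ∈ E.away h) :
    hgt E v e P = 0 := by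
  rcases (E.mem_away h).mp hP with h0 | h0
  · rw [h0, star_hgt_zero]
  · by_cases hP0 : P = 0
    · rw [hP0, star_hgt_zero]
    · rw [star_hgt_of_ne E v e hP0, le_antisymm (hint P hP0) h0, bet_one]

/-- The duplication. -/
lemma star_hgt_dbl {L : Type*} [Field L] {v : Valuation L ℤᵐ⁰} {a b c : L} {e : ℕ} (he : 0 < e)
    (h : NodeH v a b c (exp (-(e : ℤ)))) {V : Type*} [AddCommGroup V] (E : GT L a b c V)
    (hint : ∀ P : V, P ≠ 0 → v (E.X P) ≤ 1) {P : V} (hP : P ≠ 0) :
    hgt E v e (P + P) = min (hgt E v e P + hgt E v e P)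
      (2 * e - (hgt E v e P + hgt E v e P)) := by
  have hx1 := hint P hP
  have hbP := star_hgt_of_ne E v e hP
  rcases bet_cases (e := e) hx1 with ⟨i, hxi, hi, hbi⟩ | ⟨hx2, hbe⟩
  · rw [hbP, hbi]
    rcases Nat.eq_zero_or_pos i with hi0 | hi0
    · have hx : v (E.X P) = 1 := by rw [hxi, hi0]; simp
      have hmem : P ∈ E.away h := (E.mem_away h).mpr (Or.inr hx.ge)
      rw [star_hgt_away h E hint ((E.away h).add_mem hmem hmem), hi0]
      simp
    · have hlt : v (E.X P) < 1 := by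
        rw [hxi, ← exp_zero, exp_lt_exp]; omega
      have hfar : exp (-(e : ℤ)) < v (E.X P) ^ 2 := by
        rw [hxi, ← exp_nsmul, exp_lt_exp]
        simp only [nsmul_eq_mul, Nat.cast_ofNat]
        omega
      have hPP : P + P ≠ 0 := by
        intro h0
        have hn : -P = P := by rw [neg_eq_iff_add_eq_zero]; exact h0
        have hY : E.Y P = -E.Y P := by
          conv_lhs => rw [← hn]
          exact E.Y_neg P
        have hY0 : 2 * E.Y P = 0 := by linear_combination hY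
        have h2 : v (2 * E.Y P) = v (E.X P) := by
          rw [map_mul, h.two, one_mul, E.node_Y h hP hlt hfar]
        rw [hY0, map_zero, hxi] at h2
        exact exp_ne_zero h2.symm
      obtain ⟨-, h2⟩ := star_dbl h hi0 hi hxi (E.eqn hP) (E.dbl' hP hPP)
      rw [star_hgt_of_ne E v e hPP, h2]
      omega
  · rw [hbP, hbe]
    have hmin : min ((e : ℤ) + e) (2 * e - (e + e)) = 0 := by
      rw [min_eq_right (by omega)]; ring
    rw [hmin]
    by_cases hPP : P + P = 0
    · rw [hPP, star_hgt_zero]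
    · rw [star_hgt_of_ne E v e hPP]
      exact star_dbl_deep h hx2 (hint _ hPP) (E.eqn hP) (E.dbl' hP hPP)

/-- The case of a lower point and a higher point. -/
lemma star_hgt_lt {L : Type*} [Field L] {v : Valuation L ℤᵐ⁰} {a b c : L} {e : ℕ}
    (h : NodeH v a b c (exp (-(e : ℤ)))) {z₁ z₂ s t : L}
    (hz1 : v z₁ ≤ 1) (hz2 : v z₂ ≤ 1) (hs : v s ≤ 1) (ht : v t ≤ 1)
    (hlt : bet e (v z₁) < bet e (v z₂))
    (hsum : (z₁ - z₂) ^ 2 * (s + t) =
      2 * (z₁ * z₂ * (z₁ + z₂) + 2 * a * z₁ * z₂ + b * (z₁ + z₂) + 2 * c))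
    (hprod : (z₁ - z₂) ^ 2 * (s * t) = (z₁ * z₂ - b) ^ 2 - 4 * c * (z₁ + z₂ + a)) :
    (bet e (v s) = |bet e (v z₁) - bet e (v z₂)| ∧ bet e (v t) =
      min (bet e (v z₁) + bet e (v z₂)) (2 * e - (bet e (v z₁) + bet e (v z₂)))) ∨
    (bet e (v t) = |bet e (v z₁) - bet e (v z₂)| ∧ bet e (v s) =
      min (bet e (v z₁) + bet e (v z₂)) (2 * e - (bet e (v z₁) + bet e (v z₂)))) := by
  rcases bet_cases (e := e) hz1 with ⟨i, hxi, hi, hbi⟩ | ⟨-, hbe⟩
  · rcases bet_cases (e := e) hz2 with ⟨j, hxj, hj, hbj⟩ | ⟨hx2, hbe⟩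
    · rw [hbi, hbj] at hlt ⊢
      have hij : i < j := by omega
      have habs : |(2 * (i : ℤ) - 2 * j)| = 2 * ((j : ℤ) - i) := by
        rw [abs_of_neg (by omega)]; ring
      have hmin : min (2 * (i : ℤ) + 2 * j) (2 * e - (2 * i + 2 * j)) =
          ((min (2 * (i + j)) (2 * e - 2 * (i + j)) : ℕ) : ℤ) := by
        omega
      rw [habs, hmin]
      exact star_low h hij hj hxi hxj hs ht hsum hprod
    · rw [hbi, hbe]
      obtain ⟨h1, h2⟩ := star_mixed h hi hxi hx2 hs ht hsum hprod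
      left
      rw [h1, h2]
      constructor
      · rw [abs_of_neg (by omega)]; ring
      · rw [min_eq_right (by omega)]; ring
  · have := bet_le (e := e) hz2
    omega

/-- JOB L04 (Star). The heights on the torsion points behave like the distance to `2eℤ` under
addition and subtraction.

PROOF (only case distinctions; use the statements `star_low`, `star_mixed`, `star_deep`, `star_same`,
`star_dbl`, `star_dbl_deep` of the imported files, they may still contain `sorry`).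
Write `β = hgt E v e`; `0 ≤ β ≤ e` (`bet_nonneg`, `bet_le`), `β (-P) = β P` (`E.X_neg`), `β 0 = 0`.
If `P = 0` or `Q = 0`: clear (`min β (2e - β) = β` as `β ≤ e`).
If `P = Q ≠ 0`: `β (P - Q) = 0 = |β P - β Q|` and we need `β (P + P) = min (2 β P) (2e - 2 β P)`:
if `v (E.X P) = 1`, then `P ∈ E.away h` (`GT.mem_away`), so `P + P ∈ E.away h`, `β (P+P) = 0`
(`β R = 0` for `R ∈ E.away h`, because `v (E.X R) ≤ 1` and `≥ 1`); if
`v (E.X P) < 1`: if `P + P = 0`, then `Y P = 0` (`Y_neg`: `Y P = - Y P`, `v 2 = 1`), so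
`z³ + a z² + b z + c = 0`, the first conclusion of `star_dbl` excludes `0 < i < e/2`, so
`v (E.X P)² ≤ exp (-e)`, `β P = e`, and `min (2e) 0 = 0 = β 0`; if `P + P ≠ 0` use `E.dbl'`
(in Lib/FM60/GT3.lean), `E.eqn`, `star_dbl`, `star_dbl_deep`.
If `P = -Q ≠ 0`: the same with the other disjunct.
Otherwise `E.X P ≠ E.X Q` (`E.eq_of_X`), `P + Q ≠ 0`, `P - Q ≠ 0` and `E.sum`, `E.prod`
(Lib/FM60/GT.lean) hold. By `bet_cases` for `v (E.X P)` and `v (E.X Q)` there are the cases
(i, i') with `i < i'`: `star_low`; `i' < i`: `star_low` with `z₁, z₂` exchanged (and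
`|x - y| = |y - x|`); `i = i' > 0`: `star_same`; `i = i' = 0`: both points are in `E.away h`, so
`P + Q`, `P - Q` too, all four heights are `0`; one below and one above `e/2`: `star_mixed`;
both above: `star_deep`. -/
theorem star {L : Type*} [Field L] {v : Valuation L ℤᵐ⁰} {a b c : L} {e : ℕ} (he : 0 < e)
    (h : NodeH v a b c (exp (-(e : ℤ)))) {V : Type*} [AddCommGroup V] (E : GT L a b c V)
    (hint : ∀ P : V, P ≠ 0 → v (E.X P) ≤ 1) (P Q : V) :
    (hgt E v e (P + Q) = |hgt E v e P - hgt E v e Q| ∧ hgt E v e (P - Q) =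
      min (hgt E v e P + hgt E v e Q) (2 * e - (hgt E v e P + hgt E v e Q))) ∨
    (hgt E v e (P - Q) = |hgt E v e P - hgt E v e Q| ∧ hgt E v e (P + Q) =
      min (hgt E v e P + hgt E v e Q) (2 * e - (hgt E v e P + hgt E v e Q))) := by
  obtain ⟨hP0, hPe⟩ := star_hgt_bounds (e := e) E hint P
  obtain ⟨hQ0, hQe⟩ := star_hgt_bounds (e := e) E hint Q
  by_cases hP : P = 0
  · left
    subst hP
    rw [zero_add, zero_sub, star_hgt_neg, star_hgt_zero]
    constructor
    · rw [zero_sub, abs_neg, abs_of_nonneg hQ0]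
    · rw [zero_add, min_eq_left (by omega)]
  by_cases hQ : Q = 0
  · left
    subst hQ
    rw [add_zero, sub_zero, star_hgt_zero]
    constructor
    · rw [sub_zero, abs_of_nonneg hP0]
    · rw [add_zero, min_eq_left (by omega)]
  by_cases hX : E.X P = E.X Q
  · rcases E.eq_of_X hP hQ hX with h1 | h1
    · right
      subst h1
      rw [sub_self, star_hgt_zero, sub_self, abs_zero]
      exact ⟨rfl, star_hgt_dbl he h E hint hP⟩
    · left
      have hQP : Q = -P := by rw [h1, neg_neg]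
      subst hQP
      rw [add_neg_cancel, star_hgt_zero, star_hgt_neg, sub_self, abs_zero, sub_neg_eq_add]
      exact ⟨rfl, star_hgt_dbl he h E hint hP⟩
  have hadd := E.add_ne hP hQ hX
  have hsub := E.sub_ne hP hQ hX
  have hsum := E.sum hP hQ hX
  have hprod := E.prod hP hQ hX
  have hz1 := hint P hP
  have hz2 := hint Q hQ
  have hs := hint _ hadd
  have ht := hint _ hsub
  have eP := star_hgt_of_ne E v e hP
  have eQ := star_hgt_of_ne E v e hQ
  have eA := star_hgt_of_ne E v e hadd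
  have eS := star_hgt_of_ne E v e hsub
  rw [eP, eQ, eA, eS]
  rcases lt_trichotomy (bet e (v (E.X P))) (bet e (v (E.X Q))) with hlt | heq | hgt'
  · exact star_hgt_lt h hz1 hz2 hs ht hlt hsum hprod
  · rcases bet_cases (e := e) hz1 with ⟨i, hxi, hi, hbi⟩ | ⟨hx1, hbe⟩
    · rcases bet_cases (e := e) hz2 with ⟨j, hxj, hj, hbj⟩ | ⟨hx2, hbe⟩
      · have hij : i = j := by omega
        subst hij
        rw [hbi, hbj, sub_self, abs_zero]
        have hmin : min (2 * (i : ℤ) + 2 * i) (2 * e - (2 * i + 2 * i)) =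
            ((min (4 * i) (2 * e - 4 * i) : ℕ) : ℤ) := by
          omega
        rw [hmin]
        rcases Nat.eq_zero_or_pos i with hi0 | hi0
        · have hv1 : v (E.X P) = 1 := by rw [hxi, hi0]; simp
          have hv2 : v (E.X Q) = 1 := by rw [hxj, hi0]; simp
          have m1 : P ∈ E.away h := (E.mem_away h).mpr (Or.inr hv1.ge)
          have m2 : Q ∈ E.away h := (E.mem_away h).mpr (Or.inr hv2.ge)
          have a1 := star_hgt_away h E hint ((E.away h).add_mem m1 m2)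
          have a2 := star_hgt_away h E hint ((E.away h).sub_mem m1 m2)
          rw [eA] at a1
          rw [eS] at a2
          left
          rw [a1, a2, hi0]
          simp
        · exact star_same h hi0 hi hxi hxj hs ht hsum hprod
      · omega
    · rcases bet_cases (e := e) hz2 with ⟨j, hxj, hj, hbj⟩ | ⟨hx2, hbe2⟩
      · omega
      · obtain ⟨h1, h2⟩ := star_deep h hx1 hx2 hs ht hprod
        left
        rw [h1, h2, hbe, hbe2, sub_self, abs_zero]
        refine ⟨rfl, ?_⟩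
        rw [min_eq_right (by omega)]; ring
  · have hsum' : (E.X Q - E.X P) ^ 2 * (E.X (P + Q) + E.X (P - Q)) =
        2 * (E.X Q * E.X P * (E.X Q + E.X P) + 2 * a * E.X Q * E.X P + b * (E.X Q + E.X P) +
          2 * c) := by
      linear_combination hsum
    have hprod' : (E.X Q - E.X P) ^ 2 * (E.X (P + Q) * E.X (P - Q)) =
        (E.X Q * E.X P - b) ^ 2 - 4 * c * (E.X Q + E.X P + a) := by
      linear_combination hprod
    have := star_hgt_lt h hz2 hz1 hs ht hgt' hsum' hprod'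
    rw [abs_sub_comm, add_comm (bet e (v (E.X Q)))] at this
    exact this

end Pool.Agent.Lib.FL60
end
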