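import Mathlib
import Pool.Agent.Lib.FMK60.ActK
import Pool.Agent.Lib.MP_4a0cc8_ntL.Cusp
import Pool.Agent.Lib.FM60.Act

section

set_option autoImplicit false
set_option linter.unusedVariables false

namespace Pool.Agent.Lib.FL60

/-- JOB L06 (Grp). A finite abelian group killed by `p ^ k` with at most `p` elements killed by `p`
has at most `p ^ k` elements.

PROOF. Induction on `k` over all groups `C` (in the same universe). `k = 0`: `C` is trivial. `k + 1`:
let `C' = (nsmulAddMonoidHom p : C →+ C).range`. It is killed by `p ^ k`, and its elements killed by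
`p` are elements of `C` killed by `p`. The kernel of `x ↦ p • x` has at most `p` elements, so
`card C = card C' * card ker ≤ p ^ k * p` (for instance
`AddSubgroup.card_eq_card_quotient_mul_card_addSubgroup` and
`QuotientAddGroup.quotientKerEquivRange`, or `AddSubgroup.card_range_dvd`,
`Nat.card_congr`, ...). -/
theorem card_le_pow {p : ℕ} (hp : p.Prime) (k : ℕ) {C : Type*} [AddCommGroup C] [Finite C]
    (hk : ∀ x : C, p ^ k • x = 0) (h1 : Nat.card {x : C // p • x = 0} ≤ p) :
    Nat.card C ≤ p ^ k := by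
  suffices H : ∀ (k : ℕ) (C : Type _) [AddCommGroup C] [Finite C],
      (∀ x : C, p ^ k • x = 0) → Nat.card {x : C // p • x = 0} ≤ p → Nat.card C ≤ p ^ k from
    H k C hk h1
  clear hk h1
  intro k
  induction k with
  | zero =>
    intro C _ _ hk _
    have hsub : Subsingleton C := ⟨fun x y => by
      have hx := hk x
      have hy := hk y
      rw [pow_zero, one_nsmul] at hx hy
      rw [hx, hy]⟩
    rw [pow_zero]
    exact Finite.card_le_one_iff_subsingleton.2 hsub
  | succ k ih =>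
    intro C _ _ hk h1
    let f : C →+ C := nsmulAddMonoidHom p
    have hf : ∀ x, f x = p • x := fun x => rfl
    have hker : Nat.card f.ker ≤ p := by
      refine le_trans (le_of_eq ?_) h1
      refine Nat.card_congr (Equiv.subtypeEquivRight fun x => ?_)
      rw [AddMonoidHom.mem_ker, hf]
    have hq : Nat.card (C ⧸ f.ker) = Nat.card f.range :=
      Nat.card_congr (QuotientAddGroup.quotientKerEquivRange f).toEquiv
    have hcard := AddSubgroup.card_eq_card_quotient_mul_card_addSubgroup f.ker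
    rw [hq] at hcard
    have hr : Nat.card f.range ≤ p ^ k := by
      refine ih f.range ?_ ?_
      · rintro ⟨x, c, rfl⟩
        refine Subtype.ext ?_
        rw [AddSubgroup.coe_nsmul]
        change p ^ k • p • c = 0
        rw [← mul_nsmul', ← pow_succ]
        exact hk c
      · refine le_trans ?_ h1
        refine Nat.card_le_card_of_injective
          (fun x : {x : f.range // p • x = 0} => (⟨(x : f.range), by
            have h2 := x.2
            have h3 := congrArg (Subtype.val) h2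
            rwa [AddSubgroup.coe_nsmul] at h3⟩ : {x : C // p • x = 0})) ?_
        intro x y hxy
        have h4 := congrArg Subtype.val hxy
        exact Subtype.ext (Subtype.ext h4)
    rw [hcard, pow_succ]
    exact Nat.mul_le_mul hr hker

/-- JOB L06 (Grp), second part.

PROOF. Put `N = p ^ k`. `C[p] = {x ∈ C : p • x = 0}` is a subgroup of `V[p] = {x ∈ V : p • x = 0}`,
which has `p²` elements, and it is not all of it (`hne`), so its order is a proper divisor of `p²`,
hence at most `p`. `card_le_pow` for `C`: `card C ≤ p ^ k`. The element `p ^ k • P₁ = 0` is in `C`, so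
`N' ∣ p ^ k`. `(p^k)² = card V ≤ N' * card C ≤ N' * p ^ k`, so `p ^ k ≤ N'`. -/
theorem order_eq {p k : ℕ} (hp : p.Prime) {V : Type*} [AddCommGroup V] [Finite V]
    (hV : Nat.card V = (p ^ k) ^ 2) (hqV : ∀ x : V, p ^ k • x = 0)
    (hpV : Nat.card {x : V // p • x = 0} = p ^ 2) (C : AddSubgroup V)
    (hne : ∃ P : V, p • P = 0 ∧ P ∉ C) {P₁ : V} {N : ℕ} (hN : 0 < N)
    (h1 : Nat.card V ≤ N * Nat.card C) (h2 : ∀ j : ℕ, j • P₁ ∈ C → N ∣ j) : N = p ^ k := by
  let f : V →+ V := nsmulAddMonoidHom p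
  have hf : ∀ x, f x = p • x := fun x => rfl
  have hT : Nat.card f.ker = p ^ 2 := by
    rw [← hpV]
    refine Nat.card_congr (Equiv.subtypeEquivRight fun x => ?_)
    rw [AddMonoidHom.mem_ker, hf]
  have hle : C ⊓ f.ker ≤ f.ker := inf_le_right
  have hdvd : Nat.card (C ⊓ f.ker : AddSubgroup V) ∣ p ^ 2 := by
    rw [← hT]
    exact AddSubgroup.card_dvd_of_le hle
  have hne2 : Nat.card (C ⊓ f.ker : AddSubgroup V) ≠ p ^ 2 := by
    intro h3
    rw [← hT] at h3
    obtain ⟨P, hP, hPC⟩ := hne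
    have h4 : C ⊓ f.ker = f.ker := AddSubgroup.eq_of_le_of_card_ge hle h3.ge
    have h5 : P ∈ f.ker := by rw [AddMonoidHom.mem_ker, hf, hP]
    rw [← h4] at h5
    exact hPC h5.1
  have hS : Nat.card (C ⊓ f.ker : AddSubgroup V) ≤ p := by
    obtain ⟨i, hi, h3⟩ := (Nat.dvd_prime_pow hp).1 hdvd
    have hi2 : i ≠ 2 := by
      rintro rfl
      exact hne2 h3
    rw [h3]
    have hi1 : i ≤ 1 := by omega
    calc p ^ i ≤ p ^ 1 := Nat.pow_le_pow_right hp.pos hi1
      _ = p := pow_one p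
  have hC : Nat.card C ≤ p ^ k := by
    refine card_le_pow hp k (fun x => ?_) ?_
    · refine Subtype.ext ?_
      rw [AddSubgroup.coe_nsmul]
      exact hqV x
    · refine le_trans ?_ hS
      refine Nat.card_le_card_of_injective
        (fun x : {x : C // p • x = 0} => (⟨(x : C), (x : C).2, by
          have h3 := congrArg (Subtype.val) x.2
          rw [AddSubgroup.coe_nsmul] at h3
          exact (AddMonoidHom.mem_ker).2 h3⟩ : (C ⊓ f.ker : AddSubgroup V))) ?_
      intro x y hxy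
      have h4 := congrArg Subtype.val hxy
      exact Subtype.ext (Subtype.ext h4)
  have hN1 : N ∣ p ^ k := by
    refine h2 (p ^ k) ?_
    rw [hqV P₁]
    exact C.zero_mem
  have hpk : 0 < p ^ k := pow_pos hp.pos k
  have h6 : N ≤ p ^ k := Nat.le_of_dvd hpk hN1
  have h7 : p ^ k * p ^ k ≤ N * p ^ k := by
    calc p ^ k * p ^ k = Nat.card V := by rw [hV, sq]
      _ ≤ N * Nat.card C := h1
      _ ≤ N * p ^ k := Nat.mul_le_mul_left _ hC
  exact le_antisymm h6 (Nat.le_of_mul_le_mul_right h7 hpk)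

end Pool.Agent.Lib.FL60
end

section

set_option autoImplicit false
set_option linter.unusedVariables false

namespace Pool.Agent.Lib.FL60

open WithZero Pool.Agent.Lib.FM60 Pool.Agent.Lib.FMK60

private theorem WSym_choose {ℓ : ℕ} (hℓ : ℓ.Prime) {m : ℕ} (hm : ¬ ℓ ∣ m) (j : ℕ) :
    ¬ ℓ ∣ (ℓ ^ j * m).choose (ℓ ^ j) := by
  have hF : Fact ℓ.Prime := ⟨hℓ⟩
  induction j with
  | zero => simpa using hm
  | succ j ih =>
    have h1 := Choose.choose_modEq_choose_mod_mul_choose_div_nat (p := ℓ)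
      (n := ℓ ^ (j + 1) * m) (k := ℓ ^ (j + 1))
    have e1 : ℓ ^ (j + 1) * m = ℓ * (ℓ ^ j * m) := by rw [pow_succ]; ring
    have e2 : ℓ ^ (j + 1) = ℓ * ℓ ^ j := by rw [pow_succ]; ring
    rw [e1, e2, Nat.mul_mod_right, Nat.mul_mod_right, Nat.mul_div_cancel_left _ hℓ.pos,
      Nat.mul_div_cancel_left _ hℓ.pos, Nat.choose_self, one_mul] at h1
    intro h2
    rw [e1, e2] at h2
    apply ih
    exact (Nat.ModEq.dvd_iff h1 dvd_rfl).1 h2

private theorem WSym_prod {L : Type*} [Field L] {v : Valuation L ℤᵐ⁰} {ι : Type*}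
    (T : Finset ι) (f : ι → L) (hf : ∀ i ∈ T, v (f i - 1) < 1) : v (∏ i ∈ T, f i - 1) < 1 := by
  classical
  induction T using Finset.induction_on with
  | empty => simp
  | insert a T ha ih =>
    rw [Finset.prod_insert ha]
    have h1 := hf a (Finset.mem_insert_self a T)
    have h2 := ih fun i hi => hf i (Finset.mem_insert_of_mem hi)
    have h3 : v (f a) ≤ 1 := by
      have : f a = (f a - 1) + 1 := by ring
      rw [this]
      exact (v.map_add _ _).trans (max_le h1.le (by rw [map_one]))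
    have e : f a * ∏ i ∈ T, f i - 1 = f a * (∏ i ∈ T, f i - 1) + (f a - 1) := by ring
    rw [e]
    refine (v.map_add _ _).trans_lt (max_lt ?_ h1)
    rw [map_mul]
    exact mul_lt_one_of_nonneg_of_lt_one_right h3 zero_le h2

/-- JOB L16 (WSym). If the inertia group acts on `y` by factors congruent to `1`, then up to a power of
`ℓ` the valuation of `y` is divisible by the order of the inertia group.

PROOF. Let `n = card I = ℓ ^ j * m` with `ℓ ∤ m` (`Nat.exists_eq_pow_mul_and_not_dvd`), `r = ℓ ^ j`, and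
`E = ∑_{T ⊆ I, |T| = r} ∏_{σ ∈ T} σ y` (`Finset.powersetCard r Finset.univ` over the fintype `I`). Each
product is `y ^ r * (1 + small)`, where small means `v < 1` (`σ y = y * (σ y / y)`, a product of
elements congruent to `1`). So `E = y ^ r * (c + small)` with `c = n.choose r` and `v c = 1`, because
`ℓ ∤ (ℓ^j m).choose (ℓ^j)` (Lucas: `Choose.choose_modEq_choose_mod_mul_choose_div`..., or
`Nat.Prime.multiplicity_choose_prime_pow`, or `(ℓ^j m).choose ℓ^j ≡ m` from `(1+X)^(ℓ^j m)` in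
characteristic `ℓ`: `add_pow_char_pow`), and `h.nat_eq_one`. Hence `v E = v y ^ r`, `E ≠ 0`. `E` is fixed
by `I` (left multiplication by `τ` permutes the subsets `T` of size `r`). `hfix`:
`v E = v ℓ ^ m'`, `v ℓ = exp (-n)` (`h.val_ell`), so `r * log (v y) = - n m'`. -/
theorem sym_dvd {F L : Type*} [Field F] [Field L] [Algebra F L] {ℓ : ℕ} (hℓ : ℓ.Prime)
    {v : Valuation L ℤᵐ⁰} {I : Subgroup (L ≃ₐ[F] L)} [Finite I] (h : PlaceK F L ℓ v I)
    (hfix : ∀ x : L, x ≠ 0 → (∀ σ ∈ I, σ x = x) → ∃ m : ℤ, v x = v (ℓ : L) ^ m) {y : L}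
    (hy : y ≠ 0) (hy1 : ∀ σ ∈ I, v (σ y / y - 1) < 1) :
    ∃ j : ℕ, (Nat.card I : ℤ) ∣ (ℓ : ℤ) ^ j * log (v y) := by
  classical
  have hft : Fintype I := Fintype.ofFinite I
  obtain ⟨j, m, hm, hn⟩ := Nat.exists_eq_pow_mul_and_not_dvd (n := Nat.card I)
    (Nat.card_pos.ne') ℓ hℓ.ne_one
  refine ⟨j, ?_⟩
  set r := ℓ ^ j with hr
  set PC := Finset.powersetCard r (Finset.univ : Finset I) with hPC
  set E : L := ∑ T ∈ PC, ∏ σ ∈ T, (σ : L ≃ₐ[F] L) y with hE
  have hcardPC : PC.card = (Nat.card I).choose r := by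
    rw [hPC, Finset.card_powersetCard, Finset.card_univ, Nat.card_eq_fintype_card]
  have hchoose : v ((PC.card : ℕ) : L) = 1 := by
    rw [hcardPC, hn]
    exact h.nat_eq_one (WSym_choose hℓ hm j)
  have hyr : y ^ r ≠ 0 := pow_ne_zero r hy
  have hEr : v (E / y ^ r - (PC.card : ℕ)) < 1 := by
    have e1 : E / y ^ r - (PC.card : ℕ) =
        ∑ T ∈ PC, (∏ σ ∈ T, ((σ : L ≃ₐ[F] L) y / y) - 1) := by
      rw [Finset.sum_sub_distrib, Finset.sum_const, nsmul_eq_mul, mul_one, hE, Finset.sum_div]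
      congr 1
      refine Finset.sum_congr rfl fun T hT => ?_
      rw [Finset.prod_div_distrib, Finset.prod_const, (Finset.mem_powersetCard.1 hT).2]
    rw [e1]
    refine v.map_sum_lt one_ne_zero fun T _ => WSym_prod T _ fun σ _ => hy1 σ σ.2
  have hE1 : v (E / y ^ r) = 1 := by
    have e1 : E / y ^ r = (E / y ^ r - (PC.card : ℕ)) + (PC.card : ℕ) := by ring
    rw [e1, Valuation.map_add_eq_of_lt_right _ (by rw [hchoose]; exact hEr), hchoose]
  have hE0 : E ≠ 0 := by
    rintro h0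
    rw [h0, zero_div, map_zero] at hE1
    exact zero_ne_one hE1
  have hvE : v E = v y ^ r := by
    rw [map_div₀, map_pow, div_eq_one_iff_eq] at hE1
    · exact hE1
    · rw [← map_pow]
      exact (Valuation.ne_zero_iff v).2 hyr
  have hfixE : ∀ τ ∈ I, τ E = E := by
    intro τ hτ
    let e : I ≃ I := Equiv.mulLeft (⟨τ, hτ⟩ : I)
    have h1 : PC = PC.map (Finset.mapEmbedding e.toEmbedding).toEmbedding := by
      rw [hPC, ← Finset.powersetCard_map, Finset.map_univ_equiv]
    conv_rhs => rw [hE, h1]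
    rw [hE, map_sum, Finset.sum_map]
    refine Finset.sum_congr rfl fun T _ => ?_
    rw [map_prod]
    change _ = ∏ σ ∈ T.map e.toEmbedding, _
    rw [Finset.prod_map]
    rfl
  obtain ⟨m', hm'⟩ := hfix E hE0 hfixE
  rw [hvE, h.val_ell] at hm'
  have h2 := congrArg log hm'
  rw [log_pow, log_zpow, log_exp] at h2
  refine ⟨-m', ?_⟩
  rw [nsmul_eq_mul, smul_eq_mul, hr] at h2
  push_cast at h2
  rw [h2]
  ring

end Pool.Agent.Lib.FL60
end

section

set_option autoImplicit false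
set_option linter.unusedSectionVars false
set_option linter.unusedVariables false

namespace Pool.Agent.Lib.FL60

open WithZero Pool.Agent.Lib.FM60

private lemma tadd_one_left {a b : ℤᵐ⁰} (hb : b ≤ 1) (ha : a ≤ 1) (h : a * b = 1) : a = 1 := by
  refine le_antisymm ha ?_
  calc (1 : ℤᵐ⁰) = a * b := h.symm
    _ ≤ a * 1 := mul_le_mul' le_rfl hb
    _ = a := mul_one a

private lemma tadd_sq_one {a : ℤᵐ⁰} (h : a * a = 1) : a = 1 := by
  rcases le_total a 1 with h1 | h1
  · exact tadd_one_left h1 h1 h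
  · refine le_antisymm ?_ h1
    calc a = a * 1 := (mul_one a).symm
      _ ≤ a * a := mul_le_mul' le_rfl h1
      _ = 1 := h

private lemma tadd_v4 {L : Type*} [Field L] {v : Valuation L ℤᵐ⁰} (hv2 : v 2 = 1) :
    v 4 = 1 := by
  rw [show (4 : L) = 2 * 2 by norm_num, map_mul, hv2, one_mul]

private lemma tadd_cubic {L : Type*} [Field L] {v : Valuation L ℤᵐ⁰} {A B x : L}
    (hA : v A < 1) (hB : v B < 1) (hx : v x = 1) : v (x ^ 3 + A * x + B) = 1 := by
  have h1 : v (A * x) < 1 := by rw [map_mul, hx, mul_one]; exact hA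
  have h2 : v (A * x + B) < v (x ^ 3) := by
    rw [map_pow, hx, one_pow]
    exact v.map_add_lt h1 hB
  rw [add_assoc, v.map_add_eq_of_lt_left h2, map_pow, hx, one_pow]

private lemma tadd_add {L : Type*} [Field L] {v : Valuation L ℤᵐ⁰} {A B : L} (hv2 : v 2 = 1)
    (hA : v A < 1) (hB : v B < 1) {V : Type*} [AddCommGroup V]
    (D : TorsData L A B V) (hint : ∀ P : V, P ≠ 0 → v (D.X P) ≤ 1) {P Q : V} (hP : P ≠ 0)
    (hQ : Q ≠ 0) (hPQ : P + Q ≠ 0) (h1 : v (D.X P) = 1) (h2 : v (D.X Q) = 1) :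
    v (D.X (P + Q)) = 1 := by
  have hv4 := tadd_v4 hv2
  by_cases hX : D.X P = D.X Q
  · rcases D.eq_of_X hP hQ hX with h | h
    · subst h
      have h3 := D.dbl' hP hPQ
      have h4 := congrArg v h3
      have h5 : v (D.X P ^ 4 - 2 * A * D.X P ^ 2 - 8 * B * D.X P + A ^ 2) = 1 := by
        have e : D.X P ^ 4 - 2 * A * D.X P ^ 2 - 8 * B * D.X P + A ^ 2 =
            D.X P ^ 4 + (A * (A - 2 * D.X P ^ 2) - 2 * (4 * (B * D.X P))) := by ring
        have h6 : v (A * (A - 2 * D.X P ^ 2)) < 1 := by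
          rw [mul_comm]
          refine lt_mul v ?_ hA
          refine v.map_sub_le hA.le ?_
          rw [map_mul, hv2, map_pow, h1, one_pow, one_mul]
        have h7 : v (2 * (4 * (B * D.X P))) < 1 := by
          rw [map_mul, map_mul, map_mul, hv2, hv4, h1, one_mul, one_mul, mul_one]
          exact hB
        have h8 : v (A * (A - 2 * D.X P ^ 2) - 2 * (4 * (B * D.X P))) < v (D.X P ^ 4) := by
          rw [map_pow, h1, one_pow]
          exact v.map_sub_lt h6 h7
        rw [e, v.map_add_eq_of_lt_left h8, map_pow, h1, one_pow]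
      rw [h5, map_mul, map_mul, hv4, tadd_cubic hA hB h1, one_mul, one_mul] at h4
      exact h4
    · exact absurd (by rw [h, neg_add_cancel]) hPQ
  · have hPQ' : P - Q ≠ 0 := fun h => hX (by rw [sub_eq_zero.1 h])
    have h3 := congrArg v (D.prod hP hQ hX)
    have h5 : v ((A - D.X P * D.X Q) ^ 2 - 4 * B * (D.X P + D.X Q)) = 1 := by
      have e : (A - D.X P * D.X Q) ^ 2 - 4 * B * (D.X P + D.X Q) =
          (D.X P * D.X Q) ^ 2 + (A * (A - 2 * (D.X P * D.X Q)) -
            4 * (B * (D.X P + D.X Q))) := by ring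
      have h6 : v (A * (A - 2 * (D.X P * D.X Q))) < 1 := by
        rw [mul_comm]
        refine lt_mul v ?_ hA
        refine v.map_sub_le hA.le ?_
        rw [map_mul, hv2, map_mul, h1, h2, one_mul, one_mul]
      have h7 : v (4 * (B * (D.X P + D.X Q))) < 1 := by
        rw [map_mul, hv4, one_mul, mul_comm]
        exact lt_mul v (v.map_add_le h1.le h2.le) hB
      have h8 : v (A * (A - 2 * (D.X P * D.X Q)) - 4 * (B * (D.X P + D.X Q))) <
          v ((D.X P * D.X Q) ^ 2) := by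
        rw [map_pow, map_mul, h1, h2, one_mul, one_pow]
        exact v.map_sub_lt h6 h7
      rw [e, v.map_add_eq_of_lt_left h8, map_pow, map_mul, h1, h2, one_mul, one_pow]
    rw [h5, map_mul, map_mul, map_pow] at h3
    have hd : v (D.X P - D.X Q) ^ 2 ≤ 1 := pow_le_one' (v.map_sub_le h1.le h2.le) 2
    have hs := hint _ hPQ
    have hd' := hint _ hPQ'
    have h9 : v (D.X (P + Q)) * (v (D.X P - D.X Q) ^ 2 * v (D.X (P - Q))) = 1 := by
      rw [← h3]
      exact mul_left_comm _ _ _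
    exact tadd_one_left (mul_le_one' hd hd') hs h9

/-- JOB L10 (TAdd), first part. Additive reduction, integral torsion of order prime to the residue
characteristic: all torsion points reduce to the cusp.

PROOF. Suppose `v (X P) = 1` for some `P ≠ 0`. Let `C` be the set of `P` with `P = 0` or
`v (X P) = 1`. It is a subgroup: `-P` by `X_neg`; for `P, Q ∈ C` nonzero, `P + Q ≠ 0`: if
`P = Q`, `D.dbl'` reads `4 (X³ + AX + B) X(2P) = X⁴ - 2AX² - 8BX + A²`, right side a unit, the factor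
`4 (X³ + A X + B)` a unit, so `v (X (P+P)) = 1`; if `P ≠ Q` then `P ≠ ±Q`, `X P ≠ X Q` and
`D.prod`: `(X P - X Q)² (X (P+Q) X (P-Q)) = (A - X P X Q)² - 4B(X P + X Q)` has valuation `1`, and
all four factors on the left are integral (`P ± Q ≠ 0`, `hint`), so `v (X (P + Q)) = 1`. Apply
`cusp_add` (use the statement as it is) to `res D C` with `hY.res C`, `zc_res`: `zc` is additive on
`C` modulo the maximal ideal, so `v (zc D (n • P) - n * zc D P) < 1` for all `n : ℕ` by induction;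
for `n = q`: `q • P = 0`, `zc D 0 = 0`, so `v (q * zc D P) < 1`, but `v q = 1`,
`v (zc D P) = v (X P / Y P) = 1` (`v (Y P)² = v (X³ + A X + B) = 1`). Contradiction. -/
theorem cusp_small {L : Type*} [Field L] {v : Valuation L ℤᵐ⁰} {A B : L} (hv2 : v 2 = 1)
    (hv3 : v 3 = 1) (hA : v A < 1) (hB : v B < 1) {V : Type*} [AddCommGroup V]
    (D : TorsData L A B V) (hY : YAdd D) (hint : ∀ P : V, P ≠ 0 → v (D.X P) ≤ 1) {q : ℕ}
    (hvq : v (q : L) = 1) (hqV : ∀ x : V, q • x = 0) (P : V) (hP : P ≠ 0) : v (D.X P) < 1 := by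
  by_contra hcon
  have hXP : v (D.X P) = 1 := le_antisymm (hint P hP) (not_lt.1 hcon)
  let C : AddSubgroup V :=
    { carrier := {R | R = 0 ∨ v (D.X R) = 1}
      zero_mem' := Or.inl rfl
      neg_mem' := by
        rintro R (h | h)
        · exact Or.inl (by rw [h, neg_zero])
        · exact Or.inr (by rw [D.X_neg]; exact h)
      add_mem' := by
        rintro R S (h | h) (h' | h')
        · exact Or.inl (by rw [h, h', add_zero])
        · rw [h, zero_add]; exact Or.inr h'
        · rw [h', add_zero]; exact Or.inr h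
        · by_cases hR : R = 0
          · rw [hR, zero_add]; exact Or.inr h'
          by_cases hS : S = 0
          · rw [hS, add_zero]; exact Or.inr h
          by_cases hRS : R + S = 0
          · exact Or.inl hRS
          · exact Or.inr (tadd_add hv2 hA hB D hint hR hS hRS h h') }
  have hunit : ∀ R : C, R ≠ 0 → v ((res D C).X R) = 1 := by
    intro R hR
    rcases R.2 with h | h
    · exact absurd (Subtype.ext h) hR
    · exact h
  have hind : ∀ (R : C) (n : ℕ), v (zc (res D C) (n • R) - n * zc (res D C) R) < 1 := by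
    intro R n
    induction n with
    | zero => simp
    | succ n ih =>
      have h1 := cusp_add hv2 hv3 hA hB (res D C) (hY.res C) hunit (n • R) R
      have e : zc (res D C) ((n + 1) • R) - ((n + 1 : ℕ) : L) * zc (res D C) R =
          (zc (res D C) (n • R + R) - zc (res D C) (n • R) - zc (res D C) R) +
            (zc (res D C) (n • R) - n * zc (res D C) R) := by
        rw [succ_nsmul]
        push_cast
        ring
      rw [e]
      exact v.map_add_lt h1 ih
  have hPC : P ∈ C := Or.inr hXP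
  have h1 := hind ⟨P, hPC⟩ q
  have h2 : q • (⟨P, hPC⟩ : C) = 0 := Subtype.ext (by
    rw [AddSubgroup.coe_nsmul]
    exact hqV P)
  rw [h2, zc_zero, zero_sub, Valuation.map_neg, map_mul, hvq, one_mul, zc_res, zc_of_ne D hP,
    map_div₀, hXP] at h1
  have h3 : v (D.Y P) * v (D.Y P) = 1 := by
    rw [← map_mul, ← pow_two, D.eqn hP, tadd_cubic hA hB hXP]
  rw [tadd_sq_one h3, div_one] at h1
  exact lt_irrefl _ h1

private lemma tadd_le_of_lt {x : ℤᵐ⁰} {m : ℤ} (h : x < exp m) : x ≤ exp (m - 1) := by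
  by_cases hx : x = 0
  · rw [hx]; exact zero_le
  · obtain ⟨k, rfl⟩ : ∃ k : ℤ, x = exp k := ⟨log x, (exp_log hx).symm⟩
    rw [exp_lt_exp] at h
    rw [exp_le_exp]
    omega

private lemma tadd_lt_one_le {x : ℤᵐ⁰} (h : x < 1) : x ≤ exp (-1) := by
  have h1 : x < exp (0 : ℤ) := by rw [exp_zero]; exact h
  have := tadd_le_of_lt h1
  simpa using this

/-- `l ^ 2 * d ^ 2 = ...`: the key step -/
private lemma tadd_key {y d w : ℤᵐ⁰} (hd : d ≠ 0) (hw : w < 1) (h : d ^ 2 * w = y ^ 2) :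
    y ≤ exp (-1) * d ∧ w ≤ exp (-2) := by
  obtain ⟨l, hl⟩ : ∃ l : ℤᵐ⁰, l = y / d := ⟨_, rfl⟩
  have hy : y = d * l := by rw [hl, mul_div_cancel₀ _ hd]
  have hw' : w = l ^ 2 := by
    rw [hy, mul_pow] at h
    exact mul_left_cancel₀ (pow_ne_zero 2 hd) h
  have hl1 : l < 1 := by
    by_contra hcon
    rw [not_lt] at hcon
    rw [hw'] at hw
    exact absurd hw (not_lt.mpr (one_le_pow₀ hcon))
  have hl2 := tadd_lt_one_le hl1
  constructor
  · rw [hy, mul_comm]
    exact mul_le_mul' hl2 le_rfl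
  · rw [hw', pow_two]
    calc l * l ≤ exp (-1) * exp (-1) := mul_le_mul' hl2 hl2
      _ = exp (-2) := by rw [← exp_add]; norm_num

private lemma tadd_sum {L : Type*} [Field L] {v : Valuation L ℤᵐ⁰} {A B : L} {V : Type*}
    [AddCommGroup V] (D : TorsData L A B V) (hsmall : ∀ P : V, P ≠ 0 → v (D.X P) < 1)
    {R S : V} (hR : R ≠ 0) (hS : S ≠ 0) (hX : D.X R ≠ D.X S) :
    v (D.X (R + S) + D.X R + D.X S) ≤ exp (-2) ∧
      v (D.Y R - D.Y S) ≤ exp (-1) * v (D.X R - D.X S) := by
  have hRS : R + S ≠ 0 := by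
    intro h
    apply hX
    rw [eq_neg_of_add_eq_zero_left h, D.X_neg]
  have h1 := congrArg v (D.add hR hS hX)
  rw [map_mul, map_pow, map_pow] at h1
  have hd : v (D.X R - D.X S) ≠ 0 := by
    rw [Valuation.ne_zero_iff]
    exact sub_ne_zero.2 hX
  have hw : v (D.X (R + S) + D.X R + D.X S) < 1 :=
    v.map_add_lt (v.map_add_lt (hsmall _ hRS) (hsmall _ hR)) (hsmall _ hS)
  obtain ⟨h2, h3⟩ := tadd_key hd hw h1
  exact ⟨h3, h2⟩

private lemma tadd_dbl {L : Type*} [Field L] {v : Valuation L ℤᵐ⁰} {A B : L} (hv2 : v 2 = 1)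
    (hsing : 4 * A ^ 3 + 27 * B ^ 2 ≠ 0) {V : Type*}
    [AddCommGroup V] (D : TorsData L A B V) (hsmall : ∀ P : V, P ≠ 0 → v (D.X P) < 1)
    {R : V} (hR : R ≠ 0) (hRR : R + R ≠ 0) :
    v (D.X (R + R) + 2 * D.X R) ≤ exp (-2) ∧
      v (3 * D.X R ^ 2 + A) ≤ exp (-1) * v (D.Y R) := by
  have h1 := D.dbl hR hRR
  have hY : D.Y R ≠ 0 := by
    intro h
    rw [h] at h1
    have h2 : (3 * D.X R ^ 2 + A) ^ 2 = 0 := by rw [← h1]; ring
    have h3 : 3 * D.X R ^ 2 + A = 0 := pow_eq_zero_iff (two_ne_zero) |>.1 h2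
    have h4 := D.eqn hR
    rw [h] at h4
    have hA : A = -(3 * D.X R ^ 2) := by linear_combination h3
    have hB : B = 2 * D.X R ^ 3 := by linear_combination -h4 - D.X R * hA
    apply hsing
    have key : ∀ x A B : L, A = -(3 * x ^ 2) → B = 2 * x ^ 3 → 4 * A ^ 3 + 27 * B ^ 2 = 0 := by
      intro x A B hA hB
      rw [hA, hB]
      ring
    exact key _ _ _ hA hB
  have h2 := congrArg v h1
  rw [map_mul, map_mul, tadd_v4 hv2, one_mul, map_pow, map_pow] at h2
  have hw : v (D.X (R + R) + 2 * D.X R) < 1 := by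
    refine v.map_add_lt (hsmall _ hRR) ?_
    rw [map_mul, hv2, one_mul]
    exact hsmall _ hR
  obtain ⟨h3, h4⟩ := tadd_key ((Valuation.ne_zero_iff v).2 hY) hw h2
  exact ⟨h4, h3⟩

/-- JOB L10 (TAdd), second part. If all nonzero points reduce to the cusp and there is a point `P`
of order `≥ 5`, then the model is not minimal.

PROOF. In `ℤᵐ⁰`: `v x < 1` means `v x ≤ exp (-1)`. (1) For nonzero `R, S` with `X R ≠ X S` (then
`R ± S ≠ 0`) put `λ = (Y R - Y S)/(X R - X S)`: `λ² = X (R+S) + X R + X S` (`D.add`), so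
`v λ² < 1`, `v λ ≤ exp (-1)`, `v (λ²) ≤ exp (-2)`. So `v (X (R+S) + X R + X S) ≤ exp (-2)` and
`v (Y R - Y S) ≤ exp (-1) * v (X R - X S)`. (2) For `R ≠ 0`, `R + R ≠ 0`: `Y R ≠ 0`, because otherwise
`D.dbl` gives `3 X R² + A = 0`, the equation gives `B = 2 X R³`, and `4A³ + 27B² = 0`, contradiction to
`hsing`. With `μ = (3 X R² + A)/(2 Y R)` `D.dbl` says `μ² = X (2R) + 2 X R`, so `v μ ≤ exp (-1)`,
`v (X (2R) + 2 X R) ≤ exp (-2)`. So write `g R = X R` modulo `exp (-2)`: `g (R+S) = - g R - g S` and `g (2R) = -2 g R`.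
(3) `P, 2P, 3P, 4P ≠ 0`. `X (2P) ≠ X P` (`3P ≠ 0`, `P ≠ 0`), `X (3P) ≠ X P` (`4P, 2P ≠ 0`).
`g (2P) = -2 g P`, `g (3P) = - g (2P) - g P = g P`, `g (4P) = - g (3P) - g P = -2 g P`,
`g (4P) = -2 g (2P) = 4 g P`. So `v (6 X P) ≤ exp (-2)`, `v (X P) ≤ exp (-2)`, and
`v (X (2P)) ≤ exp (-2)` too.
(4) With `R = P`, `S = 2P` and `S = -2P` in (1): `v (Y P ∓ Y (2P)) ≤ exp (-1) * exp (-2)`, so
`v (2 Y P) ≤ exp (-3)`, `v (Y P) ≤ exp (-3)`. `D.dbl` for `P`:
`v ((3 X P² + A)²) ≤ exp (-6) * exp (-2)`, so `v (3 X P² + A) ≤ exp (-4)`, `v A ≤ exp (-4)`.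
`B = Y P² - X P³ - A X P`: `v B ≤ exp (-6)`. -/
theorem cusp_min {L : Type*} [Field L] {v : Valuation L ℤᵐ⁰} {A B : L} (hv2 : v 2 = 1)
    (hv3 : v 3 = 1) (hsing : 4 * A ^ 3 + 27 * B ^ 2 ≠ 0) {V : Type*} [AddCommGroup V]
    (D : TorsData L A B V) (hsmall : ∀ P : V, P ≠ 0 → v (D.X P) < 1) (P : V) (h1 : P ≠ 0)
    (h2 : 2 • P ≠ 0) (h3 : 3 • P ≠ 0) (h4 : 4 • P ≠ 0) :
    v A ≤ exp (-4) ∧ v B ≤ exp (-6) := by
  have hPP : P + P ≠ 0 := by rw [← two_nsmul]; exact h2
  have hP3 : P + P + P ≠ 0 := by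
    have : P + P + P = 3 • P := by abel
    rw [this]; exact h3
  have hP4 : P + P + P + P ≠ 0 := by
    have : P + P + P + P = 4 • P := by abel
    rw [this]; exact h4
  have hP4' : (P + P) + (P + P) ≠ 0 := by rw [← add_assoc]; exact hP4
  have hX21 : D.X (P + P) ≠ D.X P := by
    intro h
    rcases D.eq_of_X hPP h1 h with h5 | h5
    · exact h1 (by simpa using h5)
    · apply hP3
      rw [h5, neg_add_cancel]
  have hX31 : D.X (P + P + P) ≠ D.X P := by
    intro h
    rcases D.eq_of_X hP3 h1 h with h5 | h5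
    · exact hPP (by simpa using h5)
    · apply hP4
      rw [h5, neg_add_cancel]
  obtain ⟨ha, ha'⟩ := tadd_dbl hv2 hsing D hsmall h1 hPP
  obtain ⟨hb, -⟩ := tadd_sum D hsmall hPP h1 hX21
  obtain ⟨hc, -⟩ := tadd_sum D hsmall hP3 h1 hX31
  obtain ⟨hd, -⟩ := tadd_dbl hv2 hsing D hsmall hPP hP4'
  rw [← add_assoc (P + P) P P] at hd
  have hx2 : v (D.X (P + P)) ≤ exp (-2) := by
    have e : 3 * D.X (P + P) = (D.X (P + P + P + P) + 2 * D.X (P + P)) -
        (D.X (P + P + P + P) + D.X (P + P + P) + D.X P) +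
        (D.X (P + P + P) + D.X (P + P) + D.X P) := by ring
    have h5 : v (3 * D.X (P + P)) ≤ exp (-2) := by
      rw [e]
      exact v.map_add_le (v.map_sub_le hd hc) hb
    rwa [map_mul, hv3, one_mul] at h5
  have hx1 : v (D.X P) ≤ exp (-2) := by
    have e : 2 * D.X P = (D.X (P + P) + 2 * D.X P) - D.X (P + P) := by ring
    have h5 : v (2 * D.X P) ≤ exp (-2) := by
      rw [e]
      exact v.map_sub_le ha hx2
    rwa [map_mul, hv2, one_mul] at h5
  have hY : v (D.Y P) ≤ exp (-3) := by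
    have h5 := (tadd_sum D hsmall h1 hPP hX21.symm).2
    have h6 := (tadd_sum D hsmall h1 (neg_ne_zero.2 hPP) (by rw [D.X_neg]; exact hX21.symm)).2
    rw [D.X_neg, D.Y_neg, sub_neg_eq_add] at h6
    have h7 : (exp (-1) : ℤᵐ⁰) * v (D.X P - D.X (P + P)) ≤ exp (-3) := by
      calc (exp (-1) : ℤᵐ⁰) * v (D.X P - D.X (P + P)) ≤ exp (-1) * exp (-2) :=
            mul_le_mul' le_rfl (v.map_sub_le hx1 hx2)
        _ = exp (-3) := by rw [← exp_add]; norm_num
    have e : 2 * D.Y P = (D.Y P - D.Y (P + P)) + (D.Y P + D.Y (P + P)) := by ring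
    have h8 : v (2 * D.Y P) ≤ exp (-3) := by
      rw [e]
      exact v.map_add_le (h5.trans h7) (h6.trans h7)
    rwa [map_mul, hv2, one_mul] at h8
  have hA : v A ≤ exp (-4) := by
    have h5 : v (3 * D.X P ^ 2 + A) ≤ exp (-4) := by
      calc v (3 * D.X P ^ 2 + A) ≤ exp (-1) * v (D.Y P) := ha'
        _ ≤ exp (-1) * exp (-3) := mul_le_mul' le_rfl hY
        _ = exp (-4) := by rw [← exp_add]; norm_num
    have h6 : v (3 * D.X P ^ 2) ≤ exp (-4) := by
      rw [map_mul, hv3, one_mul, map_pow, pow_two]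
      calc v (D.X P) * v (D.X P) ≤ exp (-2) * exp (-2) := mul_le_mul' hx1 hx1
        _ = exp (-4) := by rw [← exp_add]; norm_num
    have e : A = (3 * D.X P ^ 2 + A) - 3 * D.X P ^ 2 := by ring
    rw [e]
    exact v.map_sub_le h5 h6
  refine ⟨hA, ?_⟩
  have e : B = D.Y P ^ 2 - D.X P ^ 3 - A * D.X P := by
    rw [D.eqn h1]; ring
  rw [e]
  refine v.map_sub_le (v.map_sub_le ?_ ?_) ?_
  · rw [map_pow, pow_two]
    calc v (D.Y P) * v (D.Y P) ≤ exp (-3) * exp (-3) := mul_le_mul' hY hY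
      _ = exp (-6) := by rw [← exp_add]; norm_num
  · rw [map_pow, pow_succ, pow_two]
    calc v (D.X P) * v (D.X P) * v (D.X P) ≤ exp (-2) * exp (-2) * exp (-2) :=
          mul_le_mul' (mul_le_mul' hx1 hx1) hx1
      _ = exp (-6) := by rw [← exp_add, ← exp_add]; norm_num
  · rw [map_mul]
    calc v A * v (D.X P) ≤ exp (-4) * exp (-2) := mul_le_mul' hA hx1
      _ = exp (-6) := by rw [← exp_add]; norm_num

end Pool.Agent.Lib.FL60
end
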