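import Pool.Agent.Lib.FMK60.CurveDataK
import Pool.Agent.Lib.MP_4a0cc8_ntL.Defs

set_option autoImplicit false
set_option linter.unusedSectionVars false
set_option linter.unusedVariables false

namespace Pool.Agent.Lib.FL60

open Polynomial WeierstrassCurve Pool.Agent.Lib.EC60 WithZero NumberField Pool.Agent.Lib.FM60
open Pool.Agent.Lib.FMK60

variable {K : Type*} [Field K] [NumberField K]
variable {Ω : Type*} [Field Ω] [DecidableEq Ω] [CharZero Ω] [Algebra K Ω] [IsAlgClosed Ω]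

/-- JOB L12 (TData), first part. The chord and tangent formulas for the ordinates.

PROOF. Write `P, Q` as `Affine.Point.some` (as in the proofs of `HasXY.add`, `HasXY.double` in
Lib/EC60/Basic.lean) and use `Affine.Point.add_of_X_ne`, `Affine.Point.add_self_of_Y_ne`,
`Affine.slope_of_X_ne`, `Affine.slope_of_Y_ne`, `Affine.addX`, `Affine.addY`, `Affine.negAddY`,
`negY_short`: with the slope `m`: `x(P+Q) = m² - x₁ - x₂`, `y(P+Q) = - (m (x(P+Q) - x₁) + y₁)`. -/
theorem yadd_points {F : Type*} [Field F] [DecidableEq F] {W : WeierstrassCurve F} [W.IsShortNF]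
    (h2 : (2 : F) ≠ 0) {P Q : W.toAffine.Point} {x₁ y₁ x₂ y₂ x₃ y₃ : F} (hP : HasXY P x₁ y₁)
    (hQ : HasXY Q x₂ y₂) (hPQ : HasXY (P + Q) x₃ y₃) :
    (x₁ ≠ x₂ → (x₁ - x₂) * (y₃ + y₁) = (y₁ - y₂) * (x₁ - x₃)) ∧
    (P = Q → y₁ ≠ 0 → 2 * y₁ * (y₃ + y₁) = (3 * x₁ ^ 2 + W.a₄) * (x₁ - x₃)) := by
  constructor
  · intro hx
    obtain ⟨h₁, rfl⟩ := hP
    obtain ⟨h₂, rfl⟩ := hQ
    obtain ⟨h₃, h4⟩ := hPQ
    rw [Affine.Point.add_of_X_ne hx] at h4
    obtain ⟨e1, e2⟩ := Affine.Point.some.inj h4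
    have hx' : x₁ - x₂ ≠ 0 := sub_ne_zero.mpr hx
    simp only [Affine.addY, Affine.negAddY, negY_short] at e2
    rw [e1] at e2
    rw [Affine.slope_of_X_ne hx] at e2
    rw [← e2]
    field_simp
    ring
  · rintro rfl hy
    obtain ⟨h₁, rfl⟩ := hP
    obtain ⟨h₃, h4⟩ := hPQ
    have hy' : y₁ ≠ W.toAffine.negY x₁ y₁ := by
      rw [negY_short]
      intro h
      apply hy
      have : (2 : F) * y₁ = 0 := by linear_combination h
      exact (mul_eq_zero.mp this).resolve_left h2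
    rw [Affine.Point.add_self_of_Y_ne hy'] at h4
    obtain ⟨e1, e2⟩ := Affine.Point.some.inj h4
    simp only [Affine.addY, Affine.negAddY, negY_short] at e2
    rw [e1] at e2
    rw [Affine.slope_of_Y_ne rfl hy', negY_short] at e2
    simp only [a₁_of_isShortNF, a₂_of_isShortNF] at e2
    rw [show y₁ - -y₁ = 2 * y₁ by ring] at e2
    rw [← e2]
    have h2y : 2 * y₁ ≠ 0 := mul_ne_zero h2 hy
    generalize hd : 2 * y₁ = d at h2y
    rw [show -((3 * x₁ ^ 2 + 2 * 0 * x₁ + W.toAffine.a₄ - 0 * y₁) / d * (x₃ - x₁) + y₁) + y₁ =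
      (3 * x₁ ^ 2 + W.a₄) / d * (x₁ - x₃) by ring]
    field_simp

/-- JOB L12 (TData), second part: the coordinates of the `n`-torsion satisfy the formulas.

PROOF. `torsData L hX hY` (Lib/FMK60/CurveDataK.lean) has `X P = ⟨xc P.1, _⟩`, `Y P = ⟨yc P.1, _⟩`;
`hasXY_self`, `Vp_val_ne`, and `yc_eq_zero_iff` as in the proof of `dbl` in `torsData`; then
`yadd_points` (`P + Q ≠ 0` because `X P ≠ X Q`, as `xc (-Q) = xc Q`). -/
theorem yadd_torsData {A B : 𝓞 K} {n : ℕ} (L : IntermediateField K Ω)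
    (hX : ∀ P : Vp Ω A B n, xc P.1 ∈ L) (hY : ∀ P : Vp Ω A B n, yc P.1 ∈ L) :
    YAdd (torsData L hX hY) where
  add := by
    intro P Q hP hQ h
    have hne : xc P.1 ≠ xc Q.1 := fun h0 => h (Subtype.ext h0)
    have hPQ : P + Q ≠ 0 := by
      intro h0
      apply h
      have h1 : P = -Q := eq_neg_of_add_eq_zero_left h0
      rw [h1]
      exact (torsData L hX hY).X_neg Q
    have h1 := (yadd_points two_ne_zero (hasXY_self (Vp_val_ne hP)) (hasXY_self (Vp_val_ne hQ))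
      (hasXY_self (Vp_val_ne hPQ))).1 hne
    apply Subtype.ext
    push_cast
    exact h1
  dbl := by
    intro P hP hPP
    have hy : yc P.1 ≠ 0 := by
      intro h0
      have h1 := (yc_eq_zero_iff (Vp_val_ne hP)).mp h0
      rw [two_smul] at h1
      exact hPP (Subtype.ext h1)
    have h1 := (yadd_points two_ne_zero (hasXY_self (Vp_val_ne hP)) (hasXY_self (Vp_val_ne hP))
      (hasXY_self (Vp_val_ne hPP))).2 rfl hy
    rw [a₄_curK] at h1
    apply Subtype.ext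
    push_cast
    exact h1

/-- JOB L12 (TData), third part: the abstract data for the `n`-torsion.

PROOF. As `exists_torsData_le` in Lib/FMK60/CurveDataK.lean (copy the proof, without the last
component), with `yadd_torsData`. -/
theorem exists_torsData_gen [IsGalois K Ω] {A B : 𝓞 K} (hΔ : 4 * A ^ 3 + 27 * B ^ 2 ≠ 0) {n : ℕ}
    (L : IntermediateField K Ω) [hgal : IsGalois K L]
    (hL : divField Ω (curK A B) n ≤ L) :
    ∃ (D : TorsData L (algebraMap K L A) (algebraMap K L B) (Vp Ω A B n))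
      (ρ : (L ≃ₐ[K] L) → Vp Ω A B n ≃+ Vp Ω A B n),
      PreActK D ρ ∧ YAdd D ∧ (∀ P : Vp Ω A B n, (D.X P : Ω) = xc P.1) ∧
      (∀ P : Vp Ω A B n, (D.Y P : Ω) = yc P.1) ∧
      (∀ (τ : Ω ≃ₐ[K] Ω) (σ : L ≃ₐ[K] L), (∀ x : L, τ (x : Ω) = (σ x : Ω)) →
        ∀ P : Vp Ω A B n, (ρ σ P).1 = act τ P.1) := by
  have hX : ∀ P : Vp Ω A B n, xc P.1 ∈ L := fun P => hL (Vp_xc_mem P)
  have hY : ∀ P : Vp Ω A B n, yc P.1 ∈ L := fun P => hL (Vp_yc_mem P)
  -- the lifts
  have hlift : ∀ (σ : L ≃ₐ[K] L) (x : L), (σ.liftNormal Ω : Ω ≃ₐ[K] Ω) (x : Ω) = (σ x : Ω) :=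
    fun σ x => σ.liftNormal_commutes Ω x
  refine ⟨torsData L hX hY, fun σ => actVp (σ.liftNormal Ω), ⟨?_, ?_, ?_⟩,
    yadd_torsData L hX hY, fun P => rfl, fun P => rfl, ?_⟩
  · intro g h P
    apply Subtype.ext
    change act ((g * h).liftNormal Ω) P.1 = act (g.liftNormal Ω) (act (h.liftNormal Ω) P.1)
    rw [act_act]
    apply act_congr L hX hY
    intro x hx
    rw [AlgEquiv.trans_apply]
    have e1 := hlift (g * h) ⟨x, hx⟩
    have e2 := hlift h ⟨x, hx⟩
    have e3 := hlift g (h ⟨x, hx⟩)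
    dsimp only at e1 e2
    rw [e1, e2, e3]
    rfl
  · intro g P
    apply Subtype.ext
    have h1 := hlift g ⟨xc P.1, hX P⟩
    rw [← show _ = _ from xc_act (g.liftNormal Ω) P.1] at h1
    exact h1
  · intro g P
    apply Subtype.ext
    have h1 := hlift g ⟨yc P.1, hY P⟩
    rw [← show _ = _ from yc_act (g.liftNormal Ω) P.1] at h1
    exact h1
  · intro τ σ h P
    change act (σ.liftNormal Ω) P.1 = act τ P.1
    apply act_congr L hX hY
    intro x hx
    have e1 := hlift σ ⟨x, hx⟩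
    have e2 := h ⟨x, hx⟩
    dsimp only at e1 e2
    rw [e1, e2]

end Pool.Agent.Lib.FL60
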