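import Pool.Agent.Lib.FMK60.PlaceK

set_option autoImplicit false
set_option linter.unusedSectionVars false
set_option linter.unusedVariables false

namespace Pool.Agent.Lib.FL60

open WithZero NumberField Pool.Agent.Lib.FM60 Pool.Agent.Lib.FMK60 IsDedekindDomain

/-- JOB L14 (TVal). Valuations of elements of `K` at a place above the unramified prime `l` are powers
of `v ℓ`.

PROOF. Let `p = l.asIdeal`, and let `m` be the largest integer with `a ∈ p ^ m` (it exists as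
`a ≠ 0`; for instance `multiplicity`/`l.intValuation`, or `Ideal.iInf_pow_eq_bot`, see also how
`hexact` is proved in Lib/FMK60/PlaceK.lean). `p ∣ (ℓ)`: `Ideal.span {ℓ} = p * J`, `J ≰ p` as
`ℓ ∉ p²`; take `s ∈ J`, `s ∉ p`. Then `s^m a ∈ J^m p^m = (ℓ^m)`, so `s^m a = ℓ^m b` in `𝓞 K`. If
`b ∈ p`, then `s^m a ∈ p^m · p = p ^ (m+1)`, with `s ∉ p` prime this gives `a ∈ p ^ (m+1)`
(the power of a prime of a Dedekind domain is primary: `Ideal.IsPrime.mul_mem_pow` or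
`Ideal.prime_pow_...`, or multiplicities), contradiction. So `b ∉ p`, `v b = 1` (`h.int`, `hvlt`),
`v s = 1`, and `v a = v ℓ ^ m`. -/
theorem exists_val_eq {K L : Type*} [Field K] [NumberField K] [Field L] [Algebra K L]
    {l : HeightOneSpectrum (𝓞 K)} {ℓ : ℕ} {v : Valuation L ℤᵐ⁰} {I : Subgroup (L ≃ₐ[K] L)}
    (h : PlaceK K L ℓ v I) (hl : (ℓ : 𝓞 K) ∈ l.asIdeal) (hl2 : (ℓ : 𝓞 K) ∉ l.asIdeal ^ 2)
    (hvlt : ∀ a : 𝓞 K, v (algebraMap K L a) < 1 ↔ a ∈ l.asIdeal) (a : 𝓞 K) (ha : a ≠ 0) :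
    ∃ m : ℕ, a ∈ l.asIdeal ^ m ∧ a ∉ l.asIdeal ^ (m + 1) ∧
      v (algebraMap K L a) = v (ℓ : L) ^ m := by
  have hp0 : l.asIdeal ≠ ⊥ := l.ne_bot
  have hpp : l.asIdeal.IsPrime := l.isPrime
  have hPprime : Prime l.asIdeal := Ideal.prime_of_isPrime hp0 hpp
  have hspan0 : Ideal.span {a} ≠ ⊥ := by
    rw [ne_eq, Ideal.span_singleton_eq_bot]; exact ha
  have hfin : FiniteMultiplicity l.asIdeal (Ideal.span {a}) :=
    FiniteMultiplicity.of_prime_left hPprime hspan0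
  obtain ⟨A, hA, hA2⟩ := hfin.exists_eq_pow_mul_and_not_dvd
  set m := multiplicity l.asIdeal (Ideal.span {a}) with hm
  have ham : a ∈ l.asIdeal ^ m := by
    rw [← Ideal.dvd_span_singleton]
    exact ⟨A, hA⟩
  have ham1 : a ∉ l.asIdeal ^ (m + 1) := by
    rw [← Ideal.dvd_span_singleton]
    rintro ⟨B, hB⟩
    apply hA2
    rw [hA, pow_succ, mul_assoc] at hB
    exact ⟨B, mul_left_cancel₀ (pow_ne_zero m hPprime.ne_zero) hB⟩
  refine ⟨m, ham, ham1, ?_⟩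
  obtain ⟨J, hJ⟩ : l.asIdeal ∣ Ideal.span {(ℓ : 𝓞 K)} := by
    rw [Ideal.dvd_span_singleton]; exact hl
  have hJ2 : ¬ l.asIdeal ∣ J := by
    rintro ⟨J', rfl⟩
    apply hl2
    rw [← Ideal.dvd_span_singleton, hJ, pow_two, ← mul_assoc]
    exact Dvd.intro _ rfl
  obtain ⟨s, hsJ, hsp⟩ : ∃ s ∈ J, s ∉ l.asIdeal := by
    rw [Ideal.dvd_iff_le] at hJ2
    exact Set.not_subset.1 hJ2
  have h1 : s ^ m * a ∈ Ideal.span {(ℓ : 𝓞 K) ^ m} := by
    have h2 : s ^ m * a ∈ J ^ m * l.asIdeal ^ m := Ideal.mul_mem_mul (Ideal.pow_mem_pow hsJ m) ham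
    rw [← mul_pow, mul_comm J, ← hJ, Ideal.span_singleton_pow] at h2
    exact h2
  rw [Ideal.mem_span_singleton] at h1
  obtain ⟨b, hb⟩ := h1
  have hsm : s ^ m ∉ l.asIdeal := fun h2 => hsp (hpp.mem_of_pow_mem m h2)
  have hbp : b ∉ l.asIdeal := by
    intro h2
    have h3 : s ^ m * a ∈ l.asIdeal ^ (m + 1) := by
      rw [hb, pow_succ]
      exact Ideal.mul_mem_mul (Ideal.pow_mem_pow hl m) h2
    rcases Ideal.IsPrime.mul_mem_pow l.asIdeal h3 with h4 | h4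
    · exact hsm h4
    · exact ham1 h4
  have hv1 : ∀ x : 𝓞 K, x ∉ l.asIdeal → v (algebraMap K L x) = 1 := by
    intro x hx
    refine le_antisymm (h.int _ (map_isIntegral_int (algebraMap K L)
      (RingOfIntegers.isIntegral_coe x))) ?_
    rw [← hvlt, not_lt] at hx
    exact hx
  have h5 : v (algebraMap K L ((s ^ m * a : 𝓞 K) : K)) =
      v (algebraMap K L (((ℓ : 𝓞 K) ^ m * b : 𝓞 K) : K)) := by rw [hb]
  have hs1 := hv1 _ hsm
  have hb1 := hv1 _ hbp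
  have hmul : ∀ x y : 𝓞 K, v (algebraMap K L ((x * y : 𝓞 K) : K)) =
      v (algebraMap K L x) * v (algebraMap K L y) := fun x y => by
    rw [← map_mul, ← map_mul]; rfl
  rw [hmul, hs1, one_mul, hmul, hb1, mul_one] at h5
  rw [h5]
  simp

/-- JOB L14 (TVal), second part. Follows from the first part (`v ℓ < 1`, `0 < v ℓ`:
`PlaceK.val_lt`, `PlaceK.val_pos`; powers of an ideal are decreasing). -/
theorem mem_pow_iff {K L : Type*} [Field K] [NumberField K] [Field L] [Algebra K L]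
    {l : HeightOneSpectrum (𝓞 K)} {ℓ : ℕ} {v : Valuation L ℤᵐ⁰} {I : Subgroup (L ≃ₐ[K] L)}
    (hI : Finite I) (h : PlaceK K L ℓ v I) (hl : (ℓ : 𝓞 K) ∈ l.asIdeal)
    (hl2 : (ℓ : 𝓞 K) ∉ l.asIdeal ^ 2)
    (hvlt : ∀ a : 𝓞 K, v (algebraMap K L a) < 1 ↔ a ∈ l.asIdeal) (a : 𝓞 K) (m : ℕ) :
    a ∈ l.asIdeal ^ m ↔ v (algebraMap K L a) ≤ v (ℓ : L) ^ m := by
  by_cases ha : a = 0
  · subst ha
    simp
  · obtain ⟨m0, h1, h2, h3⟩ := exists_val_eq h hl hl2 hvlt a ha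
    rw [h3, pow_le_pow_iff_right_of_lt_one₀ h.val_pos h.val_lt]
    constructor
    · intro h4
      by_contra h5
      exact h2 (Ideal.pow_le_pow_right (by omega) h4)
    · intro h4
      exact Ideal.pow_le_pow_right h4 h1

end Pool.Agent.Lib.FL60
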