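import Mathlib

set_option autoImplicit false
set_option linter.unusedVariables false

namespace Pool.Agent.Lib.FL60

/-- JOB L24 (WArith). The final contradiction.

PROOF. `n ∣ (p²-1) α` (`h - 1` divides `p² - 1`), `n ∣ (p²-1) α₀` (`h₀ - 1` divides `p² - 1`,
`(h₀-1) α₀ = n`), so `n ∣ (p²-1) w`, and `n ∣ p^j w`; `p² - 1` and `p^j` are coprime, so `n ∣ w`. It
remains to see `-n < w < 0`. `(p-1) β ≤ (h-1) β ≤ n = 12 m` and `p - 1 ≥ 16` give `4 β ≤ 3 m`. So
`α = β - k m ≤ 3m/4 - m < 0` and `α > -11 m`. `α₀ > 0` and `(p - 1) α₀ ≤ n`, so `4 α₀ ≤ 3 m`: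
`w = α` and `w = α - α₀ > -11m - 3m/4` are in the range. If `h₀ = p²` and `w = α - p α₀`:
`(p² - 1) α₀ = 12 m`, `12 p ≤ p² - 1`, so `p α₀ (p²-1) = 12 p m ≤ (p²-1) m`, `p α₀ ≤ m`,
`w > -11m - m`. -/
theorem arith_contra {p h h₀ k : ℕ} {n m α β α₀ w : ℤ} (hp : p.Prime) (hp17 : 17 ≤ p)
    (hn : n = 12 * m) (hm : 0 < m) (hk0 : 0 < k) (hk : k < 12) (hh : h = p ∨ h = p ^ 2)
    (hh₀ : h₀ = p ∨ h₀ = p ^ 2) (hβ0 : 0 < β) (hβ : ((h : ℤ) - 1) * β ≤ n)
    (hα : α = β - k * m) (hα₀ : ((h₀ : ℤ) - 1) * α₀ = n) (hdvd : n ∣ ((h : ℤ) - 1) * α)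
    (hw : w = α ∨ w = α - α₀ ∨ (h₀ = p ^ 2 ∧ w = α - p * α₀)) (j : ℕ)
    (hj : n ∣ (p : ℤ) ^ j * w) : False := by
  have hP : (17 : ℤ) ≤ p := by exact_mod_cast hp17
  obtain ⟨P, hPdef⟩ : ∃ P : ℤ, P = p := ⟨_, rfl⟩
  rw [← hPdef] at hP hw hj
  have hhP : (h : ℤ) = P ∨ (h : ℤ) = P ^ 2 := by
    rcases hh with rfl | rfl
    · exact Or.inl hPdef.symm
    · right
      rw [hPdef]
      push_cast
      ring
  have hh₀P : (h₀ : ℤ) = P ∨ (h₀ : ℤ) = P ^ 2 := by
    rcases hh₀ with rfl | rfl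
    · exact Or.inl hPdef.symm
    · right
      rw [hPdef]
      push_cast
      ring
  have hn0 : 0 < n := by linarith
  have hk1 : (1 : ℤ) ≤ k := by exact_mod_cast hk0
  have hk11 : (k : ℤ) ≤ 11 := by
    have : k ≤ 11 := by omega
    exact_mod_cast this
  -- bounds
  have hsq : P ≤ P ^ 2 := by nlinarith
  have hβ2 : (P - 1) * β ≤ n := by
    rcases hhP with e | e
    · rw [e] at hβ
      exact hβ
    · rw [e] at hβ
      nlinarith
  have hβ3 : 4 * β ≤ 3 * m := by nlinarith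
  have hα₀pos : 0 < α₀ := by
    have h1 : 0 < (h₀ : ℤ) - 1 := by rcases hh₀P with e | e <;> rw [e] <;> nlinarith
    by_contra hc
    push Not at hc
    nlinarith
  have hα₀2 : (P - 1) * α₀ ≤ n := by
    rcases hh₀P with e | e
    · rw [e] at hα₀
      exact hα₀.le
    · rw [e] at hα₀
      nlinarith
  have hα₀3 : 4 * α₀ ≤ 3 * m := by nlinarith
  have hkm1 : m ≤ k * m := by nlinarith
  have hkm2 : (k : ℤ) * m ≤ 11 * m := by nlinarith
  have hαneg : α < 0 := by linarith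
  have hαlow : -(11 * m) < α := by linarith
  -- divisibility
  have d1 : n ∣ (P ^ 2 - 1) * α := by
    rcases hhP with e | e
    · rw [e] at hdvd
      have e2 : (P ^ 2 - 1) * α = (P + 1) * ((P - 1) * α) := by ring
      rw [e2]
      exact hdvd.mul_left _
    · rw [e] at hdvd
      exact hdvd
  have d2 : n ∣ (P ^ 2 - 1) * α₀ := by
    rcases hh₀P with e | e
    · rw [e] at hα₀
      have e2 : (P ^ 2 - 1) * α₀ = (P + 1) * ((P - 1) * α₀) := by ring
      rw [e2, hα₀]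
      exact dvd_mul_left _ _
    · rw [e] at hα₀
      rw [hα₀]
  have d3 : n ∣ (P ^ 2 - 1) * w := by
    rcases hw with rfl | rfl | ⟨-, rfl⟩
    · exact d1
    · rw [mul_sub]
      exact dvd_sub d1 d2
    · have e2 : (P ^ 2 - 1) * (α - P * α₀) = (P ^ 2 - 1) * α - P * ((P ^ 2 - 1) * α₀) := by ring
      rw [e2]
      exact dvd_sub d1 (d2.mul_left _)
  have hco : IsCoprime (P ^ 2 - 1) (P ^ j) := by
    apply IsCoprime.pow_right
    exact ⟨-1, P, by ring⟩
  have hnw : n ∣ w := by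
    obtain ⟨a, b, hab⟩ := hco
    have e2 : w = a * ((P ^ 2 - 1) * w) + b * (P ^ j * w) := by linear_combination (-w) * hab
    rw [e2]
    exact dvd_add (d3.mul_left _) (hj.mul_left _)
  have hrange : -n < w ∧ w < 0 := by
    rcases hw with rfl | rfl | ⟨h2, rfl⟩
    · constructor <;> linarith
    · constructor <;> linarith
    · have e3 : (h₀ : ℤ) = P ^ 2 := by
        rw [h2, hPdef]
        push_cast
        ring
      rw [e3] at hα₀
      have h12 : 12 * P ≤ P ^ 2 - 1 := by nlinarith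
      have h4 : P * α₀ ≤ m := by
        by_contra hc
        push Not at hc
        have h5 : (P ^ 2 - 1) * m < (P ^ 2 - 1) * (P * α₀) := by
          apply mul_lt_mul_of_pos_left hc
          nlinarith
        have h6 : (P ^ 2 - 1) * (P * α₀) = P * (12 * m) := by
          rw [← hn, ← hα₀]
          ring
        nlinarith
      have h7 : 0 < P * α₀ := by positivity
      constructor <;> linarith
  obtain ⟨c, hc⟩ := hnw
  have hc1 : c < 0 := by
    by_contra h1
    push Not at h1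
    nlinarith [hrange.2]
  have hc2 : -1 < c := by
    by_contra h1
    push Not at h1
    nlinarith [hrange.1]
  omega

end Pool.Agent.Lib.FL60
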