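import Pool.Agent.Lib.MP_4a0cc8_ntL.Defs

set_option autoImplicit false
set_option linter.unusedSectionVars false
set_option linter.unusedVariables false

namespace Pool.Agent.Lib.FL60

open WithZero Pool.Agent.Lib.FM60 Pool.Agent.Lib.FMK60 Polynomial

/-- JOB L30 (WField), first part. A finite Galois extension can be enlarged so that it contains a
12th root of `p`.

PROOF. `L = M ⊔ IntermediateField.adjoin K ((X ^ 12 - C (p : K)).rootSet Ω)`. The second field is a
splitting field of a separable polynomial (`IntermediateField.adjoin_rootSet_isSplittingField`,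
`IsGalois.of_separable_splitting_field`; `X^12 - C p` is separable in characteristic `0` as `p ≠ 0`:
`Polynomial.separable_X_pow_sub_C`; it splits in the algebraically closed field `Ω`), it is finite over `K`; the
compositum of two finite Galois extensions inside `Ω` is finite Galois (instances). A root exists
(`IsAlgClosed.exists_pow_nat_eq`). -/
theorem exists_field {K : Type*} [Field K] [CharZero K] {Ω : Type*} [Field Ω] [Algebra K Ω]
    [IsAlgClosed Ω] (M : IntermediateField K Ω) [IsGalois K M] [FiniteDimensional K M] {p : ℕ}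
    (hp : 0 < p) :
    ∃ L : IntermediateField K Ω, M ≤ L ∧ IsGalois K L ∧ FiniteDimensional K L ∧
      ∃ ϖ : L, ϖ ^ 12 = (p : L) := by
  classical
  set f : Polynomial K := Polynomial.X ^ 12 - Polynomial.C (p : K) with hf
  have hp0 : (p : K) ≠ 0 := by exact_mod_cast hp.ne'
  have hsep : f.Separable := Polynomial.separable_X_pow_sub_C (p : K) (by norm_num) hp0
  let N := IntermediateField.adjoin K (f.rootSet Ω)
  have hspl : (f.map (algebraMap K Ω)).Splits := IsAlgClosed.splits _
  have hN : Polynomial.IsSplittingField K N f :=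
    IntermediateField.adjoin_rootSet_isSplittingField hspl
  have hNf : FiniteDimensional K N := Polynomial.IsSplittingField.finiteDimensional N f
  have hNg : IsGalois K N := IsGalois.of_separable_splitting_field hsep
  obtain ⟨z, hz⟩ := IsAlgClosed.exists_pow_nat_eq (p : Ω) (n := 12) (by norm_num)
  have hzN : z ∈ N := by
    apply IntermediateField.subset_adjoin
    rw [Polynomial.mem_rootSet_of_ne hsep.ne_zero]
    simp [hf, hz]
  refine ⟨M ⊔ N, le_sup_left, inferInstance, inferInstance, ⟨z, ?_⟩, ?_⟩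
  · exact (le_sup_right : N ≤ M ⊔ N) hzN
  · apply Subtype.ext
    push_cast
    exact hz

/-- Transport of the torsion data along an isomorphism. -/
def tr {L : Type*} [Field L] {A B : L} {V W : Type*} [AddCommGroup V] [AddCommGroup W]
    (D : TorsData L A B W) (φ : V ≃+ W) : TorsData L A B V where
  X P := D.X (φ P)
  Y P := D.Y (φ P)
  eqn := fun {P} hP => D.eqn (by simpa using hP)
  X_neg P := by rw [map_neg, D.X_neg]
  Y_neg P := by rw [map_neg, D.Y_neg]
  eq_of_X := fun {P Q} hP hQ h => by
    rcases D.eq_of_X (by simpa using hP) (by simpa using hQ) h with h1 | h1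
    · exact Or.inl (φ.injective h1)
    · right
      apply φ.injective
      rw [h1, map_neg]
  sub := fun {P Q} hP hQ h => by
    have := D.sub (by simpa using hP) (by simpa using hQ) h
    rw [map_sub]; exact this
  dbl := fun {P} hP hPP => by
    have := D.dbl (P := φ P) (by simpa using hP) (by rw [← map_add]; exact (map_ne_zero_iff φ φ.injective).mpr hPP)
    rw [map_add]; exact this

lemma YAdd.tr {L : Type*} [Field L] {A B : L} {V W : Type*} [AddCommGroup V] [AddCommGroup W]
    {D : TorsData L A B W} (h : YAdd D) (φ : V ≃+ W) : YAdd (tr D φ) where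
  add := fun {P Q} hP hQ hne => by
    have := h.add (P := φ P) (Q := φ Q) (by simpa using hP) (by simpa using hQ) hne
    rw [← map_add] at this; exact this
  dbl := fun {P} hP hPP => by
    have := h.dbl (P := φ P) (by simpa using hP) (by rw [← map_add]; exact (map_ne_zero_iff φ φ.injective).mpr hPP)
    rw [← map_add] at this; exact this

lemma preAct_tr {F L : Type*} [Field F] [Field L] [Algebra F L] {A B : L} {V W : Type*}
    [AddCommGroup V] [AddCommGroup W] {D : TorsData L A B W} {ρ : (L ≃ₐ[F] L) → W ≃+ W}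
    (h : PreActK D ρ) (φ : V ≃+ W) {ρ' : (L ≃ₐ[F] L) → V ≃+ V}
    (hmul : ∀ g h x, ρ' (g * h) x = ρ' g (ρ' h x))
    (hφ : ∀ g x, φ (ρ' g x) = ρ g (φ x)) : PreActK (tr D φ) ρ' where
  mul := hmul
  X g x := by
    change D.X (φ (ρ' g x)) = g (D.X (φ x))
    rw [hφ, h.X]
  Y g x := by
    change D.Y (φ (ρ' g x)) = g (D.Y (φ x))
    rw [hφ, h.Y]

/-- JOB L30 (WField), second part. The exponent `k` of the additive reduction
(`k = min (3a) (2b)`). Pure bookkeeping in `ℤᵐ⁰`: `x = v A`, `y = v B`, `w = v ϖ`.

PROOF. If `x ≠ 0`, `x = w ^ (12 a)`, and if `y ≠ 0`, `y = w ^ (12 b)`, with `a, b ≥ 1` (by `hx1`, `hy1`), and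
(`a ≤ 3` or `b ≤ 5`) by `hmin` where `a` counts as infinite if `x = 0`, and `b` as infinite if
`y = 0`. `k = min (3a) (2b)`: `4k ≤ 12 a`, `6 k ≤ 12 b` with one equality, `0 < k < 12`. -/
theorem exists_k {w x y : ℤᵐ⁰} (hw0 : 0 < w) (hw1 : w < 1)
    (hx : x = 0 ∨ ∃ a : ℕ, x = (w ^ 12) ^ a) (hy : y = 0 ∨ ∃ b : ℕ, y = (w ^ 12) ^ b)
    (hx1 : x < 1) (hy1 : y < 1) (hmin : ¬ (x ≤ (w ^ 12) ^ 4 ∧ y ≤ (w ^ 12) ^ 6)) :
    ∃ k : ℕ, 0 < k ∧ k < 12 ∧ x ≤ w ^ (4 * k) ∧ y ≤ w ^ (6 * k) ∧
      (x = w ^ (4 * k) ∨ y = w ^ (6 * k)) := by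
  have key : ∀ i j : ℕ, w ^ i ≤ w ^ j ↔ j ≤ i := fun i j => pow_le_pow_iff_right_of_lt_one₀ hw0 hw1
  have hne : ∀ a : ℕ, (w ^ 12) ^ a < 1 → a ≠ 0 := by
    rintro a h rfl
    simp at h
  rcases hx with rfl | ⟨a, rfl⟩
  · rcases hy with rfl | ⟨b, rfl⟩
    · exact absurd ⟨zero_le, zero_le⟩ hmin
    · have hb := hne b hy1
      have hb6 : b < 6 := by
        by_contra h
        apply hmin
        refine ⟨zero_le, ?_⟩
        rw [← pow_mul, ← pow_mul, key]; omega
      refine ⟨2 * b, by omega, by omega, zero_le, ?_, Or.inr ?_⟩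
      · rw [← pow_mul, key]; omega
      · rw [← pow_mul]; congr 1; ring
  · have ha := hne a hx1
    rcases hy with rfl | ⟨b, rfl⟩
    · have ha4 : a < 4 := by
        by_contra h
        apply hmin
        refine ⟨?_, zero_le⟩
        rw [← pow_mul, ← pow_mul, key]; omega
      refine ⟨3 * a, by omega, by omega, ?_, zero_le, Or.inl ?_⟩
      · rw [← pow_mul, key]; omega
      · rw [← pow_mul]; congr 1; ring
    · have hb := hne b hy1
      have h46 : a < 4 ∨ b < 6 := by
        by_contra h
        push Not at h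
        apply hmin
        constructor
        · rw [← pow_mul, ← pow_mul, key]; omega
        · rw [← pow_mul, ← pow_mul, key]; omega
      rcases le_total (3 * a) (2 * b) with h | h
      · refine ⟨3 * a, by omega, by omega, ?_, ?_, Or.inl ?_⟩
        · rw [← pow_mul, key]; omega
        · rw [← pow_mul, key]; omega
        · rw [← pow_mul]; congr 1; ring
      · refine ⟨2 * b, by omega, by omega, ?_, ?_, Or.inr ?_⟩
        · rw [← pow_mul, key]; omega
        · rw [← pow_mul, key]; omega
        · rw [← pow_mul]; congr 1; ring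

end Pool.Agent.Lib.FL60
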