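import Pool.Agent.Lib.FMK60.NodeWildK

set_option autoImplicit false
set_option linter.unusedSectionVars false
set_option linter.unusedVariables false

namespace Pool.Agent.Lib.FL60

open WithZero Polynomial Pool.Agent.Lib.FM60 Pool.Agent.Lib.FMK60

/-- JOB L28 (WNode). Multiplicative reduction at `p`, with `v (disc) = v p ^ a`, `p ∤ a`.

PROOF. This is `node_wild` of Lib/FMK60/NodeWildK.lean, which is the case `a = 1`; the proof works
without any new idea. Copy it, put `π = v (p : L)` and `δ = v (disc) = π ^ a` (`0 < δ < 1`, `a ≠ 0` as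
`p ∤ a`) and distinguish the two: `NodeH` with `δ`; `hev1`: `π² ∏ v (E.X P) = δ ^ (2 w)`,
`w = (p²-1)/8 ≥ 3`; `hev2`: `π² ∏ v (-3x₀ - E.X P) = 1`; `hPn`: otherwise
`π² ≤ δ ^ (2w) = π ^ (2 a w) < π²`; `key1`: `π² lam ^ (p-1) = 1`; `key2`:
`∏_{P ∈ N} v (E.X P) = δ ^ (2w)`; `key3`: the sum of the logarithms is `-(e * (a * (2 w)))`,
`e = card I`; coset sum: `p ∣ e * (a * 2w)`, and `p` is prime to `2w` and to `a`, so `p ∣ e`; if all
`log v (E.X x)` were divisible by `p`, then `p² ∣ e * (a * 2w)`, so `p² ∣ e`, contradiction to `hI2`;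
the last computation: `v (σ z/z - 1)² lam = 1` and `key1`. -/
theorem node_wild_pow {F L : Type*} [Field F] [Field L] [Algebra F L] {p : ℕ} (hp : p.Prime)
    (hp5 : 5 ≤ p)
    {v : Valuation L ℤᵐ⁰} {I : Subgroup (L ≃ₐ[F] L)} [Finite I] (h : PlaceK F L p v I)
    (hI2 : ¬ p ^ 2 ∣ Nat.card I) {A B : L} (hA1 : v A = 1) (hB1 : v B = 1)
    (hfA : ∀ g : L ≃ₐ[F] L, g A = A) (hfB : ∀ g : L ≃ₐ[F] L, g B = B) {a : ℕ} (ha : ¬ p ∣ a)
    (hΔ' : v (4 * A ^ 3 + 27 * B ^ 2) = v (p : L) ^ a)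
    {V : Type*} [AddCommGroup V] (hV : Nat.card V = p ^ 2) (hpV : ∀ x : V, p • x = 0)
    (D : TorsData L A B V) {ρ : (L ≃ₐ[F] L) → V ≃+ V} (hρ : PreActK D ρ)
    {S : Finset L} (hS : ∀ x, x ∈ S ↔ ∃ P : V, P ≠ 0 ∧ D.X P = x)
    (hprod : (⟨0, 0, 0, A, B⟩ : WeierstrassCurve L).preΨ' p =
      C (p : L) * ∏ x ∈ S, (X - C x)) :
    ∃ σ ∈ I, σ ^ p = 1 ∧ (∃ x, ρ σ x ≠ x) ∧ ∃ z : L, z ≠ 0 ∧ ¬ (p : ℤ) ∣ log (v z) ∧
      σ z ≠ z ∧ v (σ z / z - 1) ^ (2 * (p - 1)) = v (p : L) ^ 2 := by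
  classical
  have hVfin : Finite V := Nat.finite_of_card_ne_zero (by rw [hV]; exact (pow_pos hp.pos 2).ne')
  let _ : Fintype V := Fintype.ofFinite V
  have hodd : Odd p := hp.odd_of_ne_two (by omega)
  have hnd : ∀ m : ℕ, 0 < m → m < p → ¬ p ∣ m := fun m h0 h1 => Nat.not_dvd_of_pos_of_lt h0 h1
  have hv2 : v 2 = 1 := by
    simpa using h.nat_eq_one (m := 2) (hnd 2 (by norm_num) (by omega))
  have hv3 : v 3 = 1 := by
    simpa using h.nat_eq_one (m := 3) (hnd 3 (by norm_num) (by omega))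
  set ϖ := v (p : L) with hϖ
  have hϖ1 : ϖ < 1 := h.val_lt
  have hϖ0 : 0 < ϖ := h.val_pos
  have ha0 : a ≠ 0 := by
    rintro rfl
    exact ha (dvd_zero p)
  obtain ⟨δ, hδ⟩ : ∃ δ, δ = ϖ ^ a := ⟨_, rfl⟩
  have hδ1 : δ < 1 := by rw [hδ]; exact pow_lt_one₀ zero_le hϖ1 ha0
  have hδ0 : 0 < δ := by rw [hδ]; exact pow_pos hϖ0 a
  have hΔ : v (4 * A ^ 3 + 27 * B ^ 2) = δ := by rw [hδ]; exact hΔ'
  have h20 : (2 : L) ≠ 0 := by intro h0; rw [h0, map_zero] at hv2; exact zero_ne_one hv2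
  have hA0 : A ≠ 0 := by intro h0; rw [h0, map_zero] at hA1; exact zero_ne_one hA1
  have hv4 : v 4 = 1 := by
    rw [show (4 : L) = 2 * 2 by norm_num, map_mul, hv2, one_mul]
  have hv8 : v 8 = 1 := by
    rw [show (8 : L) = 4 * 2 by norm_num, map_mul, hv2, hv4, one_mul]
  set x₀ : L := -3 * B / (2 * A) with hx₀
  have hvx₀ : v x₀ = 1 := by
    rw [hx₀, map_div₀, map_mul, map_mul, Valuation.map_neg, hv3, hB1, hv2, hA1]
    simp
  set F₀ := x₀ ^ 3 + A * x₀ + B with hF₀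
  set G₀ := 3 * x₀ ^ 2 + A with hG₀
  have hF : v F₀ = δ := by
    rw [hF₀, hx₀, node_f hA0 h20, map_div₀, map_mul, map_mul, Valuation.map_neg, hB1, hΔ, hv8,
      map_pow, hA1]
    simp
  have hG : v G₀ = δ := by
    rw [hG₀, hx₀, node_f' hA0 h20, map_div₀, map_mul, hΔ, hv4, map_pow, hA1]
    simp
  have hN : NodeH v (3 * x₀) G₀ F₀ δ :=
    { two := hv2
      three := hv3
      ha := by rw [map_mul, hv3, hvx₀, one_mul]
      hb := hG.le
      hc := hF
      lt := hδ1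
      pos := hδ0 }
  set E : GT L (3 * x₀) G₀ F₀ V := D.shift x₀ with hE
  have hEX : ∀ P, E.X P = D.X P - x₀ := fun P => rfl
  have h2V : ∀ P : V, P + P = 0 → P = 0 := by
    intro P hP
    have := mem_of_double hodd hpV (⊥ : AddSubgroup V) (P := P) (by rw [hP]; exact zero_mem _)
    simpa using this
  have hpr := prod_val D v h2V hS hprod
  -- the two evaluations
  have hev1 : ϖ ^ 2 * ∏ P ∈ Finset.univ.erase (0 : V), v (E.X P) = δ ^ (2 * ((p ^ 2 - 1) / 8)) := by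
    have h1 := hpr x₀
    rw [val_eval_node v hodd hv2 hv3 hvx₀ hδ1 hδ0 hF hG.le, ← pow_mul, mul_comm _ 2] at h1
    rw [← h1]
    congr 1
    apply Finset.prod_congr rfl
    intro P _
    rw [hEX, Valuation.map_sub_swap]
  have hev2 : ϖ ^ 2 * ∏ P ∈ Finset.univ.erase (0 : V), v (-3 * x₀ - E.X P) = 1 := by
    have h1 := hpr (-2 * x₀)
    rw [val_eval_unit v hodd hv2 hv3 hA1.le hvx₀ (by rw [← hF₀, hF]; exact hδ1)
      (by rw [← hG₀, hG]; exact hδ1), one_pow] at h1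
    rw [← h1]
    congr 1
    apply Finset.prod_congr rfl
    intro P _
    rw [hEX]
    congr 1
    ring
  -- there is a point with large abscissa
  have hQ : ∃ Q : V, Q ≠ 0 ∧ 1 < v (E.X Q) := by
    by_contra hcon
    push Not at hcon
    have h1 : ∏ P ∈ Finset.univ.erase (0 : V), v (-3 * x₀ - E.X P) ≤ 1 := by
      apply Finset.prod_le_one'
      intro P hP
      apply GT.le_sub v _ (hcon P (Finset.ne_of_mem_erase hP))
      rw [map_mul, Valuation.map_neg, hv3, hvx₀, one_mul]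
    have h2 : ϖ ^ 2 * ∏ P ∈ Finset.univ.erase (0 : V), v (-3 * x₀ - E.X P) < 1 := by
      calc ϖ ^ 2 * _ ≤ ϖ ^ 2 * 1 := by gcongr
        _ = ϖ ^ 2 := mul_one _
        _ < 1 := pow_lt_one₀ zero_le hϖ1 two_ne_zero
    rw [hev2] at h2
    exact lt_irrefl _ h2
  have hw : 3 ≤ (p ^ 2 - 1) / 8 := by
    rw [Nat.le_div_iff_mul_le (by norm_num)]
    have : 5 ^ 2 ≤ p ^ 2 := Nat.pow_le_pow_left hp5 2
    omega
  -- there is a point near the node
  have hPn : ∃ P : V, P ≠ 0 ∧ v (E.X P) < 1 := by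
    by_contra hcon
    push Not at hcon
    have h1 : 1 ≤ ∏ P ∈ Finset.univ.erase (0 : V), v (E.X P) := by
      apply Finset.one_le_prod'
      intro P hP
      exact hcon P (Finset.ne_of_mem_erase hP)
    have h2 : ϖ ^ 2 ≤ δ ^ (2 * ((p ^ 2 - 1) / 8)) := by
      rw [← hev1]
      calc ϖ ^ 2 = ϖ ^ 2 * 1 := (mul_one _).symm
        _ ≤ _ := by gcongr
    have h3 : δ ^ (2 * ((p ^ 2 - 1) / 8)) < ϖ ^ 2 := by
      rw [hδ, ← pow_mul]
      apply pow_lt_pow_right_of_lt_one₀ hϖ0 hϖ1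
      have h4 : 1 ≤ a := Nat.one_le_iff_ne_zero.mpr ha0
      nlinarith
    exact absurd h2 (not_le.mpr h3)
  -- the two subgroups
  have hexp1 : (1 : ℤᵐ⁰) < exp 1 := by rw [← exp_zero, exp_lt_exp]; norm_num
  have hlog : ∀ y : ℤᵐ⁰, 1 < y → exp 1 ≤ y := by
    intro y hy
    have hy0 : y ≠ 0 := (lt_trans zero_lt_one hy).ne'
    rw [← exp_log hy0] at hy ⊢
    rw [← exp_zero, exp_lt_exp] at hy
    rw [exp_le_exp]; omega
  have ha' := hN.ha.le
  have hb' : v G₀ ≤ 1 := hN.hb.trans hδ1.le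
  have hc' : v F₀ ≤ 1 := hN.hc.le.trans hδ1.le
  have hcard : ∀ H : AddSubgroup V, H ≠ ⊥ → H ≠ ⊤ → Nat.card H = p := by
    intro H hb ht
    have h1 : Nat.card H ∣ p ^ 2 := hV ▸ AddSubgroup.card_addSubgroup_dvd_card H
    rcases (Nat.dvd_prime_pow hp).mp h1 with ⟨k, hk, hk2⟩
    interval_cases k
    · exact absurd (AddSubgroup.card_eq_one.mp (by rw [hk2, pow_zero])) hb
    · rw [hk2, pow_one]
    · exact absurd (AddSubgroup.eq_top_of_card_eq H (by rw [hk2, hV])) ht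
  set C₀ := E.away hN with hC₀
  have hC₀t : C₀ ≠ ⊤ := by
    obtain ⟨P, hP, hP1⟩ := hPn
    intro h0
    have : P ∈ C₀ := by rw [h0]; trivial
    rcases this with h1 | h1
    · exact hP h1
    · exact absurd hP1 (not_lt.mpr h1)
  have hbig : ∀ (μ : ℤᵐ⁰) (hμ : 1 < μ) (Q : V), Q ≠ 0 → μ ≤ v (E.X Q) →
      E.big ha' hb' hc' hμ = C₀ := by
    intro μ hμ Q hQ0 hQμ
    have hle : E.big ha' hb' hc' hμ ≤ C₀ := by
      rintro P (rfl | hP)
      · exact zero_mem _
      · exact Or.inr (hμ.le.trans hP)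
    have hne : E.big ha' hb' hc' hμ ≠ ⊥ := by
      intro h0
      have : Q ∈ E.big ha' hb' hc' hμ := Or.inr hQμ
      rw [h0] at this
      exact hQ0 (by simpa using this)
    have hnt : E.big ha' hb' hc' hμ ≠ ⊤ := fun h0 => hC₀t (top_le_iff.mp (h0 ▸ hle))
    have hnb : C₀ ≠ ⊥ := fun h0 => hne (le_bot_iff.mp (h0 ▸ hle))
    have e1 := hcard _ hne hnt
    have e2 := hcard _ hnb hC₀t
    exact AddSubgroup.eq_of_le_of_card_ge hle (by rw [e1, e2])
  obtain ⟨Q₁, hQ₁, hQ₁v⟩ := hQ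
  set lam := v (E.X Q₁) with hlam
  have hC₀b : C₀ ≠ ⊥ := by
    intro h0
    have : Q₁ ∈ C₀ := Or.inr hQ₁v.le
    rw [h0] at this
    exact hQ₁ (by simpa using this)
  have hcC : Nat.card C₀ = p := hcard _ hC₀b hC₀t
  have hlamC : ∀ Q ∈ C₀, Q ≠ 0 → v (E.X Q) = lam := by
    intro Q hQC hQ0
    have h1 : 1 < v (E.X Q) := by
      have h2 : Q ∈ E.big ha' hb' hc' hexp1 := by
        rw [hbig _ hexp1 Q₁ hQ₁ (hlog _ hQ₁v)]; exact hQC
      rcases h2 with h2 | h2
      · exact absurd h2 hQ0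
      · exact hexp1.trans_le h2
    apply le_antisymm
    · have h3 : Q₁ ∈ E.big ha' hb' hc' h1 := by
        rw [hbig _ h1 Q hQ0 le_rfl]
        exact Or.inr hQ₁v.le
      rcases h3 with h3 | h3
      · exact absurd h3 hQ₁
      · exact h3
    · have h3 : Q ∈ E.big ha' hb' hc' hQ₁v := by
        rw [hbig _ hQ₁v Q₁ hQ₁ le_rfl]
        exact hQC
      rcases h3 with h3 | h3
      · exact absurd h3 hQ0
      · exact h3
  -- the points near the node
  set N : Finset V := Finset.univ.filter (fun P => P ∉ C₀) with hNdef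
  have hmemN : ∀ P, P ∈ N ↔ P ≠ 0 ∧ v (E.X P) < 1 := by
    intro P
    rw [hNdef, Finset.mem_filter]
    simp only [Finset.mem_univ, true_and]
    rw [hC₀, GT.mem_away, not_or, not_le]
  have hNfar : ∀ P ∈ N, δ < v (E.X P) ^ 2 := by
    intro P hP
    have hPC : P ∉ C₀ := by
      rw [hNdef, Finset.mem_filter] at hP; exact hP.2
    have hP' := (hmemN P).mp hP
    have h2P : P + P ∉ C₀ := fun h0 => hPC (mem_of_double hodd hpV C₀ h0)
    have h2P' : P + P ∈ N := by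
      rw [hNdef, Finset.mem_filter]; exact ⟨Finset.mem_univ _, h2P⟩
    have h2P'' := (hmemN _).mp h2P'
    exact E.node_far hN hP'.1 h2P''.1 hP'.2 h2P''.2
  set CS : Finset V := (Finset.univ.filter (fun P => P ∈ C₀)).erase 0 with hCS
  have hsplit : Finset.univ.erase (0 : V) = CS ∪ N := by
    ext P
    simp only [hCS, hNdef, Finset.mem_erase, Finset.mem_univ, and_true, Finset.mem_union,
      Finset.mem_filter, true_and]
    constructor
    · intro hP
      by_cases hPC : P ∈ C₀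
      · exact Or.inl ⟨hP, hPC⟩
      · exact Or.inr hPC
    · rintro (⟨hP, -⟩ | hP)
      · exact hP
      · rintro rfl
        exact hP (zero_mem _)
  have hdisj : Disjoint CS N := by
    rw [Finset.disjoint_left]
    intro P hP hP'
    simp only [hCS, hNdef, Finset.mem_erase, Finset.mem_univ, Finset.mem_filter, true_and] at hP hP'
    exact hP' hP.2
  have hcCS : CS.card = p - 1 := by
    rw [hCS, Finset.card_erase_of_mem (by simp)]
    congr 1
    rw [← hcC, Nat.card_eq_fintype_card, Fintype.card_subtype]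
  have hlam0 : 0 < lam := lt_trans zero_lt_one hQ₁v
  have key1 : ϖ ^ 2 * lam ^ (p - 1) = 1 := by
    rw [← hev2, hsplit, Finset.prod_union hdisj]
    have e1 : ∏ P ∈ CS, v (-3 * x₀ - E.X P) = lam ^ (p - 1) := by
      rw [← hcCS, ← Finset.prod_const]
      apply Finset.prod_congr rfl
      intro P hP
      simp only [hCS, Finset.mem_erase, Finset.mem_filter, Finset.mem_univ, true_and] at hP
      have h1 := hlamC P hP.2 hP.1
      have h2 : v (-3 * x₀) < v (E.X P) := by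
        rw [h1, map_mul, Valuation.map_neg, hv3, hvx₀, one_mul]; exact hQ₁v
      rw [Valuation.map_sub_swap, ← h1]
      have h3 : E.X P - -3 * x₀ = -3 * x₀ * (-1) + E.X P := by ring
      rw [h3, Valuation.map_add_eq_of_lt_right]
      rw [map_mul, Valuation.map_neg, map_one, mul_one]
      exact h2
    have e2 : ∏ P ∈ N, v (-3 * x₀ - E.X P) = 1 := by
      apply Finset.prod_eq_one
      intro P hP
      have h1 := ((hmemN P).mp hP).2
      have h2 : v (-3 * x₀) = 1 := by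
        rw [map_mul, Valuation.map_neg, hv3, hvx₀, one_mul]
      have h3 : -3 * x₀ - E.X P = -3 * x₀ + (-E.X P) := by ring
      rw [h3, Valuation.map_add_eq_of_lt_left, h2]
      rw [h2, Valuation.map_neg]
      exact h1
    rw [e1, e2, mul_one]
  have key2 : ∏ P ∈ N, v (E.X P) = δ ^ (2 * ((p ^ 2 - 1) / 8)) := by
    rw [← hev1, hsplit, Finset.prod_union hdisj]
    have e1 : ∏ P ∈ CS, v (E.X P) = lam ^ (p - 1) := by
      rw [← hcCS, ← Finset.prod_const]
      apply Finset.prod_congr rfl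
      intro P hP
      simp only [hCS, Finset.mem_erase, Finset.mem_filter, Finset.mem_univ, true_and] at hP
      exact hlamC P hP.2 hP.1
    rw [e1, ← mul_assoc, key1, one_mul]
  -- logarithms
  set e := Nat.card I with he
  have hve : ϖ = exp (-(e : ℤ)) := h.val_ell
  have hXne : ∀ P ∈ N, v (E.X P) ≠ 0 := by
    intro P hP h0
    have := hNfar P hP
    rw [h0] at this
    simp at this
  have key3 : ∑ P ∈ N, log (v (E.X P)) = -((e : ℤ) * (a * (2 * ((p ^ 2 - 1) / 8 : ℕ)))) := by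
    have e1 : log (∏ P ∈ N, v (E.X P)) = ∑ P ∈ N, log (v (E.X P)) := log_prod' N _ hXne
    rw [← e1, key2, hδ, hve, log_pow, log_pow, log_exp]
    generalize (p ^ 2 - 1) / 8 = w
    rw [nsmul_eq_mul, nsmul_eq_mul]
    push_cast
    ring
  -- constancy on cosets
  have hcos : ∀ x ∈ N, ∀ c ∈ C₀, x + c ∈ N ∧ v (E.X (x + c)) = v (E.X x) := by
    intro x hx c hc
    by_cases hc0 : c = 0
    · rw [hc0, add_zero]; exact ⟨hx, rfl⟩
    have h1 := (hmemN x).mp hx
    have h2 := E.node_coset hN h1.1 hc0 h1.2 (hNfar x hx) (by rw [hlamC c hc hc0]; exact hQ₁v)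
    refine ⟨(hmemN _).mpr ⟨?_, by rw [h2.2]; exact h1.2⟩, h2.2⟩
    intro h3
    have h4 : x = -c := eq_neg_of_add_eq_zero_left h3
    have h5 : x ∈ C₀ := by rw [h4]; exact neg_mem hc
    rw [hNdef, Finset.mem_filter] at hx
    exact hx.2 h5
  obtain ⟨s, hs, hsd⟩ := sum_cosets C₀ N (fun x hx c hc => (hcos x hx c hc).1)
    (fun x => log (v (E.X x))) (fun x hx c hc => by rw [(hcos x hx c hc).2])
  rw [hcC, key3] at hs
  -- `I` acts on the line
  have hgA : ∀ g : L ≃ₐ[F] L, g x₀ = x₀ := by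
    intro g
    rw [hx₀, map_div₀, map_mul, map_mul, map_neg, hfA, hfB, map_ofNat, map_ofNat]
  have hρE : ∀ (g : L ≃ₐ[F] L) (P : V), E.X (ρ g P) = g (E.X P) := by
    intro g P
    rw [hEX, hEX, map_sub, hgA, hρ.X]
  have hρC : ∀ g ∈ I, ∀ x ∈ C₀, ρ g x ∈ C₀ := by
    intro g hg x hx
    rcases hx with rfl | hx
    · rw [map_zero]; exact zero_mem _
    · right
      rw [hρE, h.inv g hg]; exact hx
  have hcopa : IsCoprime (p : ℤ) (a : ℤ) :=
    Nat.isCoprime_iff_coprime.mpr ((Nat.Prime.coprime_iff_not_dvd hp).mpr ha)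
  have hcop : IsCoprime (p : ℤ) (a * (2 * ((p ^ 2 - 1) / 8 : ℕ))) := by
    refine hcopa.mul_right ?_
    rw [Int.isCoprime_iff_gcd_eq_one]
    have h8 : 8 ∣ p ^ 2 - 1 := by
      obtain ⟨k, hk⟩ := hodd
      have : p ^ 2 - 1 = 4 * (k * (k + 1)) := by
        have : p ^ 2 = 4 * (k * (k + 1)) + 1 := by rw [hk]; ring
        omega
      rw [this]
      obtain ⟨j, hj⟩ := Nat.even_mul_succ_self k
      exact ⟨j, by rw [hj]; ring⟩
    have h1 : Nat.Coprime p (2 * ((p ^ 2 - 1) / 8)) := by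
      rw [Nat.Prime.coprime_iff_not_dvd hp]
      intro h2
      have h3 : p ∣ p ^ 2 - 1 := by
        rcases (hp.dvd_mul).mp h2 with h4 | h4
        · have := Nat.le_of_dvd (by norm_num) h4; omega
        · exact h4.trans (Nat.div_dvd_of_dvd h8)
      have h4 : p ∣ 1 := by
        have h5 : 1 = p ^ 2 - (p ^ 2 - 1) := by
          have : 1 ≤ p ^ 2 := Nat.one_le_pow _ _ hp.pos
          omega
        rw [h5]
        exact Nat.dvd_sub (dvd_pow_self p two_ne_zero) h3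
      exact hp.one_lt.ne' (Nat.dvd_one.mp h4)
    exact_mod_cast h1
  have hpe : (p : ℤ) ∣ e := by
    have h1 : (p : ℤ) ∣ (e : ℤ) * (a * (2 * ((p ^ 2 - 1) / 8 : ℕ))) := by
      rw [← dvd_neg, hs]
      exact dvd_mul_right _ _
    exact hcop.dvd_of_dvd_mul_right h1
  -- a point whose valuation is prime to `p`
  obtain ⟨x, hx, hxp⟩ : ∃ x ∈ N, ¬ (p : ℤ) ∣ log (v (E.X x)) := by
    by_contra hcon
    push Not at hcon
    obtain ⟨s', hs'⟩ := hsd p hcon
    have h1 : (p : ℤ) ^ 2 ∣ (e : ℤ) * (a * (2 * ((p ^ 2 - 1) / 8 : ℕ))) := by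
      rw [← dvd_neg, hs, hs']
      exact ⟨s', by ring⟩
    have h2 : (p : ℤ) ^ 2 ∣ e := (hcop.pow_left).dvd_of_dvd_mul_right h1
    exact hI2 (by exact_mod_cast h2)
  have hpe' : p ∣ Nat.card I := by exact_mod_cast hpe
  have : Fact p.Prime := ⟨hp⟩
  obtain ⟨⟨σ, hσI⟩, hσo⟩ := exists_prime_orderOf_dvd_card' p hpe'
  have hσo' : orderOf σ = p := by
    rw [← hσo]
    exact (Subgroup.orderOf_mk σ hσI).symm
  have hσ1 : σ ≠ 1 := by
    intro h0
    rw [h0, orderOf_one] at hσo'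
    exact hp.one_lt.ne hσo'
  have hσp : σ ^ p = 1 := by rw [← hσo']; exact pow_orderOf_eq_one σ
  have hup : ∀ P, (ρ σ)^[p] P = P := by
    intro P
    rw [hρ.iterate, hσp, hρ.one]
  have hfix := fix_of_card hp (ρ σ) hup C₀ hcC (hρC σ hσI)
  have hsub := sub_mem_of_card hp hV (ρ σ) hup C₀ hcC (hρC σ hσI)
  have hxC : x ∉ C₀ := by
    rw [hNdef, Finset.mem_filter] at hx; exact hx.2
  have hz0 : E.X x ≠ 0 := by
    intro h0
    exact hXne x hx (by rw [h0, map_zero])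
  have hwild := wild_lt v h.surj hp h.val_lt (σ : L ≃+* L) (h.inv σ hσI) (h.inertia σ hσI)
    (fun y => by change σ^[p] y = y; rw [iterate_algEquivK, hσp]; rfl) h.residue (by
      by_contra hcon
      push Not at hcon
      exact hσ1 (AlgEquiv.ext hcon)) hz0 hxp
  have hσz : σ (E.X x) ≠ E.X x := by
    intro h0
    apply hσ1
    apply AlgEquiv.ext
    intro y
    by_cases hy : y = 0
    · rw [hy, map_zero, map_zero]
    · have h1 := hwild.2.1 y hy
      have h2 : ((σ : L ≃+* L) (E.X x)) / E.X x - 1 = 0 := by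
        change σ (E.X x) / E.X x - 1 = 0
        rw [h0, div_self hz0, sub_self]
      rw [h2, map_zero] at h1
      have h3 : ((σ : L ≃+* L) y) / y - 1 = 0 := by
        rw [← Valuation.zero_iff v]
        exact le_antisymm h1 zero_le
      have h4 : σ y / y = 1 := sub_eq_zero.mp h3
      rw [div_eq_one_iff_eq hy] at h4
      exact h4
  have hux : ρ σ x ≠ x := by
    intro h0
    apply hσz
    rw [← hρE, h0]
  have hx1 := (hmemN x).mp hx
  have hq : ρ σ x - x ∈ C₀ := hsub x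
  have hq0 : ρ σ x - x ≠ 0 := sub_ne_zero.mpr hux
  have h3 := E.node_coset hN hx1.1 hq0 hx1.2 (hNfar x hx) (by rw [hlamC _ hq hq0]; exact hQ₁v)
  rw [add_sub_cancel, hlamC _ hq hq0, hρE] at h3
  refine ⟨σ, hσI, hσp, ⟨x, hux⟩, E.X x, hz0, hxp, hσz, ?_⟩
  have h4 : v (σ (E.X x) / E.X x - 1) ^ 2 * lam = 1 := by
    have e1 : σ (E.X x) / E.X x - 1 = (σ (E.X x) - E.X x) / E.X x := by
      field_simp
    rw [e1, map_div₀, div_pow, div_mul_eq_mul_div, h3.1]
    exact div_self (pow_ne_zero 2 (hXne x hx))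
  have h5 : (v (σ (E.X x) / E.X x - 1) ^ 2 * lam) ^ (p - 1) = ϖ ^ 2 * lam ^ (p - 1) := by
    rw [h4, one_pow, key1]
  rw [mul_pow, ← pow_mul] at h5
  exact mul_right_cancel₀ (pow_ne_zero _ hlam0.ne') h5

end Pool.Agent.Lib.FL60
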