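import Pool.Agent.Lib.FMK60.LinkGenK
import Pool.Agent.Lib.MP_4a0cc8_ntL.WNode
import Pool.Agent.Lib.MP_4a0cc8_ntL.TVal

set_option autoImplicit false
set_option linter.unusedSectionVars false
set_option linter.unusedVariables false

namespace Pool.Agent.Lib.FL60

open Polynomial WeierstrassCurve Pool.Agent.Lib.EC60 WithZero NumberField Pool.Agent.Lib.FM60
open Pool.Agent.Lib.FMK60 IsDedekindDomain

variable {K : Type*} [Field K] [NumberField K]
variable {Ω : Type*} [Field Ω] [DecidableEq Ω] [CharZero Ω] [Algebra K Ω] [IsAlgClosed Ω]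

/-- JOB L29 (WMult). Multiplicative reduction at a prime above `p`, where `E₀` is good and `p` does not
divide the exponent of the discriminant: the `p`-torsion groups are not isomorphic.

PROOF. This is the wild case (`ℓ = p`) in the proof of `link_genK` (Lib/FMK60/LinkGenK.lean), with
`node_wild_pow` (WNode.lean, use the statement as it is) instead of `node_wild`. In detail: copy the
beginning of the proof of `link_genK` (the field `L`, the place from `exists_placeK`,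
`exists_torsData_le` for both curves, `hfaith`, `hv2`, `hvΔ` ...). `A ∉ P` gives
`v A = 1`; `D ∈ P` and `27 B² = D - 4 A³` gives `v B = 1`; by `exists_val_eq` (TVal.lean) and
`he, he'` `v (4A³ + 27B²) = v p ^ e`. Congruence: `ρ₂ σ` trivial implies `ρ₁ σ` trivial and
conversely (from the equivariant isomorphism `H`, or from the inclusions of division fields as in
`Congruent.divField_le`): so the hypothesis `ScalarKer` of `link_genK` holds (see how
`ScalarKer` is obtained from `Congruent` where `link_genK` is applied in Lib/FMK60; the wild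
case only uses `hwildtriv`). -/
theorem loc_mult [IsGalois K Ω] {A B A₀ B₀ : 𝓞 K} (hΔ : 4 * A ^ 3 + 27 * B ^ 2 ≠ 0)
    (hΔ₀ : 4 * A₀ ^ 3 + 27 * B₀ ^ 2 ≠ 0) {p : ℕ} (hp : p.Prime) (hp17 : 17 ≤ p)
    (H : Congruent Ω p (curK A B) (curK A₀ B₀)) {P : HeightOneSpectrum (𝓞 K)}
    (hpP : (p : 𝓞 K) ∈ P.asIdeal) (hpP2 : (p : 𝓞 K) ∉ P.asIdeal ^ 2)
    (h0 : 4 * A₀ ^ 3 + 27 * B₀ ^ 2 ∉ P.asIdeal) (hA : A ∉ P.asIdeal)
    (hD : 4 * A ^ 3 + 27 * B ^ 2 ∈ P.asIdeal) {e : ℕ}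
    (he : 4 * A ^ 3 + 27 * B ^ 2 ∈ P.asIdeal ^ e)
    (he' : 4 * A ^ 3 + 27 * B ^ 2 ∉ P.asIdeal ^ (e + 1)) (hpe : ¬ p ∣ e) : False := by
  classical
  have hΔ' : 4 * A ^ 3 + 27 * B ^ 2 ≠ 0 := hΔ
  have hp2 : p ≠ 2 := by omega
  have hp5 : 5 ≤ p := by omega
  have hodd : Odd p := hp.odd_of_ne_two hp2
  have HS : ScalarKer Ω p (curK A B) (curK A₀ B₀) :=
    scalarKer_of_congruent (Ω := Ω) (dvd_refl p) hp.one_le (one_ne_zero : (1 : K) ≠ 0)
      (by rw [one_pow, one_mul]) (by rw [one_pow, one_mul]) H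
  have hfd₁ := finiteDimensional_divField (Ω := Ω) (curK_disc hΔ) hp.one_le
  have hfd₂ := finiteDimensional_divField (Ω := Ω) (curK_disc hΔ₀) hp.one_le
  have hgal₁ := isGalois_divField (Ω := Ω) (W := curK A B) p
  have hgal₂ := isGalois_divField (Ω := Ω) (W := curK A₀ B₀) p
  obtain ⟨L, hL⟩ : ∃ L : IntermediateField K Ω, L = divField Ω (curK A B) p ⊔
    divField Ω (curK A₀ B₀) p := ⟨_, rfl⟩
  have hgal : IsGalois K L := by rw [hL]; infer_instance
  have hfd : FiniteDimensional K L := by rw [hL]; infer_instance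
  have hle₁ : divField Ω (curK A B) p ≤ L := by rw [hL]; exact le_sup_left
  have hle₂ : divField Ω (curK A₀ B₀) p ≤ L := by rw [hL]; exact le_sup_right
  obtain ⟨v, I, h, hvlt, hvex⟩ := exists_placeK K L P p hp hpP hpP2
  have hnd : ∀ m : ℕ, 0 < m → m < p → ¬ p ∣ m := fun m h0 h1 => Nat.not_dvd_of_pos_of_lt h0 h1
  have hv2 : v 2 = 1 := by
    simpa using h.nat_eq_one (m := 2) (hnd 2 (by norm_num) (by omega))
  have hv1 : ∀ x : 𝓞 K, x ∉ P.asIdeal → v (algebraMap K L (x : K)) = 1 := by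
    intro x hx
    refine le_antisymm (h.int _ (isIntegral_coe _)) (not_lt.mp fun h2 => hx ((hvlt _).mp h2))
  have hvA : v (algebraMap K L (A : K)) = 1 := hv1 A hA
  have hv4 : v (algebraMap K L ((4 * A ^ 3 : 𝓞 K) : K)) = 1 := by
    have e1 : algebraMap K L ((4 * A ^ 3 : 𝓞 K) : K) = 2 * 2 * algebraMap K L (A : K) ^ 3 := by
      have e2 : algebraMap K L ((4 * A ^ 3 : 𝓞 K) : K) = 4 * algebraMap K L (A : K) ^ 3 := by
        simp only [map_mul, map_pow, map_ofNat]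
      rw [e2]
      norm_num
    rw [e1, map_mul, map_mul, map_pow, hv2, hvA]
    simp
  have hvB : v (algebraMap K L (B : K)) = 1 := by
    apply hv1
    intro hB
    have h1 : 4 * A ^ 3 ∈ P.asIdeal := by
      have h2 : 27 * B ^ 2 ∈ P.asIdeal :=
        Ideal.mul_mem_left _ _ (Ideal.pow_mem_of_mem _ hB 2 (by norm_num))
      have h3 := sub_mem hD h2
      rwa [add_sub_cancel_right] at h3
    exact absurd hv4 ((hvlt _).mpr h1).ne
  obtain ⟨a, ha1, ha2, ha3⟩ := exists_val_eq h hpP hpP2 hvlt (4 * A ^ 3 + 27 * B ^ 2) hΔ'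
  have hae : a = e := by
    rcases lt_trichotomy a e with h1 | h1 | h1
    · exact absurd (Ideal.pow_le_pow_right (by omega) he) ha2
    · exact h1
    · exact absurd (Ideal.pow_le_pow_right (by omega) ha1) he'
  subst hae
  have hvΔ₁ : v (4 * algebraMap K L (A : K) ^ 3 + 27 * algebraMap K L (B : K) ^ 2) =
      v (p : L) ^ a := by
    rw [← map_del]
    exact ha3
  obtain ⟨D₁, ρ₁, hρ₁, hX₁, -, hl₁, S₁, hS₁, hprod₁⟩ :=
    exists_torsData_le (Ω := Ω) hΔ hp hp2 L hle₁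
  obtain ⟨D₂, ρ₂, hρ₂, hX₂, -, hl₂, S₂, hS₂, hprod₂⟩ :=
    exists_torsData_le (Ω := Ω) hΔ₀ hp hp2 L hle₂
  -- the action on the two torsion groups is faithful
  have hfaith : ∀ σ : L ≃ₐ[K] L, (∀ x, ρ₁ σ x = x) → (∀ x, ρ₂ σ x = x) → σ = 1 := by
    intro σ h1 h2
    have hτ : ∀ x : L, (σ.liftNormal Ω : Ω ≃ₐ[K] Ω) (x : Ω) = (σ x : Ω) :=
      fun x => σ.liftNormal_commutes Ω x
    have e1 := fixes_divField (W := curK A B) (p := p) (σ.liftNormal Ω : Ω ≃ₐ[K] Ω)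
      (fun P hP => by
        have := hl₁ _ σ hτ ⟨P, mem_Vp hP⟩
        rw [h1] at this
        exact this.symm)
    have e2 := fixes_divField (W := curK A₀ B₀) (p := p) (σ.liftNormal Ω : Ω ≃ₐ[K] Ω)
      (fun P hP => by
        have := hl₂ _ σ hτ ⟨P, mem_Vp hP⟩
        rw [h2] at this
        exact this.symm)
    have e3 : L ≤ IntermediateField.fixedField (Subgroup.zpowers
        (σ.liftNormal Ω : Ω ≃ₐ[K] Ω)) := hL.le.trans (sup_le e1 e2)
    apply AlgEquiv.ext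
    intro x
    have e4 := e3 x.2
    rw [IntermediateField.mem_fixedField_iff] at e4
    have e5 := e4 _ (Subgroup.mem_zpowers _)
    rw [hτ] at e5
    exact Subtype.ext e5
  -- scalars
  have hscal : ∀ σ : L ≃ₐ[K] L, (∀ x, ρ₂ σ x = x) → ∃ c : ℕ, ∀ x, ρ₁ σ x = c • x := by
    intro σ h2
    have hτ : ∀ x : L, (σ.liftNormal Ω : Ω ≃ₐ[K] Ω) (x : Ω) = (σ x : Ω) :=
      fun x => σ.liftNormal_commutes Ω x
    obtain ⟨c, hc⟩ := HS (σ.liftNormal Ω : Ω ≃ₐ[K] Ω) (fun P hP => by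
        have := hl₂ _ σ hτ ⟨P, mem_Vp hP⟩
        rw [h2] at this
        exact this.symm)
    refine ⟨c, fun x => Subtype.ext ?_⟩
    rw [hl₁ _ σ hτ x]
    exact hc x.1 (Vp_smul_val x)
  have hvΔ : v (4 * algebraMap K L (A₀ : K) ^ 3 + 27 * algebraMap K L (B₀ : K) ^ 2) = 1 := by
    rw [← map_del]
    exact hv1 _ h0
  have hvA₂ : v (algebraMap K L (A₀ : K)) ≤ 1 := h.int _ (isIntegral_coe _)
  have hvB₂ : v (algebraMap K L (B₀ : K)) ≤ 1 := h.int _ (isIntegral_coe _)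
  have hfix : ∀ a : 𝓞 K, ∀ g : L ≃ₐ[K] L, g (algebraMap K L (a : K)) = algebraMap K L (a : K) :=
    fun a g => g.commutes _
  have hoddV : ∀ {A B : 𝓞 K} (P : Vp Ω A B p), P + P = 0 → P = 0 := by
    intro A B P hP
    have := mem_of_double hodd FMK60.Vp_smul (⊥ : AddSubgroup (Vp Ω A B p)) (P := P)
      (by rw [hP]; exact zero_mem _)
    simpa using this
  have hwildtriv : ∀ σ : L ≃ₐ[K] L, σ ^ p = 1 → (∀ x, ρ₂ σ x = x) → ∀ x, ρ₁ σ x = x := by
    intro σ hσ h2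
    obtain ⟨c, hc⟩ := hscal σ h2
    exact scalar_trivial hp FMK60.Vp_smul (ρ₁ σ) hc (fun x => by rw [hρ₁.iterate, hσ, hρ₁.one])
  have hI2 : ¬ p ^ 2 ∣ Nat.card I :=
    not_sq_dvd_card' hp (Vp_card (Ω := Ω) hΔ₀ hp) FMK60.Vp_smul
      (fun g : I => ρ₂ (g : L ≃ₐ[K] L)) (fun g k x => hρ₂.mul g k x)
      (fun g hg hg2 => by
        have hg' : (g : L ≃ₐ[K] L) ^ p = 1 := by
          have := congrArg Subtype.val hg
          simpa using this
        exact Subtype.ext (hfaith g (hwildtriv g hg' hg2) hg2))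
  obtain ⟨σ, hσI, hσp, ⟨x₁, hx₁⟩, z, hz, hzp, hσz, hθ⟩ :=
    node_wild_pow hp hp5 h hI2 hvA hvB (hfix A) (hfix B) hpe hvΔ₁ (FMK60.Vp_card (Ω := Ω) hΔ hp) FMK60.Vp_smul D₁ hρ₁
      hS₁ hprod₁
  have hw := wild_lt v h.surj hp h.val_lt (σ : L ≃+* L) (h.inv σ hσI)
    (h.inertia σ hσI) (fun x => by
      change σ^[p] x = x
      rw [iterate_algEquivK, hσp]; rfl) h.residue ⟨z, hσz⟩ hz hzp
  have hV2 := Vp_card (Ω := Ω) hΔ₀ hp
  have hVfin : Finite (Vp Ω A₀ B₀ p) :=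
    Nat.finite_of_card_ne_zero (by rw [hV2]; exact (pow_pos hp.pos 2).ne')
  let _ : Fintype (Vp Ω A₀ B₀ p) := Fintype.ofFinite _
  exact good_wild hp hp5 hv2 h.val_lt h.val_pos (σ : L ≃+* L)
    (h.inv σ hσI) (h.inertia σ hσI) hw.2.1 hw.2.2 hθ hvA₂ hvB₂ hvΔ hV2
    FMK60.Vp_smul D₂ (ρ₂ σ) (fun x => by rw [hρ₂.iterate, hσp, hρ₂.one]) (by
      by_contra hcon2
      push Not at hcon2
      exact hx₁ (hwildtriv σ hσp hcon2 x₁)) (fun x => hρ₂.X σ x) (fun x => hρ₂.Y σ x)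
    (gauss_points hvA₂ hvB₂ D₂ hoddV hS₂ hprod₂)

end Pool.Agent.Lib.FL60
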