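import Pool.Agent.Lib.FMK60.GaussPtsK
import Pool.Agent.Lib.MP_4a0cc8_ntL.Defs

set_option autoImplicit false
set_option linter.unusedSectionVars false
set_option linter.unusedVariables false

namespace Pool.Agent.Lib.FL60

open WithZero Polynomial Pool.Agent.Lib.FM60

private theorem wnz_root {k : Type*} [Field k] (K : Type*) [Field K] [Algebra k K]
    [IsAlgClosed K] (h2 : (2 : k) ≠ 0) (h3 : (3 : k) ≠ 0) {A B : k} (hAB : A ≠ 0 ∨ B ≠ 0) :
    ∃ e : K, e ^ 3 + algebraMap k K A * e + algebraMap k K B = 0 ∧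
      3 * e ^ 2 + algebraMap k K A ≠ 0 := by
  have h3' : (3 : K) ≠ 0 := by
    have := (map_ne_zero (algebraMap k K)).mpr h3
    rwa [map_ofNat] at this
  obtain ⟨t, ht⟩ : ∃ t : K, (X ^ 3 + C (algebraMap k K A) * X + C (algebraMap k K B)).IsRoot t := by
    apply IsAlgClosed.exists_root
    have : (X ^ 3 + C (algebraMap k K A) * X + C (algebraMap k K B)).degree = 3 := by
      compute_degree!
    rw [this]
    norm_num
  rw [IsRoot.def] at ht
  simp only [eval_add, eval_pow, eval_X, eval_mul, eval_C] at ht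
  by_cases hd : 3 * t ^ 2 + algebraMap k K A = 0
  · refine ⟨-2 * t, ?_, ?_⟩
    · linear_combination ht - 3 * t * hd
    · intro h
      have h9 : 3 * (3 * t ^ 2) = 0 := by linear_combination h - hd
      have ht0 : t = 0 := by
        have := (mul_eq_zero.mp h9).resolve_left h3'
        exact pow_eq_zero_iff (two_ne_zero) |>.mp ((mul_eq_zero.mp this).resolve_left h3')
      subst ht0
      have hA : algebraMap k K A = 0 := by linear_combination hd
      have hB : algebraMap k K B = 0 := by linear_combination ht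
      rw [map_eq_zero] at hA hB
      rcases hAB with h | h
      · exact h hA
      · exact h hB
  · exact ⟨t, ht, hd⟩

/-- JOB L17 (WNZ), first part. Over a field in which `2, 3` are not zero: the division polynomials of
odd order of `y² = x³ + Ax + B` are nonzero, if `(A, B) ≠ (0, 0)`.

PROOF. We may pass to an algebraic closure (`preΨ'` commutes with `map`, `map_preΨ'`; the polynomial
is zero iff its image is). The cubic `f = x³ + Ax + B` has a simple root `e` there: otherwise every
root is multiple, so `f = (x - t)³`, `3 t = 0`, `t = 0`, `A = B = 0`. So `f e = 0`,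
`f' e = 3e² + A ≠ 0`. Evaluate at `e`: by `eval_preΨ'` and `eval_Ψ₂Sq`, `eval_Ψ₃`, `eval_preΨ₄`
(Lib/FM60/Nodal.lean) `eval e (preΨ' n) = preNormEDS' (Ψ₂Sq² ) (Ψ₃) (preΨ₄) n` with
`Ψ₂Sq (e) = 4 f e = 0` and `Ψ₃ (e) = 3e⁴ + 6Ae² + 12Be - A² = -(3e² + A)² ≠ 0` (using `f e = 0`). For
`b = 0`, `c ≠ 0` one has `preNormEDS' 0 c d n ≠ 0` for odd `n = 2j+1`: by `preNormEDS'_zero_odd`
(Lib/FM60, used in `val_preNormEDS'_unit` of Lib/FM60/Eval.lean) the value is `± c ^ (j(j+1)/2)`. -/
theorem pre_ne_zero' {k : Type*} [Field k] (h2 : (2 : k) ≠ 0) (h3 : (3 : k) ≠ 0) {A B : k}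
    (hAB : A ≠ 0 ∨ B ≠ 0) {n : ℕ} (hn : Odd n) :
    (⟨0, 0, 0, A, B⟩ : WeierstrassCurve k).preΨ' n ≠ 0 := by
  intro h0
  obtain ⟨e, he, he'⟩ := wnz_root (AlgebraicClosure k) h2 h3 hAB
  have e1 : (⟨0, 0, 0, A, B⟩ : WeierstrassCurve k).map (algebraMap k (AlgebraicClosure k)) =
      ⟨0, 0, 0, algebraMap k (AlgebraicClosure k) A, algebraMap k (AlgebraicClosure k) B⟩ := by
    simp [WeierstrassCurve.map]
  have h1 := WeierstrassCurve.map_preΨ' (⟨0, 0, 0, A, B⟩ : WeierstrassCurve k)
    (algebraMap k (AlgebraicClosure k)) n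
  rw [h0, Polynomial.map_zero, e1] at h1
  have h4 := eval_preΨ' (A := algebraMap k (AlgebraicClosure k) A)
    (B := algebraMap k (AlgebraicClosure k) B) (x := e) n
  rw [h1, eval_zero, he, mul_zero, mul_zero, zero_sub, zero_pow (by norm_num)] at h4
  obtain ⟨j, hj⟩ := hn
  obtain ⟨ε, hε, h5⟩ := preNormEDS'_zero_odd
    (-(3 * e ^ 2 + algebraMap k (AlgebraicClosure k) A) ^ 2)
    (-16 * 0 - 2 * (3 * e ^ 2 + algebraMap k (AlgebraicClosure k) A) ^ 3 +
      24 * e * 0 * (3 * e ^ 2 + algebraMap k (AlgebraicClosure k) A)) j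
  rw [← hj, ← h4] at h5
  have hp : (-(3 * e ^ 2 + algebraMap k (AlgebraicClosure k) A) ^ 2) ^ (j * (j + 1) / 2) ≠ 0 :=
    pow_ne_zero _ (neg_ne_zero.mpr (pow_ne_zero _ he'))
  rcases hε with rfl | rfl
  · rw [Int.cast_one, one_mul] at h5
    exact hp h5.symm
  · rw [Int.cast_neg, Int.cast_one, neg_one_mul] at h5
    exact hp (neg_eq_zero.mp h5.symm)

/-- JOB L17 (WNZ), second part. Some torsion point is not integral, at a place dividing the order
`p`, for a model with integral coefficients which are not both divisible by the place.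

PROOF. Otherwise all `x ∈ S` are integral, so by `hprod` all coefficients of `preΨ' p` have
`v ≤ v p < 1` (`Polynomial.coeff` of a product of integral polynomials is integral, as in
`coeff_pre_le` of Lib/FMK60/GaussPtsK.lean; or: the polynomial `∏ (X - C x)` is the image of a
polynomial over `v.valuationSubring`). But `preΨ' p` is the image of the polynomial for the curve
`⟨0,0,0,A,B⟩` over `R = v.valuationSubring`, whose reduction modulo the maximal ideal is
`preΨ' p` of the reduced curve over `k = IsLocalRing.ResidueField R` (`map_preΨ'`), which is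
nonzero by the first part. -/
theorem exists_big {L : Type*} [Field L] {v : Valuation L ℤᵐ⁰} {A B : L} (hv2 : v 2 = 1)
    (hv3 : v 3 = 1) (hA : v A ≤ 1) (hB : v B ≤ 1) (hAB : v A = 1 ∨ v B = 1) {p : ℕ}
    (hp : Odd p) (hvp : v (p : L) < 1) {S : Finset L}
    (hprod : (⟨0, 0, 0, A, B⟩ : WeierstrassCurve L).preΨ' p =
      C (p : L) * ∏ x ∈ S, (X - C x)) : ∃ x ∈ S, 1 < v x := by
  by_contra hcon
  push Not at hcon
  let I : Ideal v.integer :=
    { carrier := {x : v.integer | v x < 1}
      add_mem' := fun hx hy => lt_of_le_of_lt (v.map_add _ _) (max_lt hx hy)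
      zero_mem' := by simp
      smul_mem' := fun c x hx => by
        change v ((c : L) * (x : L)) < 1
        rw [map_mul]
        exact mul_lt_one_of_nonneg_of_lt_one_right c.2 zero_le hx }
  have hmem : ∀ x : v.integer, x ∈ I ↔ v (x : L) < 1 := fun x => Iff.rfl
  have hI : I.IsPrime := by
    constructor
    · intro h0
      have : (1 : v.integer) ∈ I := by rw [h0]; trivial
      rw [hmem] at this
      simp at this
    · intro x y hxy
      rw [hmem, hmem]
      rw [hmem] at hxy
      by_contra hcon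
      rw [not_or, not_lt, not_lt] at hcon
      have : v ((x * y : v.integer) : L) = v (x : L) * v (y : L) := by push_cast; rw [map_mul]
      rw [this] at hxy
      exact absurd hxy (not_lt.mpr (one_le_mul hcon.1 hcon.2))
  have hdom : IsDomain (v.integer ⧸ I) := Ideal.Quotient.isDomain I
  let φ : v.integer →+* FractionRing (v.integer ⧸ I) :=
    (algebraMap (v.integer ⧸ I) (FractionRing (v.integer ⧸ I))).comp (Ideal.Quotient.mk I)
  have hφ : ∀ x : v.integer, φ x = 0 ↔ v (x : L) < 1 := by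
    intro x
    change algebraMap (v.integer ⧸ I) (FractionRing (v.integer ⧸ I)) (Ideal.Quotient.mk I x) = 0 ↔ _
    rw [FaithfulSMul.algebraMap_eq_zero_iff, Ideal.Quotient.eq_zero_iff_mem, hmem]
  have h2 : (2 : FractionRing (v.integer ⧸ I)) ≠ 0 := by
    intro h
    have h1 : φ 2 = 0 := by rw [map_ofNat]; exact h
    rw [hφ] at h1
    have h3 : ((2 : v.integer) : L) = 2 := rfl
    rw [h3, hv2] at h1
    exact lt_irrefl _ h1
  have h3 : (3 : FractionRing (v.integer ⧸ I)) ≠ 0 := by
    intro h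
    have h1 : φ 3 = 0 := by rw [map_ofNat]; exact h
    rw [hφ] at h1
    have h3 : ((3 : v.integer) : L) = 3 := rfl
    rw [h3, hv3] at h1
    exact lt_irrefl _ h1
  have hAB' : φ ⟨A, hA⟩ ≠ 0 ∨ φ ⟨B, hB⟩ ≠ 0 := by
    rcases hAB with h | h
    · left
      rw [Ne, hφ]
      change ¬ v A < 1
      rw [h]
      exact lt_irrefl _
    · right
      rw [Ne, hφ]
      change ¬ v B < 1
      rw [h]
      exact lt_irrefl _
  have e1 : (⟨0, 0, 0, A, B⟩ : WeierstrassCurve L) =
      (⟨0, 0, 0, ⟨A, hA⟩, ⟨B, hB⟩⟩ : WeierstrassCurve v.integer).map (algebraMap v.integer L) := by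
    simp [WeierstrassCurve.map]
    exact ⟨rfl, rfl⟩
  have e2 : (⟨0, 0, 0, ⟨A, hA⟩, ⟨B, hB⟩⟩ : WeierstrassCurve v.integer).preΨ' p =
      C (p : v.integer) * ∏ x ∈ S.attach, (X - C (⟨x.1, hcon x.1 x.2⟩ : v.integer)) := by
    apply Polynomial.map_injective (algebraMap v.integer L) Subtype.val_injective
    rw [← WeierstrassCurve.map_preΨ', ← e1, hprod, Polynomial.map_mul, map_C, map_natCast,
      Polynomial.map_prod, ← Finset.prod_attach S]
    congr 1
    refine Finset.prod_congr rfl fun x _ => ?_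
    rw [Polynomial.map_sub, map_X, map_C]
    rfl
  have hp0 : φ (p : v.integer) = 0 := by
    rw [hφ]
    have h : ((p : v.integer) : L) = (p : L) := by push_cast; rfl
    rw [h]
    exact hvp
  have e3 : (⟨0, 0, 0, φ ⟨A, hA⟩, φ ⟨B, hB⟩⟩ :
      WeierstrassCurve (FractionRing (v.integer ⧸ I))).preΨ' p = 0 := by
    have e4 : (⟨0, 0, 0, ⟨A, hA⟩, ⟨B, hB⟩⟩ : WeierstrassCurve v.integer).map φ =
        ⟨0, 0, 0, φ ⟨A, hA⟩, φ ⟨B, hB⟩⟩ := by
      simp [WeierstrassCurve.map]
    rw [← e4, WeierstrassCurve.map_preΨ', e2, Polynomial.map_mul, map_C, hp0, C_0, zero_mul]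
  exact pre_ne_zero' h2 h3 hAB' hp e3

end Pool.Agent.Lib.FL60
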