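import Pool.Agent.Lib.MP_4a0cc8_ntL.Defs

set_option autoImplicit false
set_option linter.unusedSectionVars false
set_option linter.unusedVariables false

namespace Pool.Agent.Lib.FL60

open WithZero Pool.Agent.Lib.FM60 Pool.Agent.Lib.FMK60

/-- JOB L20 (WProd), first part. The product of `x/y` over a stable subgroup is fixed by the inertia
group.

PROOF. `Π = ∏_{P ∈ H, P ≠ 0} zc D P` is fixed by every `σ ∈ I`, because `σ (zc D P) = zc D (ρ σ P)`
(`zc_act`) and `ρ σ` permutes the nonzero elements of `H` (injective, `H` finite).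
`v Π = exp (-α) ^ (card H - 1)`, so `Π ≠ 0`, and `hfix` gives `v Π = v p ^ m`,
`v p = exp (- card I)` (`h.val_ell`). Compare logarithms. -/
theorem prod_dvd {F L : Type*} [Field F] [Field L] [Algebra F L] {p : ℕ} {v : Valuation L ℤᵐ⁰}
    {I : Subgroup (L ≃ₐ[F] L)} (h : PlaceK F L p v I)
    (hfix : ∀ x : L, x ≠ 0 → (∀ σ ∈ I, σ x = x) → ∃ m : ℤ, v x = v (p : L) ^ m)
    {A B : L} {V : Type*} [AddCommGroup V] {D : TorsData L A B V}
    {ρ : (L ≃ₐ[F] L) → V ≃+ V} (hρ : PreActK D ρ) (H : AddSubgroup V) [Finite H]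
    (hH : ∀ σ ∈ I, ∀ P ∈ H, ρ σ P ∈ H) {α : ℤ}
    (hα : ∀ P ∈ H, P ≠ 0 → v (zc D P) = exp (-α)) :
    (Nat.card I : ℤ) ∣ ((Nat.card H : ℤ) - 1) * α := by
  classical
  have := Fintype.ofFinite H
  obtain ⟨Q, hQ⟩ : ∃ Q : L, Q = ∏ P ∈ Finset.univ.erase (0 : H), zc D (P : V) := ⟨_, rfl⟩
  have hcard : 1 ≤ Nat.card H := Nat.card_pos
  have hvQ : v Q = exp (-α) ^ (Nat.card H - 1) := by
    have hval : ∀ P ∈ Finset.univ.erase (0 : H), v (zc D (P : V)) = exp (-α) := by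
      intro P hP
      exact hα (P : V) P.2 (fun h0 => (Finset.mem_erase.mp hP).1 (Subtype.ext h0))
    rw [hQ, map_prod, Finset.prod_congr rfl hval, Finset.prod_const,
      Finset.card_erase_of_mem (Finset.mem_univ _), Finset.card_univ, Nat.card_eq_fintype_card]
  have hQ0 : Q ≠ 0 := by
    rintro rfl
    rw [map_zero] at hvQ
    exact pow_ne_zero _ exp_ne_zero hvQ.symm
  have hfixQ : ∀ σ ∈ I, σ Q = Q := by
    intro σ hσ
    have he : Function.Injective (fun P : H => (⟨ρ σ P, hH σ hσ P P.2⟩ : H)) := by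
      intro P P' hPP
      exact Subtype.ext ((ρ σ).injective (congrArg Subtype.val hPP))
    have heb := Finite.injective_iff_bijective.mp he
    rw [hQ, map_prod]
    refine Finset.prod_bij (fun P _ => (⟨ρ σ P, hH σ hσ P P.2⟩ : H)) ?_ ?_ ?_ ?_
    · intro P hP
      rw [Finset.mem_erase] at hP ⊢
      refine ⟨fun h0 => hP.1 ?_, Finset.mem_univ _⟩
      exact Subtype.ext ((map_eq_zero_iff (ρ σ) (ρ σ).injective).mp (congrArg Subtype.val h0))
    · intro P _ P' _ hPP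
      exact he hPP
    · intro P hP
      obtain ⟨P', hP'⟩ := heb.2 P
      refine ⟨P', ?_, hP'⟩
      rw [Finset.mem_erase] at hP ⊢
      refine ⟨fun h0 => hP.1 ?_, Finset.mem_univ _⟩
      rw [← hP', h0]
      exact Subtype.ext (map_zero (ρ σ))
    · intro P hP
      exact (zc_act hρ σ (P : V)).symm
  obtain ⟨m, hm⟩ := hfix Q hQ0 hfixQ
  rw [hvQ, h.val_ell, ← exp_nsmul, ← exp_zsmul] at hm
  have hm2 := exp_injective hm
  rw [nsmul_eq_mul, smul_eq_mul, Nat.cast_sub hcard, Nat.cast_one] at hm2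
  exact ⟨m, by linear_combination -hm2⟩

/-- JOB L20 (WProd), second part. If for every `σ` in the inertia group one of two characters is
trivial, then one of the characters is trivial.

PROOF. For `y ≠ 0`, `σ, τ ∈ I`: `σ τ y / y = σ (τ y / y) * (σ y / y)`, and
`v (σ (τ y / y) - τ y / y) < 1` (`h.inertia`, `v (τ y / y) = 1` by `h.inv`). So
`{σ ∈ I | v (σ y / y - 1) < 1}` is closed under products and contains `σ τ` exactly if it contains
`σ` when it contains `τ`, and so on. A group is not the union of two proper subgroups: if `σ` is not in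
the first one and `τ` not in the second one, then `σ` is in the second and `τ` in the first, and
`σ τ` would be in one of them, contradiction. -/
theorem union_chars {F L : Type*} [Field F] [Field L] [Algebra F L] {p : ℕ}
    {v : Valuation L ℤᵐ⁰} {I : Subgroup (L ≃ₐ[F] L)} (h : PlaceK F L p v I) {y₁ y₂ : L}
    (h1 : y₁ ≠ 0) (h2 : y₂ ≠ 0)
    (H : ∀ σ ∈ I, v (σ y₁ / y₁ - 1) < 1 ∨ v (σ y₂ / y₂ - 1) < 1) :
    (∀ σ ∈ I, v (σ y₁ / y₁ - 1) < 1) ∨ (∀ σ ∈ I, v (σ y₂ / y₂ - 1) < 1) := by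
  have hone : ∀ {y : L}, y ≠ 0 → ∀ σ ∈ I, v (σ y / y) = 1 := by
    intro y hy σ hσ
    rw [map_div₀, h.inv σ hσ, div_self (by simpa using hy)]
  have hkey : ∀ {y : L}, y ≠ 0 → ∀ σ ∈ I, ∀ τ ∈ I,
      v ((σ * τ) y / y - (τ y / y) * (σ y / y)) < 1 := by
    intro y hy σ hσ τ hτ
    have e : (σ * τ) y / y - (τ y / y) * (σ y / y) =
        (σ (τ y / y) - τ y / y) * (σ y / y) := by
      have hσy : σ y ≠ 0 := by simpa using hy
      rw [AlgEquiv.mul_apply, map_div₀]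
      field_simp
    rw [e, map_mul, hone hy σ hσ, mul_one]
    exact h.inertia σ hσ _ (hone hy τ hτ).le
  have hleft : ∀ {y : L}, y ≠ 0 → ∀ σ ∈ I, ∀ τ ∈ I, v (τ y / y - 1) < 1 →
      v ((σ * τ) y / y - 1) < 1 → v (σ y / y - 1) < 1 := by
    intro y hy σ hσ τ hτ h3 h4
    have e : σ y / y - 1 = (((σ * τ) y / y - 1) - ((σ * τ) y / y - (τ y / y) * (σ y / y))) -
        (τ y / y - 1) * (σ y / y) := by ring
    rw [e]
    refine (v.map_sub _ _).trans_lt (max_lt ((v.map_sub _ _).trans_lt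
      (max_lt h4 (hkey hy σ hσ τ hτ))) ?_)
    rw [map_mul, hone hy σ hσ, mul_one]
    exact h3
  have hright : ∀ {y : L}, y ≠ 0 → ∀ σ ∈ I, ∀ τ ∈ I, v (σ y / y - 1) < 1 →
      v ((σ * τ) y / y - 1) < 1 → v (τ y / y - 1) < 1 := by
    intro y hy σ hσ τ hτ h3 h4
    have e : τ y / y - 1 = (((σ * τ) y / y - 1) - ((σ * τ) y / y - (τ y / y) * (σ y / y))) -
        (σ y / y - 1) * (τ y / y) := by ring
    rw [e]
    refine (v.map_sub _ _).trans_lt (max_lt ((v.map_sub _ _).trans_lt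
      (max_lt h4 (hkey hy σ hσ τ hτ))) ?_)
    rw [map_mul, hone hy τ hτ, mul_one]
    exact h3
  by_contra hcon
  rw [not_or] at hcon
  obtain ⟨hc1, hc2⟩ := hcon
  push Not at hc1 hc2
  obtain ⟨σ, hσ, hσ1⟩ := hc1
  obtain ⟨τ, hτ, hτ2⟩ := hc2
  have hσ2 : v (σ y₂ / y₂ - 1) < 1 := (H σ hσ).resolve_left (not_lt.mpr hσ1)
  have hτ1 : v (τ y₁ / y₁ - 1) < 1 := (H τ hτ).resolve_right (not_lt.mpr hτ2)
  rcases H (σ * τ) (mul_mem hσ hτ) with h3 | h3
  · exact absurd (hleft h1 σ hσ τ hτ hτ1 h3) (not_lt.mpr hσ1)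
  · exact absurd (hright h2 σ hσ τ hτ hσ2 h3) (not_lt.mpr hτ2)

end Pool.Agent.Lib.FL60
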