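import Pool.Agent.Lib.MP_4a0cc8_ntL.Defs
import Pool.Agent.Lib.FM60.NodeWild

set_option autoImplicit false
set_option linter.unusedSectionVars false
set_option linter.unusedVariables false

namespace Pool.Agent.Lib.FL60

open WithZero Pool.Agent.Lib.FM60 Pool.Agent.Lib.FMK60

/-- JOB L21 (WQuot), first part. Good reduction at `p`: inertia moves an integral torsion point by a
point in the kernel of the reduction.

PROOF. This is part of the proof of `good_wild` (Lib/FM60/GoodWild.lean, case (i), from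
`have hPY := val_Y_unit ...` to `have hbig : 1 < v (D.X (u P - P))`), with `u P ≠ P`:
`v (Y P) = 1` (`val_Y_unit`), `v (σ (Y P) - Y P) < 1`, so `v (σ (Y P) + Y P) = 1`; `X (u P) ≠ X P`
(otherwise `u P = -P`, `σ (Y P) = - Y P`); `D.sub`. -/
theorem good_quot {L : Type*} [Field L] {p : ℕ} (hp : p.Prime) (hp5 : 5 ≤ p)
    {v : Valuation L ℤᵐ⁰} (hv2 : v 2 = 1) {A B : L} (hA : v A ≤ 1) (hB : v B ≤ 1)
    (hΔ : v (4 * A ^ 3 + 27 * B ^ 2) = 1) {V : Type*} [AddCommGroup V]
    (hpV : ∀ x : V, p • x = 0) (D : TorsData L A B V) (σ : L → L)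
    (hσ : ∀ x, v x ≤ 1 → v (σ x - x) < 1) (u : V ≃+ V) (huX : ∀ x, D.X (u x) = σ (D.X x))
    (huY : ∀ x, D.Y (u x) = σ (D.Y x)) {P : V} (hP0 : P ≠ 0) (hP : v (D.X P) ≤ 1) :
    u P = P ∨ 1 < v (D.X (u P - P)) := by
  by_cases hPne : u P = P
  · exact Or.inl hPne
  right
  have huP0 : u P ≠ 0 := fun h0 => hP0 ((map_eq_zero_iff u u.injective).mp h0)
  have hPY := GoodWild.val_Y_unit D hp hp5 hpV hA hB hΔ hP0 hP
  have hYY : v (σ (D.Y P) - D.Y P) < 1 := hσ _ hPY.le
  have h2Y : v (2 * D.Y P) = 1 := by rw [map_mul, hv2, hPY, one_mul]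
  have hYsum : ¬ v (σ (D.Y P) + D.Y P) < 1 := by
    intro h3
    have h4 := lt_sub v h3 hYY
    have e : σ (D.Y P) + D.Y P - (σ (D.Y P) - D.Y P) = 2 * D.Y P := by ring
    rw [e, h2Y] at h4
    exact lt_irrefl _ h4
  have hXne : D.X (u P) ≠ D.X P := by
    intro h
    rcases D.eq_of_X huP0 hP0 h with h | h
    · exact hPne h
    · have h3 : σ (D.Y P) = - D.Y P := by rw [← huY, h, D.Y_neg]
      apply hYsum
      rw [h3, neg_add_cancel, map_zero]
      exact zero_lt_one
  by_contra hcon
  rw [not_lt] at hcon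
  apply hYsum
  apply lt_of_sq
  rw [← huY, ← D.sub huP0 hP0 hXne, huX]
  have h3 := hσ _ hP
  have h4 : v (D.X (u P - P) + σ (D.X P) + D.X P) ≤ 1 := by
    have a1 : D.X (u P - P) ∈ v.integer := hcon
    have a3 : D.X P ∈ v.integer := hP
    have a2 : σ (D.X P) ∈ v.integer := by
      have a4 : σ (D.X P) - D.X P ∈ v.integer := h3.le
      have a5 := add_mem a4 a3
      rwa [sub_add_cancel] at a5
    change _ ∈ v.integer
    exact add_mem (add_mem a1 a2) a3
  rw [mul_comm]
  apply lt_mul v h4
  rw [map_pow]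
  exact pow_lt_one₀ zero_le h3 two_ne_zero

lemma lin_module {V : Type*} [AddCommGroup V] {p : ℕ} [Fact p.Prime] [Finite V]
    [Module (ZMod p) V] (hV : Nat.card V = p ^ 2) (u : V →+ V) :
    ∃ a b : ℤ, ∀ x, u (u x) = a • u x - b • x := by
  obtain ⟨f, hf⟩ : ∃ f : Module.End (ZMod p) V, ∀ x : V, f x = u x :=
    ⟨u.toZModLinearMap p, fun x => rfl⟩
  have hp : p.Prime := Fact.out
  have hfin : Module.finrank (ZMod p) V = 2 := by
    have h := FiniteField.pow_finrank_eq_natCard p V
    rw [hV] at h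
    exact Nat.pow_right_injective hp.two_le h
  have hmon := f.charpoly_monic
  have hdeg : f.charpoly.natDegree = 2 := by rw [f.charpoly_natDegree, hfin]
  have h0 := f.aeval_self_charpoly
  rw [hmon.as_sum, hdeg] at h0
  simp only [Finset.sum_range_succ, Finset.sum_range_zero, zero_add, pow_zero, pow_one, mul_one,
    map_add, map_mul, map_pow, Polynomial.aeval_X, Polynomial.aeval_C] at h0
  have hsm : ∀ (c : ZMod p) (x : V), c • x = ((c.val : ℕ) : ℤ) • x := by
    intro c x
    conv_lhs => rw [← ZMod.natCast_zmod_val c]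
    rw [Nat.cast_smul_eq_nsmul, natCast_zsmul]
  refine ⟨-(((f.charpoly.coeff 1).val : ℕ) : ℤ), (((f.charpoly.coeff 0).val : ℕ) : ℤ),
    fun x => ?_⟩
  have h1 := congrArg (fun g : Module.End (ZMod p) V => g x) h0
  simp only [LinearMap.add_apply, LinearMap.zero_apply, pow_two, Module.End.mul_apply,
    Module.algebraMap_end_apply, hf] at h1
  rw [hsm, hsm] at h1
  rw [neg_smul, ← sub_eq_zero, ← h1]
  abel

/-- JOB L21 (WQuot), second part. An additive automorphism of a group of order `p²` and exponent `p`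
satisfies a quadratic equation.

PROOF. If `u x ∈ ℤ x` for all `x` (all elements are eigenvectors), then either one scalar `c` works for
all (take `a = c`, `b = 0`), or use Cayley-Hamilton. In general: `V` is a vector space of dimension
`2` over `ZMod p` (`AddCommGroup.zmodModule`), `u` is linear (`AddMonoidHom.toZModLinearMap`),
`LinearMap.aeval_self_charpoly`, `charpoly` is monic of degree `2`; lift the coefficients to `ℤ`.
(Elementary alternative: if some `x` has `u x ∉ ℤ x`, then `x, u x` generate `V`, so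
`u (u x) = a • u x - b • x`, and the relation follows for `x`, `u x`, and all of `V`. Otherwise
`u x = c_x • x` for all `x`, and for two independent vectors `x, y` the relation for `x + y` shows that
`c_x = c_y`; `a = 2c`, `b = c²`.) -/
theorem exists_lin {p : ℕ} (hp : p.Prime) {V : Type*} [AddCommGroup V]
    (hV : Nat.card V = p ^ 2) (hpV : ∀ x : V, p • x = 0) (u : V ≃+ V) :
    ∃ a b : ℤ, ∀ x, u (u x) = a • u x - b • x := by
  have : Fact p.Prime := ⟨hp⟩
  have hfin : Finite V := Nat.finite_of_card_ne_zero (by rw [hV]; exact pow_ne_zero 2 hp.ne_zero)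
  let _ : Module (ZMod p) V := AddCommGroup.zmodModule hpV
  exact lin_module hV u.toAddMonoidHom

end Pool.Agent.Lib.FL60
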