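import Pool.Agent.Lib.MP_4a0cc8_ntC.LocDefs
import Pool.Agent.Lib.MP_4a0cc8_ntL.Loc1
import Pool.Agent.Lib.MP_4a0cc8_ntL.Loc2

set_option autoImplicit false
set_option linter.unusedSectionVars false

namespace Pool.Agent.Lib.FL60

open NumberField Pool.Agent.Lib.FM60 Pool.Agent.Lib.FMK60 IsDedekindDomain
open Pool.Agent.Lib.MP_4a0cc8_ntC (Loc1 Loc2)

variable {K : Type*} [Field K] [NumberField K]
variable (Ω : Type*) [Field Ω] [DecidableEq Ω] [CharZero Ω] [Algebra K Ω] [IsAlgClosed Ω]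

/-- LOC1. -/
theorem loc1 [IsGalois K Ω] : Loc1 K Ω := by
  intro p k hp hq A B A₀ B₀ hΔ hΔ₀ P hP hP0 hpP h6 hram h0 hmin H hD
  exact loc_tame (Ω := Ω) hΔ hΔ₀ hp hq H (P := ⟨P, hP, hP0⟩) ⟨h6, hram⟩ hpP h0 hmin hD

/-- LOC2. -/
theorem loc2 [IsGalois K Ω] : Loc2 K Ω := by
  intro p hp hp17 A B A₀ B₀ hΔ hΔ₀ P hP hP0 hpP hpP2 h0 hmin H hD
  exact loc_wild (Ω := Ω) hΔ hΔ₀ hp hp17 H (P := ⟨P, hP, hP0⟩) hpP hpP2 h0 hmin hD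

end Pool.Agent.Lib.FL60
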