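import Pool.Agent.Lib.MP_4a0cc8_ntL.Defs

set_option autoImplicit false
set_option linter.unusedSectionVars false
set_option linter.unusedVariables false

namespace Pool.Agent.Lib.FL60

open WithZero Pool.Agent.Lib.FM60 Pool.Agent.Lib.FMK60

section

variable {F L : Type*} [Field F] [Field L] [Algebra F L] {p : ℕ} {v : Valuation L ℤᵐ⁰}
  {I : Subgroup (L ≃ₐ[F] L)} (h : PlaceK F L p v I) {A B : L} {V : Type*} [AddCommGroup V]
  {D : TorsData L A B V} {ρ : (L ≃ₐ[F] L) → V ≃+ V} (hρ : PreActK D ρ) (H : AddSubgroup V)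
  {α : ℤ} (hα : ∀ P ∈ H, P ≠ 0 → v (zc D P) = exp (-α))
  (hadd : ∀ P ∈ H, ∀ Q ∈ H, v (zc D (P + Q) - zc D P - zc D Q) < exp (-α))

include h hα hadd in
/-- JOB L22 (WRes), first part.

PROOF. For `m : ℕ` by induction (`(m+1) • P = m • P + P`, `zc_zero`), for negative integers by
`zc_neg`. -/
theorem zc_zsmul (m : ℤ) {P : V} (hP : P ∈ H) :
    v (zc D (m • P) - m * zc D P) < exp (-α) := by
  have hnat : ∀ n : ℕ, v (zc D (n • P) - n * zc D P) < exp (-α) := by
    intro n
    induction n with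
    | zero =>
      rw [zero_smul, zc_zero, Nat.cast_zero, zero_mul, sub_zero, map_zero]
      exact exp_pos
    | succ n ih =>
      have h1 := hadd (n • P) (H.nsmul_mem hP n) P hP
      have e : zc D ((n + 1) • P) - ((n + 1 : ℕ) : L) * zc D P =
          (zc D (n • P + P) - zc D (n • P) - zc D P) + (zc D (n • P) - n * zc D P) := by
        rw [succ_nsmul]
        push_cast
        ring
      rw [e]
      exact (v.map_add _ _).trans_lt (max_lt h1 ih)
  obtain ⟨n, rfl | rfl⟩ := m.eq_nat_or_neg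
  · have := hnat n
    rw [natCast_zsmul]
    simpa using this
  · have h1 := hnat n
    rw [neg_smul, natCast_zsmul, zc_neg]
    have e : -zc D (n • P) - ((-(n : ℤ) : ℤ) : L) * zc D P =
        -(zc D (n • P) - n * zc D P) := by
      push_cast
      ring
    rw [e, Valuation.map_neg]
    exact h1

lemma div_small {L : Type*} [Field L] {v : Valuation L ℤᵐ⁰} {α : ℤ} {x z : L}
    (hz : v z = exp (-α)) (hx : v x < exp (-α)) : v (x / z) < 1 := by
  rw [map_div₀, hz]
  rw [div_lt_one₀ exp_pos]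
  exact hx

include h hρ hα hadd in
/-- JOB L22 (WRes), second part. A linear relation gives a relation for the eigenvalue.

PROOF. Let `z = zc D P`, `v z = exp (-α)`, `t = σ z / z`, `v t = 1` (`h.inv`). `zc D (ρ σ P) = σ z`,
`zc D (ρ σ (ρ σ P)) = σ (σ z)` (`zc_act`). By `zc_zsmul` and `hadd` (`a • Q - b • P` is the sum of
`a • Q` and `(-b) • P`) `v (σ (σ z) - a σ z + b z) < exp (-α) = v z`; divide by `z`:
`σ (σ z) / z = σ t * t`, and `v (σ t - t) < 1` (`h.inertia`). -/
theorem eig_of_rel {σ : L ≃ₐ[F] L} (hσ : σ ∈ I) {P : V} (hP : P ∈ H) (hP0 : P ≠ 0)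
    (hσP : ρ σ P ∈ H) {a b : ℤ} (hrel : ρ σ (ρ σ P) = a • ρ σ P - b • P) :
    v ((σ (zc D P) / zc D P) ^ 2 - a * (σ (zc D P) / zc D P) + b) < 1 := by
  have hz := hα P hP hP0
  have hz0 : zc D P ≠ 0 := by
    intro h0
    rw [h0, map_zero] at hz
    exact exp_ne_zero hz.symm
  have hσz0 : σ (zc D P) ≠ 0 := by simpa using hz0
  have ht : v (σ (zc D P) / zc D P) = 1 := by
    rw [map_div₀, h.inv σ hσ, div_self (by simpa using hz0)]
  have hin := h.inertia σ hσ _ ht.le
  have e1 := zc_zsmul h H hα hadd a hσP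
  have e2 := zc_zsmul h H hα hadd (-b) hP
  have e3 := hadd (a • ρ σ P) (H.zsmul_mem hσP a) ((-b) • P) (H.zsmul_mem hP (-b))
  have hrel' : a • ρ σ P + (-b) • P = ρ σ (ρ σ P) := by
    rw [hrel, neg_smul, sub_eq_add_neg]
  rw [hrel', zc_act hρ, zc_act hρ] at e3
  rw [zc_act hρ] at e1
  have e4 : v (σ (σ (zc D P)) - a * σ (zc D P) + b * zc D P) < exp (-α) := by
    have e : σ (σ (zc D P)) - a * σ (zc D P) + b * zc D P =
        ((σ (σ (zc D P)) - zc D (a • ρ σ P) - zc D ((-b) • P)) +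
          (zc D (a • ρ σ P) - a * σ (zc D P))) +
          (zc D ((-b) • P) - ((-b : ℤ) : L) * zc D P) := by
      push_cast
      ring
    rw [e]
    exact (v.map_add _ _).trans_lt (max_lt ((v.map_add _ _).trans_lt (max_lt e3 e1)) e2)
  have e5 := div_small hz e4
  have e : (σ (zc D P) / zc D P) ^ 2 - a * (σ (zc D P) / zc D P) + b =
      (σ (σ (zc D P)) - a * σ (zc D P) + b * zc D P) / zc D P -
        (σ (σ (zc D P) / zc D P) - σ (zc D P) / zc D P) * (σ (zc D P) / zc D P) := by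
    rw [map_div₀]
    field_simp
    ring
  rw [e]
  refine (v.map_sub _ _).trans_lt (max_lt e5 ?_)
  rw [map_mul, ht, mul_one]
  exact hin

include h hρ hα hadd in
/-- JOB L22 (WRes), third part.

PROOF. `zc D (ρ σ P) = σ z`, and `v (zc D (c • P) - c z) < exp (-α) = v z`; divide by `z`. -/
theorem eig_of_scal {σ : L ≃ₐ[F] L} (hσ : σ ∈ I) {P : V} (hP : P ∈ H) (hP0 : P ≠ 0)
    {c : ℤ} (hrel : ρ σ P = c • P) : v (σ (zc D P) / zc D P - c) < 1 := by
  have hz := hα P hP hP0
  have hz0 : zc D P ≠ 0 := by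
    intro h0
    rw [h0, map_zero] at hz
    exact exp_ne_zero hz.symm
  have e1 := zc_zsmul h H hα hadd c hP
  rw [← hrel, zc_act hρ] at e1
  have e5 := div_small hz e1
  have e : σ (zc D P) / zc D P - c = (σ (zc D P) - c * zc D P) / zc D P := by
    field_simp
  rw [e]
  exact e5

include h hρ hα hadd in
/-- JOB L22 (WRes), fourth part. If the eigenvalue is congruent to an integer, the automorphism
acts by this integer.

PROOF. We may assume `Q ≠ 0`. `z = zc D P`, `z' = zc D Q`, both of valuation `exp (-α)`, so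
`v (z'/z) = 1`, `v (σ (z'/z) - z'/z) < 1`, hence `v (σ z' / z' - σ z / z) < 1` and
`v (σ z' - c z') < exp (-α)`. `R = ρ σ Q - c • Q = ρ σ Q + (-c) • Q` is in `H`, and by `zc_zsmul` and
`hadd` `v (zc D R - (σ z' - c z')) < exp (-α)`, so `v (zc D R) < exp (-α)` and `R = 0` by `hα`. -/
theorem scal_of_eig {σ : L ≃ₐ[F] L} (hσ : σ ∈ I) {P : V} (hP : P ∈ H) (hP0 : P ≠ 0)
    {c : ℤ} (hc : v (σ (zc D P) / zc D P - c) < 1) {Q : V} (hQ : Q ∈ H) (hσQ : ρ σ Q ∈ H) :
    ρ σ Q = c • Q := by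
  by_cases hQ0 : Q = 0
  · rw [hQ0, map_zero, smul_zero]
  have hz := hα P hP hP0
  have hz0 : zc D P ≠ 0 := by
    intro h0
    rw [h0, map_zero] at hz
    exact exp_ne_zero hz.symm
  have hw := hα Q hQ hQ0
  have hw0 : zc D Q ≠ 0 := by
    intro h0
    rw [h0, map_zero] at hw
    exact exp_ne_zero hw.symm
  have ht : v (zc D Q / zc D P) = 1 := by
    rw [map_div₀, hz, hw, div_self exp_ne_zero]
  have hs : v (σ (zc D P) / zc D P) = 1 := by
    rw [map_div₀, h.inv σ hσ, div_self (by simpa using hz0)]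
  have hin := h.inertia σ hσ _ ht.le
  have hσz0 : σ (zc D P) ≠ 0 := by simpa using hz0
  -- the element `σ w - c w`
  have e1 : v (σ (zc D Q) - c * zc D Q) < exp (-α) := by
    have e : σ (zc D Q) - c * zc D Q =
        ((σ (zc D Q / zc D P) - zc D Q / zc D P) * (σ (zc D P) / zc D P) +
          (σ (zc D P) / zc D P - c) * (zc D Q / zc D P)) * zc D P := by
      rw [map_div₀]
      field_simp
      ring
    rw [e, map_mul, hz]
    have h3 : v ((σ (zc D Q / zc D P) - zc D Q / zc D P) * (σ (zc D P) / zc D P) +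
          (σ (zc D P) / zc D P - c) * (zc D Q / zc D P)) < 1 := by
      refine (v.map_add _ _).trans_lt (max_lt ?_ ?_)
      · rw [map_mul, hs, mul_one]; exact hin
      · rw [map_mul, ht, mul_one]; exact hc
    exact mul_lt_of_lt_one_left exp_pos h3
  have e2 := zc_zsmul h H hα hadd (-c) hQ
  have e3 := hadd (ρ σ Q) hσQ ((-c) • Q) (H.zsmul_mem hQ (-c))
  rw [zc_act hρ] at e3
  have e4 : v (zc D (ρ σ Q + (-c) • Q)) < exp (-α) := by
    have e : zc D (ρ σ Q + (-c) • Q) =
        ((zc D (ρ σ Q + (-c) • Q) - σ (zc D Q) - zc D ((-c) • Q)) +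
          (zc D ((-c) • Q) - ((-c : ℤ) : L) * zc D Q)) + (σ (zc D Q) - c * zc D Q) := by
      push_cast
      ring
    rw [e]
    exact (v.map_add _ _).trans_lt (max_lt ((v.map_add _ _).trans_lt (max_lt e3 e2)) e1)
  have e5 : ρ σ Q + (-c) • Q = 0 := by
    by_contra hne
    have h6 := hα _ (H.add_mem hσQ (H.zsmul_mem hQ (-c))) hne
    rw [h6] at e4
    exact lt_irrefl _ e4
  rw [neg_smul, ← sub_eq_add_neg, sub_eq_zero] at e5
  exact e5

end

end Pool.Agent.Lib.FL60
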