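import Pool.Agent.Lib.FMK60.PlaceK
import Pool.Agent.Lib.FMK60.GaussPtsK
import Pool.Agent.Lib.FM60.Nodal

section

set_option autoImplicit false

namespace Pool.Agent.Lib.FL60

open WithZero NumberField IsDedekindDomain Pool.Agent.Lib.FM60 Pool.Agent.Lib.FMK60
open scoped Pointwise

private theorem WPlace_card (K L : Type*) [Field K] [NumberField K] [Field L] [NumberField L]
    [Algebra K L] [IsGalois K L] (w : HeightOneSpectrum (𝓞 L)) (x : L) (hx : x ≠ 0)
    (hfix : ∀ σ ∈ w.asIdeal.toAddSubgroup.inertia (L ≃ₐ[K] L), σ x = x) :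
    ∃ m : ℤ, w.valuation L x =
      exp (m * (Nat.card (w.asIdeal.toAddSubgroup.inertia (L ≃ₐ[K] L)) : ℤ)) := by
  have : FiniteDimensional K L := inferInstance
  obtain ⟨I, hI⟩ : ∃ I : Subgroup (L ≃ₐ[K] L),
    I = w.asIdeal.toAddSubgroup.inertia (L ≃ₐ[K] L) := ⟨_, rfl⟩
  rw [← hI] at hfix ⊢
  let E : IntermediateField K L := FixedPoints.intermediateField I
  have : NumberField E := inferInstance
  have hG : IsGaloisGroup I E L := IsGaloisGroup.subgroup (G := L ≃ₐ[K] L) K L I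
  have hG2 : IsGaloisGroup I (𝓞 E) (𝓞 L) := IsGaloisGroup.of_isFractionRing I (𝓞 E) (𝓞 L) E L
  have hwp : w.asIdeal.IsPrime := w.isPrime
  let PE : Ideal (𝓞 E) := w.asIdeal.under (𝓞 E)
  have hover : w.asIdeal.LiesOver PE := inferInstance
  have hPEp : PE.IsPrime := inferInstance
  have hPE0 : PE ≠ ⊥ := by
    exact Ideal.under_ne_bot (A := 𝓞 E) w.ne_bot
  let u : HeightOneSpectrum (𝓞 E) := ⟨PE, hPEp, hPE0⟩
  have hover2 : w.asIdeal.LiesOver u.asIdeal := hover
  have hxE : x ∈ E := by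
    intro σ
    exact hfix σ σ.2
  have h1 := HeightOneSpectrum.valuation_liesOver L u w (⟨x, hxE⟩ : E)
  have h2 := Ideal.card_inertia_eq_ramificationIdxIn (G := I) PE w.asIdeal
  have h3 := Ideal.ramificationIdxIn_eq_ramificationIdx PE w.asIdeal I
  have h4 := Ideal.ramificationIdx'_eq_ramificationIdx PE w.asIdeal hPE0
  have h5 : Nat.card (w.asIdeal.toAddSubgroup.inertia I) = Nat.card I := by
    have h7 : ∀ τ ∈ I, ∀ y : 𝓞 L, τ • y - y ∈ w.asIdeal.toAddSubgroup := by
      intro τ hτ y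
      rw [hI] at hτ
      exact hτ y
    have h6 : w.asIdeal.toAddSubgroup.inertia I = ⊤ := by
      rw [Subgroup.eq_top_iff']
      intro σ y
      exact h7 σ σ.2 y
    rw [h6]
    exact Nat.card_congr Subgroup.topEquiv.toEquiv
  have h8 : u.asIdeal.ramificationIdx' w.asIdeal = Nat.card I := by
    rw [← h5, show (Nat.card (w.asIdeal.toAddSubgroup.inertia I)) =
      PE.ramificationIdxIn (𝓞 L) from h2, h3, ← h4]
  have hx' : (⟨x, hxE⟩ : E) ≠ 0 := by
    intro h
    exact hx (congrArg Subtype.val h)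
  have h9 : u.valuation E (⟨x, hxE⟩ : E) ≠ 0 := (Valuation.ne_zero_iff _).2 hx'
  refine ⟨(u.valuation E (⟨x, hxE⟩ : E)).log, ?_⟩
  have h10 : w.valuation L x = w.valuation L ((algebraMap E L) ⟨x, hxE⟩) := rfl
  rw [h10, ← h1, h8, mul_comm, ← nsmul_eq_mul, exp_nsmul, exp_log h9]

/-- JOB L15 (WPlace). `exists_placeK` (Lib/FMK60/PlaceK.lean) with one more conclusion: the elements
fixed by the inertia group have valuations in the group generated by `v ℓ`.

PROOF. Copy the proof of `exists_placeK` (the place is `w.valuation L` with `w = ⟨P, _, _⟩`,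
`I = P.toAddSubgroup.inertia (L ≃ₐ[K] L)`, `v ℓ = exp (-card I)`). For the last conclusion let
`E = IntermediateField.fixedField I` (`L/E` is Galois with group `I`, `E` is a number field),
`P_E = P.under (𝓞 E)` or `P.comap (algebraMap (𝓞 E) (𝓞 L))`, `u = ⟨P_E, _, _⟩`. By
`HeightOneSpectrum.valuation_liesOver` (Mathlib.NumberTheory.RamificationInertia.Valuation)
`w.valuation L x = u.valuation E x ^ e(P/P_E)` for `x ∈ E`, so it is enough to see
`e(P/P_E) = card I`. As in the proof of `hexact` (last lines), `Ideal.card_inertia_eq_ramificationIdxIn`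
with `G = L ≃ₐ[E] L` (and `Ideal.ramificationIdxIn_eq_ramificationIdx`) says that `e(P/P_E)` is the
order of the inertia group of `P` in `L ≃ₐ[E] L`, and that group is everything: its elements are the
`σ` of `I` (an `E`-automorphism `τ` restricts to a `K`-automorphism in
`E.fixingSubgroup = I`, `IntermediateField.fixingSubgroup_fixedField`), which act trivially modulo `P`.
Hence `e(P/P_E) = card (L ≃ₐ[E] L) = card I` (`IntermediateField.finrank_fixedField_eq_card`,
`IsGalois.card_aut_eq_finrank`). See also Mathlib.NumberTheory.RamificationInertia.HilbertTheory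
(`IsInertiaField.rank_left`). The value `u.valuation E x` is `exp m` for `x ≠ 0`, so
`v x = exp (m card I) = v ℓ ^ (-m)`. -/
theorem exists_placeK2 (K L : Type*) [Field K] [NumberField K] [Field L] [Algebra K L]
    [FiniteDimensional K L] [IsGalois K L] (l : HeightOneSpectrum (𝓞 K)) (ℓ : ℕ) (hℓ : ℓ.Prime)
    (hl : (ℓ : 𝓞 K) ∈ l.asIdeal) (hl2 : (ℓ : 𝓞 K) ∉ l.asIdeal ^ 2) :
    ∃ (v : Valuation L ℤᵐ⁰) (I : Subgroup (L ≃ₐ[K] L)), PlaceK K L ℓ v I ∧
      (∀ a : 𝓞 K, v (algebraMap K L a) < 1 ↔ a ∈ l.asIdeal) ∧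
      (∀ a : 𝓞 K, a ∈ l.asIdeal → a ∉ l.asIdeal ^ 2 →
        v (algebraMap K L a) = v (ℓ : L)) ∧
      (∀ x : L, x ≠ 0 → (∀ σ ∈ I, σ x = x) → ∃ m : ℤ, v x = v (ℓ : L) ^ m) := by
  have : NumberField L := NumberField.of_module_finite K L
  have : Fact ℓ.Prime := ⟨hℓ⟩
  let p : Ideal (𝓞 K) := l.asIdeal
  have hp0 : p ≠ ⊥ := l.ne_bot
  have hpp : p.IsPrime := l.isPrime
  have hpm : p.IsMaximal := hpp.isMaximal hp0
  obtain ⟨P⟩ := (inferInstance : Nonempty (p.primesOver (𝓞 L)))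
  obtain ⟨P, hPp, hPl⟩ := P
  have hP0 : P ≠ ⊥ := Ideal.ne_bot_of_liesOver_of_ne_bot hp0 P
  let w : HeightOneSpectrum (𝓞 L) := ⟨P, hPp, hP0⟩
  have hinj : Function.Injective (algebraMap (𝓞 K) (𝓞 L)) :=
    FaithfulSMul.algebraMap_injective _ _
  have hne : p.map (algebraMap (𝓞 K) (𝓞 L)) ≠ ⊥ := by
    rw [ne_eq, Ideal.map_eq_bot_iff_of_injective hinj]
    exact hp0
  have hcomap : ∀ a : 𝓞 K, algebraMap (𝓞 K) (𝓞 L) a ∈ P ↔ a ∈ p := by
    intro a
    rw [hPl.over, Ideal.mem_comap]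
  have htower : ∀ a : 𝓞 K, algebraMap K L (a : K) =
      algebraMap (𝓞 L) L (algebraMap (𝓞 K) (𝓞 L) a) := fun a => rfl
  have hltK : ∀ a : 𝓞 K, w.valuation L (algebraMap K L (a : K)) < 1 ↔ a ∈ p := by
    intro a
    rw [htower, w.valuation_lt_one_iff_mem]
    exact hcomap a
  have hexact : ∀ a : 𝓞 K, a ∈ p → a ∉ p ^ 2 → w.valuation L (algebraMap K L (a : K)) =
      exp (-(Nat.card (P.toAddSubgroup.inertia (L ≃ₐ[K] L)) : ℤ)) := by
    intro a ha ha2
    have ha0 : a ≠ 0 := by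
      rintro rfl
      exact ha2 (zero_mem _)
    set a' : 𝓞 L := algebraMap (𝓞 K) (𝓞 L) a with ha'
    have ha'0 : a' ≠ 0 := by
      intro h0
      apply ha0
      apply hinj
      rw [map_zero]; exact h0
    obtain ⟨J, hJ⟩ : p ∣ Ideal.span {a} := by
      rw [Ideal.dvd_span_singleton]; exact ha
    have hJ2 : ¬ p ∣ J := by
      rintro ⟨J', rfl⟩
      apply ha2
      rw [← Ideal.dvd_span_singleton, hJ, pow_two, ← mul_assoc]
      exact Dvd.intro _ rfl
    have hspan : Ideal.span {a'} = p.map (algebraMap (𝓞 K) (𝓞 L)) *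
        J.map (algebraMap (𝓞 K) (𝓞 L)) := by
      rw [← Ideal.map_mul, ← hJ, Ideal.map_span, Set.image_singleton]
    have hPJ : ¬ P ∣ J.map (algebraMap (𝓞 K) (𝓞 L)) := by
      intro h0
      apply hJ2
      rw [Ideal.dvd_iff_le] at h0 ⊢
      rw [Ideal.map_le_iff_le_comap] at h0
      refine h0.trans ?_
      intro x hx
      exact (hcomap x).mp hx
    have hPprime : Prime P := Ideal.prime_of_isPrime hP0 hPp
    have hspan0 : Ideal.span {a'} ≠ ⊥ := by
      rw [ne_eq, Ideal.span_singleton_eq_bot]; exact ha'0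
    have hfin : FiniteMultiplicity P (p.map (algebraMap (𝓞 K) (𝓞 L)) *
        J.map (algebraMap (𝓞 K) (𝓞 L))) := by
      rw [← hspan]
      exact FiniteMultiplicity.of_prime_left hPprime hspan0
    have hm : multiplicity P (Ideal.span {a'}) = multiplicity P (p.map (algebraMap (𝓞 K) (𝓞 L))) := by
      rw [hspan, multiplicity_mul hPprime hfin, multiplicity_eq_zero.mpr hPJ, add_zero]
    have h1 : w.valuation L (algebraMap K L (a : K)) = w.intValuation a' := by
      rw [htower, w.valuation_of_algebraMap]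
    rw [h1, w.intValuation_eq_exp_neg_multiplicity ha'0]
    have h2 := Ideal.IsDedekindDomain.ramificationIdx_eq_multiplicity p P hne
    have h3 := Ideal.card_inertia_eq_ramificationIdxIn (G := L ≃ₐ[K] L) p P
    have h4 := Ideal.ramificationIdxIn_eq_ramificationIdx p P (L ≃ₐ[K] L)
    rw [show w.asIdeal = P from rfl, hm, ← h2, ← h4, ← h3]
  have hsurj : Function.Surjective (w.valuation L) := w.valuation_surjective L
  have hin : ∀ σ ∈ P.toAddSubgroup.inertia (L ≃ₐ[K] L), ∀ x, w.valuation L x ≤ 1 →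
      w.valuation L (σ x - x) < 1 := by
    intro σ hσ x hx
    -- approximate `x` by an algebraic integer, using the denominators
    obtain ⟨n, d, hd⟩ := w.exists_primeCompl_mul_eq_of_integer x hx
    have hdv : w.valuation L (algebraMap (𝓞 L) L d) = 1 := by
      rw [w.valuation_of_algebraMap, w.intValuation_eq_one_iff_mem_primeCompl]
      exact d.2
    have hσO : ∀ a : 𝓞 L, algebraMap (𝓞 L) L (σ • a) = σ (algebraMap (𝓞 L) L a) := fun a => rfl
    have hσa : ∀ a : 𝓞 L, w.valuation L (σ (algebraMap (𝓞 L) L a) - algebraMap (𝓞 L) L a) < 1 := by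
      intro a
      rw [← hσO, ← map_sub, w.valuation_lt_one_iff_mem]
      exact hσ a
    have hd0 : algebraMap (𝓞 L) L d ≠ 0 := by
      intro h0; rw [h0, map_zero] at hdv; exact zero_ne_one hdv
    have hσd : w.valuation L (σ (algebraMap (𝓞 L) L d)) = 1 := by
      have e : σ (algebraMap (𝓞 L) L d) = algebraMap (𝓞 L) L d +
          (σ (algebraMap (𝓞 L) L d) - algebraMap (𝓞 L) L d) := by ring
      rw [e, Valuation.map_add_eq_of_lt_left _ (by rw [hdv]; exact hσa d), hdv]
    have hσd0 : σ (algebraMap (𝓞 L) L d) ≠ 0 := by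
      intro h0; rw [h0, map_zero] at hσd; exact zero_ne_one hσd
    have hx' : x = algebraMap (𝓞 L) L n / algebraMap (𝓞 L) L d := by
      rw [eq_div_iff hd0]; exact hd
    have e : (σ x - x) * (algebraMap (𝓞 L) L d * σ (algebraMap (𝓞 L) L d)) =
        (σ (algebraMap (𝓞 L) L n) - algebraMap (𝓞 L) L n) * algebraMap (𝓞 L) L d -
        algebraMap (𝓞 L) L n * (σ (algebraMap (𝓞 L) L d) - algebraMap (𝓞 L) L d) := by
      rw [hx', map_div₀]
      field_simp
      ring
    have h5 : w.valuation L (σ x - x) = w.valuation L ((σ x - x) *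
        (algebraMap (𝓞 L) L d * σ (algebraMap (𝓞 L) L d))) := by
      rw [map_mul, map_mul, hdv, hσd, mul_one, mul_one]
    rw [h5, e]
    refine (Valuation.map_sub _ _ _).trans_lt (max_lt ?_ ?_)
    · rw [map_mul, hdv, mul_one]; exact hσa n
    · rw [map_mul]
      exact mul_lt_one_of_nonneg_of_lt_one_right (w.valuation_le_one n) zero_le (hσa d)
  have hexℓ : w.valuation L (ℓ : L) =
      exp (-(Nat.card (P.toAddSubgroup.inertia (L ≃ₐ[K] L)) : ℤ)) := by
    have := hexact (ℓ : 𝓞 K) hl hl2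
    simpa using this
  have hintZ : ∀ m : ℤ, (m : 𝓞 K) ∈ p ↔ (ℓ : ℤ) ∣ m := by
    intro m
    constructor
    · intro hm
      by_contra hcon
      have hcop : IsCoprime (ℓ : ℤ) m :=
        (Nat.prime_iff_prime_int.mp hℓ).coprime_iff_not_dvd.mpr hcon
      obtain ⟨a, b, hab⟩ := hcop
      apply hpp.ne_top
      rw [Ideal.eq_top_iff_one]
      have h1 : (1 : 𝓞 K) = (a : 𝓞 K) * (ℓ : 𝓞 K) + (b : 𝓞 K) * (m : 𝓞 K) := by
        exact_mod_cast hab.symm
      rw [h1]
      exact add_mem (Ideal.mul_mem_left _ _ hl) (Ideal.mul_mem_left _ _ hm)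
    · rintro ⟨k, rfl⟩
      push_cast
      exact Ideal.mul_mem_right _ _ hl
  refine ⟨w.valuation L, P.toAddSubgroup.inertia (L ≃ₐ[K] L), ⟨?_, ?_, hsurj, hexℓ,
    inv_of_inertia hsurj hin, hin, ?_⟩, hltK, fun a ha ha2 => by rw [hexact a ha ha2, hexℓ],
    fun x hx hfix => ?_⟩
  · intro x hx
    have := w.valuation_le_one (K := L) (⟨x, hx⟩ : 𝓞 L)
    exact this
  · intro m
    rw [← hintZ m, ← hltK]
    simp
  · -- the residue field
    have hPm : P.IsMaximal := hPp.isMaximal hP0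
    let k := (𝓞 L) ⧸ P
    let : Field k := Ideal.Quotient.field P
    have : Finite k := Ring.HasFiniteQuotients.finiteQuotient hP0
    let := Fintype.ofFinite k
    have hchar : CharP k ℓ := by
      rw [CharP.charP_iff_prime_eq_zero hℓ]
      have h1 : (ℓ : 𝓞 L) ∈ P := by
        have h2 := (hcomap (ℓ : 𝓞 K)).mpr hl
        simpa using h2
      have h3 := Ideal.Quotient.eq_zero_iff_mem.mpr h1
      rwa [map_natCast] at h3
    obtain ⟨f, hf, hcard⟩ := FiniteField.card k ℓ
    refine ⟨f, f.pos, fun x hx => ?_⟩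
    obtain ⟨a, ha⟩ := w.exists_valuation_sub_lt_of_integer hx 1
    rw [Units.val_one] at ha
    set a' := algebraMap (𝓞 L) L a with ha'
    have hav : w.valuation L a' ≤ 1 := w.valuation_le_one a
    have h1 : w.valuation L (x ^ (ℓ ^ (f : ℕ)) - a' ^ (ℓ ^ (f : ℕ))) < 1 := by
      rw [← geom_sum₂_mul, map_mul]
      have h2 : w.valuation L (∑ i ∈ Finset.range (ℓ ^ (f : ℕ)),
          x ^ i * a' ^ (ℓ ^ (f : ℕ) - 1 - i)) ≤ 1 := by
        apply Valuation.map_sum_le
        intro i _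
        rw [map_mul, map_pow, map_pow]
        exact mul_le_one' (pow_le_one' hx _) (pow_le_one' hav _)
      have h3 : w.valuation L (x - a') < 1 := by rw [Valuation.map_sub_swap]; exact ha
      exact mul_lt_one_of_nonneg_of_lt_one_right h2 zero_le h3
    have h2 : w.valuation L (a' ^ (ℓ ^ (f : ℕ)) - a') < 1 := by
      have h4 : a ^ (ℓ ^ (f : ℕ)) - a ∈ P := by
        rw [← Ideal.Quotient.eq_zero_iff_mem, map_sub, map_pow, ← hcard, sub_eq_zero]
        exact FiniteField.pow_card _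
      have h5 := (w.valuation_lt_one_iff_mem (K := L) _).mpr h4
      simpa [ha'] using h5
    have e : x ^ (ℓ ^ (f : ℕ)) - x = (x ^ (ℓ ^ (f : ℕ)) - a' ^ (ℓ ^ (f : ℕ))) +
        ((a' ^ (ℓ ^ (f : ℕ)) - a') + (a' - x)) := by ring
    rw [e]
    exact (Valuation.map_add _ _ _).trans_lt (max_lt h1
      ((Valuation.map_add _ _ _).trans_lt (max_lt h2 ha)))
  · obtain ⟨m, hm⟩ := WPlace_card K L w x hx hfix
    refine ⟨-m, ?_⟩
    rw [hm, hexℓ, ← exp_zsmul]
    congr 1
    simp only [smul_eq_mul, neg_mul_neg]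
    rfl

end Pool.Agent.Lib.FL60
end

section

set_option autoImplicit false
set_option linter.unusedSectionVars false
set_option linter.unusedVariables false

namespace Pool.Agent.Lib.FL60

open WithZero Polynomial Pool.Agent.Lib.FM60

/-- JOB L18 (WScale), first part. Homogeneity of the elliptic divisibility sequences.

PROOF. Strong induction with `preNormEDS'_even`, `preNormEDS'_odd` (see the proofs in
Lib/FM60/Eval.lean for the form of these recursions in this Mathlib); the exponents are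
`n² - 1` for odd `n`, `n² - 4` for even `n` (`preNormEDS' _ _ _ 0 = 0`). One can prove both statements
together: for all `n`, `preNormEDS' (u^12 b) (u^8 c) (u^12 d) n * (if Even n then u ^ 4 else u) =
u ^ (n²) * preNormEDS' b c d n`. -/
theorem preNormEDS'_scale {R : Type*} [CommRing R] [IsDomain R] {u : R} (hu : u ≠ 0) (b c d : R)
    (n : ℕ) : preNormEDS' (u ^ 12 * b) (u ^ 8 * c) (u ^ 12 * d) n * (if Even n then u ^ 4 else u) =
      u ^ (n ^ 2) * preNormEDS' b c d n := by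
  induction n using Nat.strong_induction_on with
  | _ n ih =>
  rcases Nat.lt_or_ge n 5 with hn | hn
  · interval_cases n
    · simp
    · simp
    · simp
    · rw [preNormEDS'_three, preNormEDS'_three, if_neg (by decide)]; ring
    · rw [preNormEDS'_four, preNormEDS'_four, if_pos (by decide)]; ring
  · have hev : ∀ k : ℕ, Even k → k < n → preNormEDS' (u ^ 12 * b) (u ^ 8 * c) (u ^ 12 * d) k * u ^ 4 =
        u ^ (k ^ 2) * preNormEDS' b c d k := fun k hk hkn => by
      have := ih k hkn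
      rwa [if_pos hk] at this
    have hod : ∀ k : ℕ, ¬ Even k → k < n → preNormEDS' (u ^ 12 * b) (u ^ 8 * c) (u ^ 12 * d) k * u =
        u ^ (k ^ 2) * preNormEDS' b c d k := fun k hk hkn => by
      have := ih k hkn
      rwa [if_neg hk] at this
    rcases Nat.even_or_odd' n with ⟨k, hk | hk⟩
    · obtain ⟨m, rfl⟩ : ∃ m, k = m + 3 := ⟨k - 3, by omega⟩
      subst hk
      rw [preNormEDS'_even, preNormEDS'_even, if_pos (even_two_mul _)]
      apply mul_right_cancel₀ (pow_ne_zero 6 hu)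
      by_cases hm : Even m
      · have h1 := hod (m + 1) (by rw [Nat.even_add_one]; simpa using hm) (by omega)
        have h2 := hev (m + 2) (by simpa [Nat.even_add] using hm) (by omega)
        have h3 := hod (m + 3) (by rw [Nat.even_add]; simp [hm, Nat.even_iff]) (by omega)
        have h4 := hev (m + 4) (by rw [Nat.even_add]; simp [hm, Nat.even_iff]) (by omega)
        have h5 := hod (m + 5) (by rw [Nat.even_add]; simp [hm, Nat.even_iff]) (by omega)
        generalize preNormEDS' (u ^ 12 * b) (u ^ 8 * c) (u ^ 12 * d) (m + 1) = W1 at *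
        generalize preNormEDS' (u ^ 12 * b) (u ^ 8 * c) (u ^ 12 * d) (m + 2) = W2 at *
        generalize preNormEDS' (u ^ 12 * b) (u ^ 8 * c) (u ^ 12 * d) (m + 3) = W3 at *
        generalize preNormEDS' (u ^ 12 * b) (u ^ 8 * c) (u ^ 12 * d) (m + 4) = W4 at *
        generalize preNormEDS' (u ^ 12 * b) (u ^ 8 * c) (u ^ 12 * d) (m + 5) = W5 at *
        calc (W2 ^ 2 * W3 * W5 - W1 * W3 * W4 ^ 2) * u ^ 4 * u ^ 6 =
            (W2 * u ^ 4) ^ 2 * (W3 * u) * (W5 * u) - (W1 * u) * (W3 * u) * (W4 * u ^ 4) ^ 2 := by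
              ring
          _ = _ := by rw [h1, h2, h3, h4, h5]; ring
      · have h1 := hev (m + 1) (by rw [Nat.even_add_one]; exact hm) (by omega)
        have h2 := hod (m + 2) (by simpa [Nat.even_add] using hm) (by omega)
        have h3 := hev (m + 3) (by rw [Nat.even_add]; simp [hm, Nat.even_iff]) (by omega)
        have h4 := hod (m + 4) (by rw [Nat.even_add]; simp [hm, Nat.even_iff]) (by omega)
        have h5 := hev (m + 5) (by rw [Nat.even_add]; simp [hm, Nat.even_iff]) (by omega)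
        generalize preNormEDS' (u ^ 12 * b) (u ^ 8 * c) (u ^ 12 * d) (m + 1) = W1 at *
        generalize preNormEDS' (u ^ 12 * b) (u ^ 8 * c) (u ^ 12 * d) (m + 2) = W2 at *
        generalize preNormEDS' (u ^ 12 * b) (u ^ 8 * c) (u ^ 12 * d) (m + 3) = W3 at *
        generalize preNormEDS' (u ^ 12 * b) (u ^ 8 * c) (u ^ 12 * d) (m + 4) = W4 at *
        generalize preNormEDS' (u ^ 12 * b) (u ^ 8 * c) (u ^ 12 * d) (m + 5) = W5 at *
        calc (W2 ^ 2 * W3 * W5 - W1 * W3 * W4 ^ 2) * u ^ 4 * u ^ 6 =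
            (W2 * u) ^ 2 * (W3 * u ^ 4) * (W5 * u ^ 4) -
              (W1 * u ^ 4) * (W3 * u ^ 4) * (W4 * u) ^ 2 := by ring
          _ = _ := by rw [h1, h2, h3, h4, h5]; ring
    · obtain ⟨m, rfl⟩ : ∃ m, k = m + 2 := ⟨k - 2, by omega⟩
      subst hk
      have hne : ¬ Even (2 * (m + 2) + 1) := by
        rw [Nat.not_even_iff_odd]
        exact ⟨m + 2, rfl⟩
      rw [preNormEDS'_odd, preNormEDS'_odd, if_neg hne]
      apply mul_right_cancel₀ (pow_ne_zero 15 hu)
      by_cases hm : Even m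
      · simp only [if_pos hm]
        have h1 := hod (m + 1) (by rw [Nat.even_add_one]; simpa using hm) (by omega)
        have h2 := hev (m + 2) (by simpa [Nat.even_add] using hm) (by omega)
        have h3 := hod (m + 3) (by rw [Nat.even_add]; simp [hm, Nat.even_iff]) (by omega)
        have h4 := hev (m + 4) (by rw [Nat.even_add]; simp [hm, Nat.even_iff]) (by omega)
        generalize preNormEDS' (u ^ 12 * b) (u ^ 8 * c) (u ^ 12 * d) (m + 1) = W1 at *
        generalize preNormEDS' (u ^ 12 * b) (u ^ 8 * c) (u ^ 12 * d) (m + 2) = W2 at *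
        generalize preNormEDS' (u ^ 12 * b) (u ^ 8 * c) (u ^ 12 * d) (m + 3) = W3 at *
        generalize preNormEDS' (u ^ 12 * b) (u ^ 8 * c) (u ^ 12 * d) (m + 4) = W4 at *
        calc (W4 * W2 ^ 3 * (u ^ 12 * b) - W1 * W3 ^ 3 * 1) * u * u ^ 15 =
            (W4 * u ^ 4) * (W2 * u ^ 4) ^ 3 * (u ^ 12 * b) -
              (W1 * u) * (W3 * u) ^ 3 * u ^ 12 := by ring
          _ = _ := by rw [h1, h2, h3, h4]; ring
      · simp only [if_neg hm]
        have h1 := hev (m + 1) (by rw [Nat.even_add_one]; exact hm) (by omega)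
        have h2 := hod (m + 2) (by simpa [Nat.even_add] using hm) (by omega)
        have h3 := hev (m + 3) (by rw [Nat.even_add]; simp [hm, Nat.even_iff]) (by omega)
        have h4 := hod (m + 4) (by rw [Nat.even_add]; simp [hm, Nat.even_iff]) (by omega)
        generalize preNormEDS' (u ^ 12 * b) (u ^ 8 * c) (u ^ 12 * d) (m + 1) = W1 at *
        generalize preNormEDS' (u ^ 12 * b) (u ^ 8 * c) (u ^ 12 * d) (m + 2) = W2 at *
        generalize preNormEDS' (u ^ 12 * b) (u ^ 8 * c) (u ^ 12 * d) (m + 3) = W3 at *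
        generalize preNormEDS' (u ^ 12 * b) (u ^ 8 * c) (u ^ 12 * d) (m + 4) = W4 at *
        calc (W4 * W2 ^ 3 * 1 - W1 * W3 ^ 3 * (u ^ 12 * b)) * u * u ^ 15 =
            (W4 * u) * (W2 * u) ^ 3 * u ^ 12 -
              (W1 * u ^ 4) * (W3 * u ^ 4) ^ 3 * (u ^ 12 * b) := by ring
          _ = _ := by rw [h1, h2, h3, h4]; ring

/-- JOB L18 (WScale), second part. The factorization of the division polynomial of the scaled curve.

PROOF. For all `x`: `eval (u² x) (preΨ' p of (u⁴A, u⁶B)) = u^(p²-1) * eval x (preΨ' p of (A,B))` by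
`eval_preΨ'`, `eval_Ψ₂Sq`, `eval_Ψ₃`, `eval_preΨ₄` (Lib/FM60/Nodal.lean) and the first part
(`Ψ₂Sq` is homogeneous of degree `6` in `u`, `Ψ₃` of degree `8`, `preΨ₄` of degree `12`), `p` odd,
`u ≠ 0`. So, with `card S = (p² - 1)/2` (degrees: `natDegree_preΨ'` in characteristic `0`, or
`WeierstrassCurve.natDegree_preΨ'`; `p ≠ 0` in `L`), the polynomials of the statement have the
same values at all elements of the infinite field `L` (every element is `u² x`):
`Polynomial.funext`. -/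
theorem pre_scale {L : Type*} [Field L] [CharZero L] {A B u : L} (hu : u ≠ 0) {p : ℕ} (hp : Odd p)
    {S : Finset L}
    (hprod : (⟨0, 0, 0, A, B⟩ : WeierstrassCurve L).preΨ' p =
      C (p : L) * ∏ x ∈ S, (X - C x)) :
    (⟨0, 0, 0, u ^ 4 * A, u ^ 6 * B⟩ : WeierstrassCurve L).preΨ' p =
      C (p : L) * ∏ x ∈ S, (X - C (u ^ 2 * x)) := by
  have hinf : Infinite L := Infinite.of_injective ((↑) : ℕ → L) Nat.cast_injective
  have hp0 : p ≠ 0 := by rintro rfl; simp at hp
  have hpL : (p : L) ≠ 0 := by exact_mod_cast hp0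
  have hcard : 2 * S.card = p ^ 2 - 1 := by
    have h1 := congrArg Polynomial.natDegree hprod
    rw [WeierstrassCurve.natDegree_preΨ' _ hpL, if_neg (Nat.not_even_iff_odd.2 hp),
      natDegree_C_mul hpL, natDegree_prod_of_monic _ _ (fun x _ => monic_X_sub_C x)] at h1
    simp only [natDegree_X_sub_C, Finset.sum_const, smul_eq_mul, mul_one] at h1
    have h2 : 2 ∣ p ^ 2 - 1 := by
      obtain ⟨k, rfl⟩ := hp
      exact ⟨2 * k ^ 2 + 2 * k, by
        have : (2 * k + 1) ^ 2 = 2 * (2 * k ^ 2 + 2 * k) + 1 := by ring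
        omega⟩
    omega
  apply Polynomial.funext
  intro x'
  obtain ⟨x, rfl⟩ : ∃ x, x' = u ^ 2 * x := ⟨x' / u ^ 2, by field_simp⟩
  have h1 := preNormEDS'_scale hu ((4 * (x ^ 3 + A * x + B)) ^ 2)
      (12 * x * (x ^ 3 + A * x + B) - (3 * x ^ 2 + A) ^ 2)
      (-16 * (x ^ 3 + A * x + B) ^ 2 - 2 * (3 * x ^ 2 + A) ^ 3 +
      24 * x * (x ^ 3 + A * x + B) * (3 * x ^ 2 + A)) p
  rw [if_neg (Nat.not_even_iff_odd.2 hp), ← eval_preΨ'] at h1
  have h2 := eval_preΨ' (u ^ 4 * A) (u ^ 6 * B) (u ^ 2 * x) p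
  rw [show (4 * ((u ^ 2 * x) ^ 3 + u ^ 4 * A * (u ^ 2 * x) + u ^ 6 * B)) ^ 2 =
      u ^ 12 * (4 * (x ^ 3 + A * x + B)) ^ 2 by ring,
    show 12 * (u ^ 2 * x) * ((u ^ 2 * x) ^ 3 + u ^ 4 * A * (u ^ 2 * x) + u ^ 6 * B) -
      (3 * (u ^ 2 * x) ^ 2 + u ^ 4 * A) ^ 2 =
      u ^ 8 * (12 * x * (x ^ 3 + A * x + B) - (3 * x ^ 2 + A) ^ 2) by ring,
    show -16 * ((u ^ 2 * x) ^ 3 + u ^ 4 * A * (u ^ 2 * x) + u ^ 6 * B) ^ 2 -
      2 * (3 * (u ^ 2 * x) ^ 2 + u ^ 4 * A) ^ 3 +
      24 * (u ^ 2 * x) * ((u ^ 2 * x) ^ 3 + u ^ 4 * A * (u ^ 2 * x) + u ^ 6 * B) *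
        (3 * (u ^ 2 * x) ^ 2 + u ^ 4 * A) =
      u ^ 12 * (-16 * (x ^ 3 + A * x + B) ^ 2 - 2 * (3 * x ^ 2 + A) ^ 3 +
      24 * x * (x ^ 3 + A * x + B) * (3 * x ^ 2 + A)) by ring] at h2
  rw [← h2, hprod] at h1
  apply mul_right_cancel₀ hu
  rw [h1]
  simp only [eval_mul, eval_C, eval_prod, eval_sub, eval_X]
  have h3 : ∏ s ∈ S, (u ^ 2 * x - u ^ 2 * s) = (u ^ 2) ^ S.card * ∏ s ∈ S, (x - s) := by
    rw [← Finset.prod_const, ← Finset.prod_mul_distrib]
    exact Finset.prod_congr rfl fun s _ => by ring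
  have h4 : p ^ 2 = 2 * S.card + 1 := by
    have : 1 ≤ p ^ 2 := Nat.one_le_pow _ _ (Nat.pos_of_ne_zero hp0)
    omega
  rw [h3, h4, ← pow_mul]
  ring

end Pool.Agent.Lib.FL60
end
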